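import Pool.Agent.MP_89edc2_al.K76.Spec

/-!
# Counting step: slow generating sets give small balls
-/

namespace Pool.Agent.MP_89edc2_al.K76

open scoped commutatorElement Pointwise
open Filter Topology

namespace Cntx

theorem exists_N (m : ℕ) {c : ℝ} (hc : 1 < c) : ∃ N₀ : ℕ, ∀ N, N₀ ≤ N → 4 ≤ N ∧
    (((4 * N ^ 2 + 1) ^ 2 * (N * 2 ^ m) : ℕ) : ℝ) ^ 2 < c ^ (N - 3) := by
  have hc0 : 0 < c := by linarith
  have hε : (0 : ℝ) < 1 / (625 * 4 ^ m * c ^ 3) := by positivity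
  have h := (tendsto_pow_const_div_const_pow_of_one_lt 10 hc).eventually (gt_mem_nhds hε)
  obtain ⟨N₀, hN₀⟩ := eventually_atTop.1 (h.and (eventually_ge_atTop 4))
  refine ⟨N₀, fun N hN => ?_⟩
  obtain ⟨h1, h4⟩ := hN₀ N hN
  refine ⟨h4, ?_⟩
  obtain ⟨d, rfl⟩ : ∃ d, N = d + 3 := ⟨N - 3, by omega⟩
  rw [Nat.add_sub_cancel]
  rw [div_lt_div_iff₀ (by positivity) (by positivity), pow_add c, one_mul, ← mul_assoc] at h1
  have h2 := lt_of_mul_lt_mul_right h1 (by positivity)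
  refine lt_of_le_of_lt ?_ h2
  generalize d + 3 = N at h4 ⊢
  have h3 : (4 * N ^ 2 + 1) ^ 2 * (N * 2 ^ m) ≤ (5 * N ^ 2) ^ 2 * (N * 2 ^ m) :=
    Nat.mul_le_mul_right _ (Nat.pow_le_pow_left (by nlinarith) 2)
  have h5 : (((4 * N ^ 2 + 1) ^ 2 * (N * 2 ^ m) : ℕ) : ℝ) ≤ (5 * N ^ 2) ^ 2 * (N * 2 ^ m) := by
    exact_mod_cast h3
  refine (pow_le_pow_left₀ (by positivity) h5 2).trans (le_of_eq ?_)
  rw [show (4 : ℝ) ^ m = (2 ^ m) ^ 2 by rw [← pow_mul, mul_comm, pow_mul]; norm_num]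
  ring

theorem prod_mem_pow {G : Type} [Group G] [DecidableEq G] (E : Finset G) (l : List G)
    (hl : ∀ x ∈ l, x ∈ E) : l.prod ∈ E ^ l.length := by
  induction l with
  | nil => simp
  | cons x l ih =>
    rw [List.prod_cons, List.length_cons, pow_succ']
    exact Finset.mul_mem_mul (hl x (by simp)) (ih fun y hy => hl y (by simp [hy]))

end Cntx

open Cntx in
theorem cnt_main : SpCnt := by
  classical
  intro G _ m h c hc
  obtain ⟨N₀, hN₀⟩ := exists_N m hc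
  obtain ⟨N, hN, Q, hQ, F, E, h1, hE, hb⟩ := h N₀
  obtain ⟨h4, hP⟩ := hN₀ N hN
  refine ⟨Q, hQ, ?_⟩
  have he1 : (0 : ℝ) < E.card := by exact_mod_cast Finset.card_pos.2 ⟨1, h1⟩
  have he2 : (E.card : ℝ) ^ 2 < c ^ (N - 3) :=
    lt_of_le_of_lt (pow_le_pow_left₀ he1.le (by exact_mod_cast hE) 2) hP
  have hr : 1 < c ^ (N - 3) / (E.card : ℝ) ^ 2 := (one_lt_div (by positivity)).2 he2
  obtain ⟨j, hj⟩ := pow_unbounded_of_one_lt ((F.card : ℝ) * (E.card : ℝ) ^ (N ^ 2)) hr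
  refine ⟨(N - 3) * j, ?_⟩
  have hsub : ball Q ((N - 3) * j) ⊆ ((F * E ^ (2 * j + N ^ 2) : Finset G) : Set G) := by
    intro g hg
    obtain ⟨f, hf, l, hl, hlen, rfl⟩ := hb _ g hg
    have hlen' : l.length ≤ 2 * j + N ^ 2 := by
      refine Nat.le_of_mul_le_mul_left (hlen.trans ?_) (show 0 < N - 3 by omega)
      have : N ^ 2 ≤ (N - 3) * N ^ 2 := Nat.le_mul_of_pos_left _ (by omega)
      rw [mul_add, mul_left_comm (N - 3)]
      omega
    exact Finset.mem_coe.2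
      (Finset.mul_mem_mul hf (Finset.pow_subset_pow_right h1 hlen' (prod_mem_pow E l hl)))
  have hcard : (ball Q ((N - 3) * j)).ncard ≤ F.card * E.card ^ (2 * j + N ^ 2) := by
    refine (Set.ncard_le_ncard hsub (Finset.finite_toSet _)).trans ?_
    rw [Set.ncard_coe_finset]
    exact Finset.card_mul_le.trans (Nat.mul_le_mul_left _ Finset.card_pow_le)
  have hcard' : ((ball Q ((N - 3) * j)).ncard : ℝ) ≤ F.card * (E.card : ℝ) ^ (2 * j + N ^ 2) := by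
    exact_mod_cast hcard
  refine hcard'.trans_lt ?_
  rw [div_pow, lt_div_iff₀ (by positivity), ← pow_mul, ← pow_mul] at hj
  rw [pow_add, mul_comm ((E.card : ℝ) ^ (2 * j)), ← mul_assoc]
  exact hj

end Pool.Agent.MP_89edc2_al.K76
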