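import Pool.Agent.MP_89edc2_al.K76.Spec

/-! Embedding into a finitely presented quotient, and exponential growth. -/

namespace Pool.Agent.MP_89edc2_al.K76

namespace Embx

theorem ball_finite {G : Type} [Group G] (Q : Finset G) (k : ℕ) : (ball Q k).Finite := by
  have hT : {x : G | x ∈ Q ∨ x⁻¹ ∈ Q}.Finite := by
    refine (Q.finite_toSet.union (Q.finite_toSet.image fun x => x⁻¹)).subset fun x hx => ?_
    rcases hx with hx | hx
    · exact Or.inl hx
    · exact Or.inr ⟨x⁻¹, hx, inv_inv x⟩
  have := hT.to_subtype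
  refine ((List.finite_length_le {x : G | x ∈ Q ∨ x⁻¹ ∈ Q} k).image
    fun l => (l.map Subtype.val).prod).subset ?_
  rintro g ⟨l, hl, hm, rfl⟩
  refine ⟨l.pmap (fun x hx => ⟨x, hx⟩) hm, by simpa using hl, ?_⟩
  have e : List.pmap (fun a (_ : a ∈ Q ∨ a⁻¹ ∈ Q) => a) l hm = l.map fun a => a :=
    List.pmap_eq_map hm
  simp only [List.map_pmap]
  exact (congrArg List.prod e).trans (by rw [List.map_id'])

end Embx

theorem emb_main : SpEmb := by
  intro Γ H M _ _ _ π d hΓ hH hπ hd
  obtain ⟨n, φ, hφ, S, hS, hker⟩ := hH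
  choose y hy using fun i : Fin n => hπ (d (φ (FreeGroup.of i)))
  let ψ : FreeGroup (Fin n) →* Γ := FreeGroup.lift y
  have hψ : π.comp ψ = d.comp φ := by
    ext i
    simp [ψ, hy]
  let N : Subgroup Γ := Subgroup.normalClosure (ψ '' S)
  have hN : N ≤ π.ker := by
    refine Subgroup.normalClosure_le_normal ?_
    rintro _ ⟨x, hx, rfl⟩
    have h1 : φ x = 1 := by
      rw [← MonoidHom.mem_ker, ← hker]
      exact Subgroup.subset_normalClosure hx
    have h2 : π (ψ x) = d (φ x) := DFunLike.congr_fun hψ x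
    simp [h2, h1]
  let κ : Γ →* Γ ⧸ N := QuotientGroup.mk' N
  let π' : Γ ⧸ N →* M := QuotientGroup.lift N π hN
  have hk : φ.ker ≤ (κ.comp ψ).ker := by
    rw [← hker]
    refine Subgroup.normalClosure_le_normal fun x hx => ?_
    have : ψ x ∈ N := Subgroup.subset_normalClosure ⟨x, hx, rfl⟩
    simpa [κ] using this
  let e : H →* Γ ⧸ N := φ.liftOfSurjective hφ ⟨κ.comp ψ, hk⟩
  have he : ∀ x, e (φ x) = κ (ψ x) := fun x =>
    φ.liftOfRightInverse_comp_apply _ _ ⟨κ.comp ψ, hk⟩ x
  have hd' : ∀ h, π' (e h) = d h := fun h => by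
    obtain ⟨x, rfl⟩ := hφ h
    rw [he]
    exact DFunLike.congr_fun hψ x
  refine ⟨Γ ⧸ N, inferInstance, κ, π', e, hΓ.quotient N ⟨_, hS.image ψ, rfl⟩,
    QuotientGroup.mk'_surjective N, fun m => ?_, fun a b hab => hd ?_⟩
  · obtain ⟨x, rfl⟩ := hπ m
    exact ⟨κ x, rfl⟩
  · rw [← hd', ← hd', hab]

theorem exp_main : SpExp := by
  classical
  intro G M _ _ π g hG hπ hg
  obtain ⟨n, φ, hφ, -⟩ := hG
  choose y hy using fun b => hπ (g b)
  let Q : Finset G := Finset.univ.image (fun i : Fin n => φ (FreeGroup.of i)) ∪ Finset.univ.image y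
  refine ⟨Q, ?_, 2, by norm_num, fun k => ?_⟩
  · rw [eq_top_iff]
    intro x _
    obtain ⟨x, rfl⟩ := hφ x
    induction x using FreeGroup.induction_on with
    | C1 => simp
    | of i => exact Subgroup.subset_closure (by simp [Q])
    | inv_of i hi => simpa using hi trivial
    | mul a b ha hb => simpa using Subgroup.mul_mem _ (ha trivial) (hb trivial)
  · let f : (Fin k → Bool) → G := fun v => ((List.ofFn v).map y).prod
    have hf : ∀ v, π (f v) = ((List.ofFn v).map g).prod := fun v => by
      simp only [f, map_list_prod, List.map_map]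
      congr 2
      exact funext hy
    have hinj : Function.Injective f := fun v w h => by
      have h1 := hg (List.ofFn v) (List.ofFn w) (by simp) (by rw [← hf, ← hf, h])
      exact List.ofFn_injective h1
    have hsub : Set.range f ⊆ ball Q k := by
      rintro _ ⟨v, rfl⟩
      refine ⟨(List.ofFn v).map y, by simp, fun x hx => Or.inl ?_, rfl⟩
      obtain ⟨b, -, rfl⟩ := List.mem_map.1 hx
      exact Finset.mem_union_right _ (Finset.mem_image_of_mem y (Finset.mem_univ b))
    have h1 := Set.ncard_le_ncard hsub (Embx.ball_finite Q k)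
    rw [Set.ncard_range_of_injective hinj] at h1
    simp only [Nat.card_eq_fintype_card, Fintype.card_fun, Fintype.card_bool,
      Fintype.card_fin] at h1
    exact_mod_cast h1

end Pool.Agent.MP_89edc2_al.K76
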