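import Pool.Agent.MP_89edc2_al.K76.Spec

/-!
# Doubling the index set of a Steinberg system
-/

namespace Pool.Agent.MP_89edc2_al.K76

open scoped commutatorElement

namespace Dblx

variable {I R G : Type} [Ring R] [Group G] (S : St I R G)

theorem zero {i j : I} (h : i ≠ j) : S.X i j 0 = 1 := by
  have := S.add i j h 0 0
  rw [add_zero] at this
  exact mul_eq_left.1 this.symm

theorem inv (h2 : ∀ r : R, r + r = 0) {i j : I} (h : i ≠ j) (r : R) :
    (S.X i j r)⁻¹ = S.X i j r :=
  inv_eq_of_mul_eq_one_right (by rw [← S.add i j h, h2, zero S h])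

theorem conjC {i j l : I} (hij : i ≠ j) (hjl : j ≠ l) (hil : i ≠ l) (w r : R) :
    S.X i j w * S.X j l r * (S.X i j w)⁻¹ = S.X i l (w * r) * S.X j l r := by
  rw [← S.mul i j l hij hjl hil, commutatorElement_def]; group

theorem conjR (h2 : ∀ r : R, r + r = 0) {i j l : I} (hij : i ≠ j) (hli : l ≠ i) (hlj : l ≠ j)
    (w r : R) : S.X i j w * S.X l i r * (S.X i j w)⁻¹ = S.X l j (r * w) * S.X l i r := by
  rw [← inv S h2 hlj, ← S.mul l i j hli hij hlj, commutatorElement_def]; group

theorem cj {g x : G} (h : Commute g x) : g * x * g⁻¹ = x := by rw [h.eq]; group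

theorem cj_mul (g x y : G) : g * (x * y) * g⁻¹ = g * x * g⁻¹ * (g * y * g⁻¹) := by group

theorem cj_comm {a b x : G} (ha : a⁻¹ = a) (hb : b⁻¹ = b) :
    ⁅a, b⁆ * x * ⁅a, b⁆⁻¹ = a * (b * (a * (b * x * b⁻¹) * a⁻¹) * b⁻¹) * a⁻¹ := by
  have : ⁅a, b⁆ = a * b * a * b := by rw [commutatorElement_def, ha, hb]
  rw [this]; group

/-- The action on a pair of entries of a row. -/
theorem rowA (h2 : ∀ r : R, r + r = 0) {i k l : I} (hik : i ≠ k) (hli : l ≠ i) (hlk : l ≠ k)
    (u x y : R) : S.X i k u * (S.X l i x * S.X l k y) * (S.X i k u)⁻¹ =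
      S.X l i x * S.X l k (x * u + y) := by
  rw [cj_mul, conjR S h2 hik hli hlk, cj (S.comm i k l k hik hlk hlk.symm hik u y),
    (S.comm l k l i hlk hli hlk.symm hli _ _).eq, S.add l k hlk, mul_assoc]

theorem rowB (h2 : ∀ r : R, r + r = 0) {i k l : I} (hik : i ≠ k) (hli : l ≠ i) (hlk : l ≠ k)
    (v x y : R) : S.X k i v * (S.X l i x * S.X l k y) * (S.X k i v)⁻¹ =
      S.X l i (y * v + x) * S.X l k y := by
  rw [(S.comm l i l k hli hlk hli.symm hlk _ _).eq, rowA S h2 hik.symm hlk hli,
    (S.comm l i l k hli hlk hli.symm hlk _ _).eq]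

theorem row (h2 : ∀ r : R, r + r = 0) {i k l : I} (hik : i ≠ k) (hli : l ≠ i) (hlk : l ≠ k)
    {u v : R} (h : v * u = 0) (x y : R) :
    ⁅S.X i k u, S.X k i v⁆ * (S.X l i x * S.X l k y) * ⁅S.X i k u, S.X k i v⁆⁻¹ =
      S.X l i (x * u * v + x) * S.X l k y := by
  rw [cj_comm (inv S h2 hik u) (inv S h2 hik.symm v), rowB S h2 hik hli hlk,
    rowA S h2 hik hli hlk, rowB S h2 hik hli hlk, rowA S h2 hik hli hlk]
  have e1 : (y * v + x) * u + y = x * u + y := by rw [add_mul, mul_assoc, h, mul_zero, zero_add]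
  have e2 : (x * u + y) * v + (y * v + x) = x * u * v + x := by
    rw [add_mul, add_assoc, ← add_assoc (y * v), h2, zero_add]
  have e3 : (x * u * v + x) * u + (x * u + y) = y := by
    rw [add_mul, mul_assoc (x * u), h, mul_zero, zero_add, ← add_assoc, h2, zero_add]
  rw [e1, e2, e3]

/-- The action on a pair of entries of a column. -/
theorem colA {i k l : I} (hik : i ≠ k) (hil : i ≠ l) (hkl : k ≠ l) (u x y : R) :
    S.X i k u * (S.X i l x * S.X k l y) * (S.X i k u)⁻¹ = S.X i l (x + u * y) * S.X k l y := by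
  rw [cj_mul, conjC S hik hkl hil, cj (S.comm i k i l hik hil hik.symm hil u x), S.add i l hil,
    mul_assoc]

theorem colB {i k l : I} (hik : i ≠ k) (hil : i ≠ l) (hkl : k ≠ l) (v x y : R) :
    S.X k i v * (S.X i l x * S.X k l y) * (S.X k i v)⁻¹ = S.X i l x * S.X k l (y + v * x) := by
  rw [(S.comm i l k l hil hkl hkl.symm hil _ _).eq, colA S hik.symm hkl hil,
    (S.comm i l k l hil hkl hkl.symm hil _ _).eq]

theorem col (h2 : ∀ r : R, r + r = 0) {i k l : I} (hik : i ≠ k) (hil : i ≠ l) (hkl : k ≠ l)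
    {u v : R} (h : v * u = 0) (x y : R) :
    ⁅S.X i k u, S.X k i v⁆ * (S.X i l x * S.X k l y) * ⁅S.X i k u, S.X k i v⁆⁻¹ =
      S.X i l (u * (v * x) + x) * S.X k l y := by
  rw [cj_comm (inv S h2 hik u) (inv S h2 hik.symm v), colB S hik hil hkl, colA S hik hil hkl,
    colB S hik hil hkl, colA S hik hil hkl]
  have e1 : y + v * x + v * (x + u * (y + v * x)) = y := by
    rw [mul_add v, ← mul_assoc v u, h, zero_mul, add_zero, add_assoc, h2, add_zero]
  have e2 : x + u * (y + v * x) + u * y = u * (v * x) + x := by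
    rw [mul_add, add_comm (u * y), add_assoc, add_assoc, h2, add_zero, add_comm]
  rw [e1, e2]

open Classical in
theorem F1k (h2 : ∀ r : R, r + r = 0) {i j k l m : I} (hik : i ≠ k) (hkj : k ≠ j) (hil : i ≠ l)
    (hjl : j ≠ l) (hkl : k ≠ l) (hml : m ≠ l) {u v : R} (h : i = j → v * u = 0) (r : R) :
    ⁅S.X i k u, S.X k j v⁆ * S.X m l r * ⁅S.X i k u, S.X k j v⁆⁻¹ =
      S.X i l (u * if m = j then v * r else 0) * S.X m l r := by
  by_cases hij : i = j
  · subst hij
    split_ifs with hm
    · subst hm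
      have := col S h2 hik hil hkl (h rfl) r 0
      rwa [zero S hkl, mul_one, mul_one, S.add _ _ hil] at this
    · rw [mul_zero, zero S hil, one_mul]
      by_cases hk : m = k
      · subst hk
        have := col S h2 hik hil hkl (h rfl) 0 r
        rwa [mul_zero, mul_zero, add_zero, zero S hil, one_mul] at this
      · have a := S.comm i k m l hik hml (Ne.symm hk) hil u r
        have b := S.comm k i m l hkj hml (Ne.symm hm) hkl v r
        exact cj (((a.mul_left b).mul_left a.inv_left).mul_left b.inv_left)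
  · rw [S.mul i k j hik hkj hij]
    split_ifs with hm
    · subst hm
      rw [conjC S hij hjl hil, mul_assoc]
    · rw [mul_zero, zero S hil, one_mul]
      exact cj (S.comm i j m l hij hml (Ne.symm hm) hil _ _)

open Classical in
theorem F2k (h2 : ∀ r : R, r + r = 0) {i j k l m : I} (hik : i ≠ k) (hkj : k ≠ j) (hli : l ≠ i)
    (hlj : l ≠ j) (hlk : l ≠ k) (hlm : l ≠ m) {u v : R} (h : i = j → v * u = 0) (r : R) :
    ⁅S.X i k u, S.X k j v⁆ * S.X l m r * ⁅S.X i k u, S.X k j v⁆⁻¹ =
      S.X l j ((if i = m then r * u else 0) * v) * S.X l m r := by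
  by_cases hij : i = j
  · subst hij
    split_ifs with hm
    · subst hm
      have := row S h2 hik hli hlk (h rfl) r 0
      rwa [zero S hlk, mul_one, mul_one, S.add _ _ hli] at this
    · rw [zero_mul, zero S hli, one_mul]
      by_cases hk : m = k
      · subst hk
        have := row S h2 hik hli hlk (h rfl) 0 r
        rwa [zero_mul, zero_mul, add_zero, zero S hli, one_mul] at this
      · have a := S.comm i k l m hik hlm hlk.symm hm u r
        have b := S.comm k i l m hkj hlm hli.symm (Ne.symm hk) v r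
        exact cj (((a.mul_left b).mul_left a.inv_left).mul_left b.inv_left)
  · rw [S.mul i k j hik hkj hij]
    split_ifs with hm
    · subst hm
      rw [conjR S h2 hij hli hlj, mul_assoc]
    · rw [zero_mul, zero S hlj, one_mul]
      exact cj (S.comm i j l m hij hlm hlj.symm hm _ _)

theorem key {a b c q : G} (hac : Commute a c) (hq : ⁅a, b⁆ = q) (hqb : Commute q b) :
    ⁅a, ⁅b, c⁆⁆ = b * ⁅q, c⁆ * b⁻¹ := by
  have e1 : a * b * a⁻¹ = b * q := by rw [← hqb.eq, ← hq, commutatorElement_def]; group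
  have e2 : a * c * a⁻¹ = c := cj hac
  calc ⁅a, ⁅b, c⁆⁆
      = (a * b * a⁻¹) * (a * c * a⁻¹) * (a * b * a⁻¹)⁻¹ * (a * c * a⁻¹)⁻¹ *
          (c * b * c⁻¹ * b⁻¹) := by
        simp only [commutatorElement_def]; group
    _ = b * ⁅q, c⁆ * b⁻¹ := by rw [e1, e2, commutatorElement_def]; group

theorem indep (h2 : ∀ r : R, r + r = 0) {i j k l : I} (hik : i ≠ k) (hkj : k ≠ j) (hil : i ≠ l)
    (hlj : l ≠ j) {u v : R} (h : i = j → v * u = 0) :
    ⁅S.X i k u, S.X k j v⁆ = ⁅S.X i l u, S.X l j v⁆ := by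
  by_cases hij : i = j
  · subst hij
    by_cases hkl : k = l
    · rw [hkl]
    have hac : Commute (S.X i k u) (S.X l i v) := by
      rw [← commutatorElement_eq_one_iff_commute, ← commutatorElement_inv,
        S.mul l i k hlj hik (Ne.symm hkl), h rfl, zero S (Ne.symm hkl), inv_one]
    have h1 := key hac (S.mul i k l hik hkl hil u 1) (S.comm i l k l hil hkl (Ne.symm hkl) hil _ _)
    rw [S.mul k l i hkl hlj hkj, one_mul, mul_one] at h1
    have h3 := F2k S h2 hil hlj hkj hkj hkl hkl h 1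
    rw [if_neg hil, zero_mul, zero S hkj, one_mul, mul_inv_eq_iff_eq_mul] at h3
    rw [h1, ← h3, mul_inv_cancel_right]
  · rw [S.mul i k j hik hkj hij, S.mul i l j hil hlj hij]

theorem free [Fintype I] (hI : 5 ≤ Fintype.card I) (a b c d : I) :
    ∃ l, a ≠ l ∧ b ≠ l ∧ c ≠ l ∧ d ≠ l := by
  classical
  obtain ⟨l, -, hl⟩ := Finset.exists_mem_notMem_of_card_lt_card
    (s := ({a, b, c, d} : Finset I)) (t := Finset.univ)
    (lt_of_le_of_lt Finset.card_le_four (by rw [Finset.card_univ]; omega))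
  simp only [Finset.mem_insert, Finset.mem_singleton, not_or] at hl
  exact ⟨l, Ne.symm hl.1, Ne.symm hl.2.1, Ne.symm hl.2.2.1, Ne.symm hl.2.2.2⟩

variable [Fintype I] (hI : 5 ≤ Fintype.card I) (h2 : ∀ r : R, r + r = 0)

/-- The transvection attached to an orthogonal pair. -/
noncomputable def Z (i : I) (u : R) (j : I) (v : R) : G :=
  ⁅S.X i (free hI i j i j).choose u, S.X (free hI i j i j).choose j v⁆

include h2

theorem Zeq {i j k : I} (hik : i ≠ k) (hjk : j ≠ k) {u v : R} (h : i = j → v * u = 0) :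
    Z S hI i u j v = ⁅S.X i k u, S.X k j v⁆ :=
  indep S h2 (free hI i j i j).choose_spec.1 (free hI i j i j).choose_spec.2.1.symm hik hjk.symm h

open Classical in
theorem F1 {i j l m : I} (hil : i ≠ l) (hjl : j ≠ l) (hml : m ≠ l) {u v : R}
    (h : i = j → v * u = 0) (r : R) : Z S hI i u j v * S.X m l r * (Z S hI i u j v)⁻¹ =
      S.X i l (u * if m = j then v * r else 0) * S.X m l r := by
  obtain ⟨k, a, b, c, -⟩ := free hI i j l l
  rw [Zeq S hI h2 a b h]
  exact F1k S h2 a b.symm hil hjl c.symm hml h r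

open Classical in
theorem F10 {i j l m : I} (hil : i ≠ l) (hjl : j ≠ l) (hml : m ≠ l) {u v : R}
    (h : i = j → v * u = 0) {r : R} (h' : m = j → v * r = 0) :
    Commute (Z S hI i u j v) (S.X m l r) := by
  have := F1 S hI h2 hil hjl hml h r
  rw [ite_eq_right_iff.2 h', mul_zero, zero S hil, one_mul, mul_inv_eq_iff_eq_mul] at this
  exact this

open Classical in
theorem F20 {i j l m : I} (hil : i ≠ l) (hjl : j ≠ l) (hml : m ≠ l) {u v : R}
    (h : i = j → v * u = 0) {r : R} (h' : i = m → r * u = 0) :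
    Commute (Z S hI i u j v) (S.X l m r) := by
  obtain ⟨k, a, b, c, -⟩ := free hI i j l l
  have := F2k S h2 a b.symm hil.symm hjl.symm c hml.symm h r
  rw [ite_eq_right_iff.2 h', zero_mul, zero S hjl.symm, one_mul, mul_inv_eq_iff_eq_mul,
    ← Zeq S hI h2 a b h] at this
  exact this

theorem Zcomm {i j m n : I} {u v x y : R} (h : i = j → v * u = 0) (h' : m = n → y * x = 0)
    (h1 : m = j → v * x = 0) (h3 : i = n → y * u = 0) :
    Commute (Z S hI i u j v) (Z S hI m x n y) := by
  obtain ⟨l, a, b, c, d⟩ := free hI i j m n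
  have p := F10 S hI h2 a b c h h1
  have q := F20 S hI h2 a b d h h3
  rw [Zeq S hI h2 c d h']
  exact ((p.mul_right q).mul_right p.inv_right).mul_right q.inv_right

/-- Additivity in the column vector. -/
theorem Zadd {i m n l : I} (hil : i ≠ l) (hml : m ≠ l) (hnl : n ≠ l) {u x y : R}
    (h : i = n → y * u = 0) (h' : m = n → y * x = 0) :
    ⁅S.X m l x * S.X i l u, S.X l n y⁆ = Z S hI i u n y * Z S hI m x n y := by
  have e := cj (F10 S hI h2 hil hnl hml h h').symm
  rw [← e, Zeq S hI h2 hil hnl h, Zeq S hI h2 hml hnl h']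
  simp only [commutatorElement_def]; group

theorem Zmul {i j n : I} {u v x y : R} (h : i = j → v * u = 0) (h' : j = n → y * x = 0)
    (h3 : i = n → y * u = 0) :
    ⁅Z S hI i u j v, Z S hI j x n y⁆ = Z S hI i (u * (v * x)) n y := by
  obtain ⟨l, a, b, d, -⟩ := free hI i j n n
  have p := F1 S hI h2 a b b h x
  rw [if_pos rfl, (S.comm i l j l a b b.symm a _ _).eq] at p
  have q := cj (F20 S hI h2 a b d h h3)
  have e := Zadd S hI h2 a b d (u := u * (v * x))
    (fun e => by rw [← mul_assoc, h3 e, zero_mul]) h'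
  rw [← p, ← q, ← conjugate_commutatorElement, ← Zeq S hI h2 b d h'] at e
  rw [commutatorElement_def, e, mul_inv_cancel_right]

end Dblx

open Dblx in
theorem dbl_main : SpDbl := by
  intro I R G _ _ _ S s t hI h2 hL hG
  have o : ∀ {a b : I × Bool}, a ≠ b → ∀ r, a.1 = b.1 → t b.2 * (s a.2 * r) = 0 := by
    intro a b hab r h
    rw [← mul_assoc, hL.1, if_neg fun e => hab (Prod.ext h e.symm), zero_mul]
  refine ⟨⟨fun a b r => Z S hI a.1 (s a.2 * r) b.1 (t b.2), fun a b hab r r' => ?_,
    fun a b c d hab hcd hbc had r r' => Zcomm S hI h2 (o hab r) (o hcd r') (o hbc.symm r') (o had r),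
    fun a b c hab hbc hac r r' => ?_⟩, ?_⟩
  · obtain ⟨l, p, q, -⟩ := free hI a.1 b.1 a.1 a.1
    rw [← Zadd S hI h2 p p q (o hab r) (o hab r'), Zeq S hI h2 p q (o hab _), ← S.add _ _ p,
      ← mul_add, add_comm]
  · rw [Zmul S hI h2 (o hab r) (o hbc r') (o hac r), ← mul_assoc (t b.2), hL.1, if_pos rfl, one_mul,
      mul_assoc]
  · rw [St.Gen, eq_top_iff, ← hG, Subgroup.closure_le]
    rintro g ⟨i, j, r, hij, rfl⟩
    obtain ⟨l, p, q, -⟩ := free hI i j i i
    have m : ∀ e d, S.X i j (s e * (t e * r * s d) * t d) ∈ Subgroup.closure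
        {g | ∃ (a b : I × Bool) (r : R), a ≠ b ∧ g = Z S hI a.1 (s a.2 * r) b.1 (t b.2)} :=
      fun e d => Subgroup.subset_closure ⟨(i, e), (j, d), t e * r * s d,
        fun h => hij (congrArg Prod.fst h), by
          rw [Zeq S hI h2 p q (fun h => absurd h hij), S.mul i l j p q.symm hij]⟩
    have e : r = s false * (t false * r * s false) * t false + s false * (t false * r * s true) *
        t true + (s true * (t true * r * s false) * t false + s true * (t true * r * s true) *
        t true) := by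
      calc r = (s false * t false + s true * t true) * r *
            (s false * t false + s true * t true) := by
            rw [hL.2, one_mul, mul_one]
        _ = _ := by noncomm_ring
    rw [e, S.add i j hij, S.add i j hij, S.add i j hij]
    exact mul_mem (mul_mem (m _ _) (m _ _)) (mul_mem (m _ _) (m _ _))

end Pool.Agent.MP_89edc2_al.K76
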