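import Pool.Agent.MP_89edc2_al.K76.Spec

universe u

namespace Pool.Agent.MP_89edc2_al.K76

open scoped commutatorElement

section
variable {I J R G G' : Type} [Ring R] [Group G] [Group G']

/-- Push a system forward along a homomorphism. -/
def St.map (S : St I R G) (φ : G →* G') : St I R G' where
  X i j r := φ (S.X i j r)
  add i j h r s := by rw [S.add i j h, map_mul]
  comm i j k l h1 h2 h3 h4 r s := (S.comm i j k l h1 h2 h3 h4 r s).map φ
  mul i j k h1 h2 h3 r s := by rw [← map_commutatorElement, S.mul i j k h1 h2 h3]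

theorem St.Gen.map {S : St I R G} (h : S.Gen) (φ : G →* G') (hφ : Function.Surjective φ) :
    (S.map φ).Gen := by
  have := congrArg (Subgroup.map φ) h
  rw [MonoidHom.map_closure, Subgroup.map_top_of_surjective φ hφ] at this
  rw [St.Gen, eq_top_iff, ← this]
  refine Subgroup.closure_mono ?_
  rintro _ ⟨_, ⟨i, j, r, hij, rfl⟩, rfl⟩
  exact ⟨i, j, r, hij, rfl⟩

/-- Reindex a system. -/
def St.re (S : St I R G) (e : J ≃ I) : St J R G where
  X i j r := S.X (e i) (e j) r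
  add _ _ h := S.add _ _ (e.injective.ne h)
  comm _ _ _ _ h1 h2 h3 h4 :=
    S.comm _ _ _ _ (e.injective.ne h1) (e.injective.ne h2) (e.injective.ne h3) (e.injective.ne h4)
  mul _ _ _ h1 h2 h3 := S.mul _ _ _ (e.injective.ne h1) (e.injective.ne h2) (e.injective.ne h3)

theorem St.Gen.re {S : St I R G} (h : S.Gen) (e : J ≃ I) : (S.re e).Gen := by
  rw [St.Gen, eq_top_iff, ← h]
  refine Subgroup.closure_mono ?_
  rintro _ ⟨i, j, r, hij, rfl⟩
  exact ⟨e.symm i, e.symm j, r, e.symm.injective.ne hij, by simp [St.re]⟩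

theorem St.Gen.surj {S : St I R G} {S' : St I R G'} (h : S'.Gen) (φ : G →* G')
    (hφ : ∀ i j r, i ≠ j → φ (S.X i j r) = S'.X i j r) : Function.Surjective φ := by
  rw [← MonoidHom.range_eq_top, eq_top_iff, ← h, Subgroup.closure_le]
  rintro _ ⟨i, j, r, hij, rfl⟩
  exact ⟨_, hφ i j r hij⟩

theorem iter (hD : SpDbl) (S : St (Fin 5) R G) {s t : Bool → R} (h2 : ∀ r : R, r + r = 0)
    (hL : Lea s t) (hS : S.Gen) (k : ℕ) :
    ∃ S' : St (Fin (5 * 2 ^ k) × Bool) R G, S'.Gen := by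
  induction k with
  | zero => exact hD (Fin 5) R G S s t (by simp) h2 hL hS
  | succ k ih =>
    obtain ⟨S', hS'⟩ := ih
    have e : Fin (5 * 2 ^ (k + 1)) ≃ Fin (5 * 2 ^ k) × Bool :=
      Fintype.equivOfCardEq (by simp [pow_succ, mul_assoc])
    refine hD _ R G (S'.re e) s t ?_ h2 hL (hS'.re e)
    rw [Fintype.card_fin]
    exact Nat.le_mul_of_pos_right _ (by positivity)

theorem FPRing.fg (h : FPRing R) : ∃ ρ : Finset R, 1 ∈ ρ ∧ Subring.closure (ρ : Set R) = ⊤ := by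
  classical
  obtain ⟨A, _, ev, T, hs, -⟩ := h
  have : Fintype A := Fintype.ofFinite A
  refine ⟨insert 1 (Finset.univ.image fun a => ev (FreeRing.of a)), Finset.mem_insert_self _ _, ?_⟩
  rw [eq_top_iff]
  intro r _
  obtain ⟨x, rfl⟩ := hs r
  induction x using FreeRing.induction_on with
  | hn1 => rw [map_neg, map_one]; exact neg_mem (one_mem _)
  | hb a => exact Subring.subset_closure (by simp)
  | ha x y hx hy => rw [map_add]; exact add_mem (hx trivial) (hy trivial)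
  | hm x y hx hy => rw [map_mul]; exact mul_mem (hx trivial) (hy trivial)

end

theorem fin_main (hFp : SpFpb) (hD : SpDbl) (hW : SpW) (hG : SpGen) (hI : SpInv) (hC : SpCnt)
    (hT : SpTc.{u}) (hR : SpRing) (hM : SpMat) (hE : SpEmb) (hX : SpExp)
    (H : Type) [Group H] (hH : Group.IsFinitelyPresented H) :
    ∃ (G : Type) (_ : Group G) (e : H →* G), Function.Injective e ∧
      Group.IsFinitelyPresented G ∧ Kaz.{u} G ∧
      (∃ Q : Finset G, Subgroup.closure (Q : Set G) = ⊤ ∧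
        ∃ c : ℝ, 1 < c ∧ ∀ k : ℕ, c ^ k ≤ ((ball Q k).ncard : ℝ)) ∧
      ∀ c : ℝ, 1 < c → ∃ Q : Finset G, Subgroup.closure (Q : Set G) = ⊤ ∧
        ∃ k : ℕ, ((ball Q k).ncard : ℝ) < c ^ k := by
  classical
  haveI : Fact (Nat.Prime 2) := ⟨Nat.prime_two⟩
  letI : Fintype (GaloisField 2 10) := Fintype.ofFinite _
  have hcard : 1024 ≤ Fintype.card (GaloisField 2 10) := by
    rw [← Nat.card_eq_fintype_card, GaloisField.card 2 10 (by norm_num)]
    norm_num
  have hF : ∀ x : GaloisField 2 10, x + x = 0 := fun x => CharTwo.add_self_eq_zero x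
  obtain ⟨R, _, ι, s, t, η, hfp, _, hc, hL, hη, hst⟩ := hR H hH (GaloisField 2 10) hF
  have h2 : ∀ r : R, r + r = 0 := fun r => by
    have := congrArg (fun x => ι x * r) (hF 1)
    simpa [add_mul] using this
  obtain ⟨Γ, _, S, fΓ, gS, uS⟩ := hFp R hfp
  obtain ⟨M, _, S', d, g, gS', hd, hg⟩ := hM H R s t η h2 hL hη hst
  obtain ⟨π, hπ⟩ := uS M S'
  obtain ⟨G, _, κ, π', e, fG, hκ, hπ', he⟩ := hE Γ H M π d fΓ hH (gS'.surj π hπ) hd
  obtain ⟨ρ, h1, hρ⟩ := hfp.fg
  have gG := gS.map κ hκ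
  refine ⟨G, inferInstance, e, he, fG, hT R G _ _ ι ρ hcard h2 hc h1 hρ gG,
    hX G M π' g fG hπ' hg, hC G ρ.card fun N₀ => ?_⟩
  obtain ⟨S₁, g₁⟩ := iter hD _ h2 hL gG N₀
  have hN : N₀ < 2 ^ N₀ := Nat.lt_two_pow_self
  have w := hW _ R G S₁ (by simp; omega) h2
  obtain ⟨f₁, c₁⟩ := hG _ R G S₁ ρ (by omega) h2 w g₁ h1 hρ
  refine ⟨5 * 2 ^ N₀, by omega, f₁.toFinset, by rwa [Set.Finite.coe_toFinset], ?_⟩
  exact hI _ R G S₁ ρ _ (by omega) w f₁.coe_toFinset

end Pool.Agent.MP_89edc2_al.K76
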