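import Pool.Agent.MP_89edc2_al.K76.Spec

/-! The Steinberg group of rank five over a free ring is finitely presented. -/

set_option autoImplicit false

namespace Pool.Agent.MP_89edc2_al.K76

open scoped commutatorElement

namespace Fpax

section Grp

variable {G : Type} [Group G]

theorem cR {a b c : G} (h : Commute b ⁅a, c⁆) : ⁅a, b * c⁆ = ⁅a, b⁆ * ⁅a, c⁆ := by
  have h1 : ⁅a, b * c⁆ = ⁅a, b⁆ * (b * ⁅a, c⁆) * b⁻¹ := by
    simp only [commutatorElement_def]; group
  rw [h1, h.eq]; group

theorem cRi {a b : G} (h : Commute b ⁅a, b⁆) : ⁅a, b⁻¹⁆ = ⁅a, b⁆⁻¹ := by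
  have h1 : ⁅a, b⁻¹⁆ = b⁻¹ * (⁅a, b⁆⁻¹ * b) := by
    simp only [commutatorElement_def]; group
  rw [h1, ← h.inv_right.eq]; group

theorem cL {a b c : G} (h : Commute a ⁅b, c⁆) : ⁅a * b, c⁆ = ⁅b, c⁆ * ⁅a, c⁆ := by
  have h1 : ⁅a * b, c⁆ = (a * ⁅b, c⁆) * a⁻¹ * ⁅a, c⁆ := by
    simp only [commutatorElement_def]; group
  rw [h1, h.eq]; group

theorem cLi {a c : G} (h : Commute a ⁅a, c⁆) : ⁅a⁻¹, c⁆ = ⁅a, c⁆⁻¹ := by
  have h1 : ⁅a⁻¹, c⁆ = a⁻¹ * (⁅a, c⁆⁻¹ * a) := by
    simp only [commutatorElement_def]; group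
  rw [h1, ← h.inv_right.eq]; group

theorem zero_of_add {R : Type} [AddGroup R] {F : R → G} (h : ∀ r s, F (r + s) = F r * F s) :
    F 0 = 1 := by
  have := h 0 0
  rw [add_zero] at this
  exact mul_left_cancel (a := F 0) (by rw [← this, mul_one])

theorem neg_of_add {R : Type} [AddGroup R] {F : R → G} (h : ∀ r s, F (r + s) = F r * F s)
    (r : R) : F (-r) = (F r)⁻¹ := by
  have := h (-r) r
  rw [neg_add_cancel, zero_of_add h] at this
  exact eq_inv_of_mul_eq_one_left this.symm

end Grp

variable {A : Type}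

/-- words as elements of the free ring -/
def wd (m : List A) : FreeRing A := FreeAbelianGroup.of (FreeMonoid.ofList m)

theorem wd_append (m m' : List A) : wd (m ++ m') = wd m * wd m' :=
  (FreeAbelianGroup.of_mul_of (FreeMonoid.ofList m) (FreeMonoid.ofList m')).symm

theorem ind {P : FreeRing A → Prop} (h0 : P 0) (h1 : ∀ m, P (wd m)) (h2 : ∀ r, P r → P (-r))
    (h3 : ∀ r s, P r → P s → P (r + s)) (r : FreeRing A) : P r :=
  FreeAbelianGroup.induction_on (motive := P) r h0 (fun m => h1 (FreeMonoid.toList m))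
    (fun _ h => h2 _ h) h3

theorem exists_ext {G : Type} [Group G] (f : List A → G) (hf : ∀ m m', Commute (f m) (f m')) :
    ∃ F : FreeRing A → G, (∀ r s, F (r + s) = F r * F s) ∧ ∀ m, F (wd m) = f m := by
  let _ : CommGroup (Subgroup.closure (Set.range f)) :=
    { (inferInstance : Group (Subgroup.closure (Set.range f))) with
      mul_comm := fun a b => (Subgroup.isMulCommutative_closure (k := Set.range f) (by
        rintro _ ⟨m, rfl⟩ _ ⟨m', rfl⟩
        exact hf m m')).is_comm.comm a b }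
  let g : FreeMonoid A → Additive (Subgroup.closure (Set.range f)) := fun m =>
    Additive.ofMul ⟨f (FreeMonoid.toList m), Subgroup.subset_closure ⟨_, rfl⟩⟩
  refine ⟨fun r => (Additive.toMul (FreeAbelianGroup.lift g r) :
    Subgroup.closure (Set.range f)), fun r s => ?_, fun m => ?_⟩
  · have := (FreeAbelianGroup.lift g).map_add r s
    exact congrArg (fun z => ((Additive.toMul z : Subgroup.closure (Set.range f)) : G)) this
  · have := FreeAbelianGroup.lift_apply_of g (FreeMonoid.ofList m)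
    exact congrArg (fun z => ((Additive.toMul z : Subgroup.closure (Set.range f)) : G)) this

theorem exists_St {G : Type} [Group G] (X : Fin 5 → Fin 5 → List A → G) (h : ∀ D, Upto X D) :
    ∃ S : St (Fin 5) (FreeRing A) G, ∀ i j m, i ≠ j → S.X i j (wd m) = X i j m := by
  have h1 : ∀ i j : Fin 5, ∃ F : FreeRing A → G, (∀ r s, F (r + s) = F r * F s) ∧
      (i ≠ j → ∀ m, F (wd m) = X i j m) := by
    intro i j
    by_cases hij : i = j
    · exact ⟨fun _ => 1, fun _ _ => (one_mul 1).symm, fun h => absurd hij h⟩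
    · obtain ⟨F, hF, hF'⟩ := exists_ext (X i j) fun m m' =>
        (h _).1 i j i j hij hij (Ne.symm hij) hij m m' le_rfl
      exact ⟨F, hF, fun _ => hF'⟩
  choose F hF hF' using h1
  have hc : ∀ i j k l, i ≠ j → k ≠ l → j ≠ k → i ≠ l → ∀ r s, Commute (F i j r) (F k l s) := by
    intro i j k l a1 a2 a3 a4 r s
    induction r using ind with
    | h0 => rw [zero_of_add (hF i j)]; exact Commute.one_left _
    | h1 m =>
      induction s using ind with
      | h0 => rw [zero_of_add (hF k l)]; exact Commute.one_right _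
      | h1 m' => rw [hF' i j a1, hF' k l a2]; exact (h _).1 i j k l a1 a2 a3 a4 m m' le_rfl
      | h2 s ih => rw [neg_of_add (hF k l)]; exact ih.inv_right
      | h3 s s' ih ih' => rw [hF]; exact ih.mul_right ih'
    | h2 r ih => rw [neg_of_add (hF i j)]; exact ih.inv_left
    | h3 r r' ih ih' => rw [hF]; exact ih.mul_left ih'
  refine ⟨⟨F, fun i j _ => hF i j, hc, ?_⟩, fun i j m hij => hF' i j hij m⟩
  intro i j k a1 a2 a3 r s
  induction r using ind with
  | h0 => rw [zero_mul, zero_of_add (hF i j), zero_of_add (hF i k), commutatorElement_one_left]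
  | h1 m =>
    induction s using ind with
    | h0 => rw [mul_zero, zero_of_add (hF j k), zero_of_add (hF i k), commutatorElement_one_right]
    | h1 m' =>
      rw [← wd_append, hF' i j a1, hF' j k a2, hF' i k a3]
      exact (h _).2 i j k a1 a2 a3 m m' le_rfl
    | h2 s ih =>
      rw [neg_of_add (hF j k), mul_neg, neg_of_add (hF i k), cRi, ih]
      rw [ih]
      exact hc j k i k a2 a3 a3.symm a2 _ _
    | h3 s s' ih ih' =>
      rw [hF, mul_add, hF, cR, ih, ih']
      rw [ih']
      exact hc j k i k a2 a3 a3.symm a2 _ _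
  | h2 r ih =>
    rw [neg_of_add (hF i j), neg_mul, neg_of_add (hF i k), cLi, ih]
    rw [ih]
    exact hc i j i k a1 a3 a1.symm a3 _ _
  | h3 r r' ih ih' =>
    rw [hF, add_mul, add_comm, hF, cL, ih, ih']
    rw [ih']
    exact hc i j i k a1 a3 a1.symm a3 _ _

/-- a third index -/
def th (i j : Fin 5) : Fin 5 := if i ≠ 0 ∧ j ≠ 0 then 0 else if i ≠ 1 ∧ j ≠ 1 then 1 else 2

theorem th_ne : ∀ i j : Fin 5, th i j ≠ i ∧ th i j ≠ j := by decide

/-- extension from short words to all words -/
def ex {G : Type} [Group G] (x : Fin 5 → Fin 5 → List A → G) : List A → Fin 5 → Fin 5 → G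
  | [], i, j => x i j []
  | a :: m, i, j =>
    if m.length ≤ 1 then x i j (a :: m) else ⁅x i (th i j) [a], ex x m (th i j) j⁆

theorem ex_short {G : Type} [Group G] (x : Fin 5 → Fin 5 → List A → G) (m : List A)
    (h : m.length ≤ 2) (i j : Fin 5) : ex x m i j = x i j m := by
  cases m with
  | nil => rfl
  | cons a m =>
    rw [ex, if_pos]
    simpa using h

/-- the generators -/
abbrev Gn (A : Type) : Type := {p : Fin 5 × Fin 5 × List A // p.1 ≠ p.2.1 ∧ p.2.2.length ≤ 2}

theorem finite_Gn [Finite A] : Finite (Gn A) := by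
  have h := (Set.finite_univ (α := Fin 5)).prod
    ((Set.finite_univ (α := Fin 5)).prod (List.finite_length_le A 2))
  exact (h.subset (t := {p : Fin 5 × Fin 5 × List A | p.1 ≠ p.2.1 ∧ p.2.2.length ≤ 2})
    fun p hp => ⟨trivial, trivial, hp.2⟩).to_subtype

/-- the letters -/
def yy (i j : Fin 5) (m : List A) : FreeGroup (Gn A) :=
  if h : i ≠ j ∧ m.length ≤ 2 then FreeGroup.of ⟨(i, j, m), h⟩ else 1

theorem yy_eq {i j : Fin 5} {m : List A} (h1 : i ≠ j) (h2 : m.length ≤ 2) :
    yy i j m = FreeGroup.of (⟨(i, j, m), h1, h2⟩ : Gn A) := dif_pos ⟨h1, h2⟩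

/-- the relators -/
def rels (A : Type) : Set (FreeGroup (Gn A)) :=
  {r | (∃ (i j k l : Fin 5) (m m' : List A), i ≠ j ∧ k ≠ l ∧ j ≠ k ∧ i ≠ l ∧
      m.length + m'.length ≤ 2 ∧ r = ⁅yy i j m, yy k l m'⁆) ∨
    ∃ (i j k : Fin 5) (m m' : List A), i ≠ j ∧ j ≠ k ∧ i ≠ k ∧ m.length + m'.length ≤ 2 ∧
      r = ⁅yy i j m, yy j k m'⁆ * (yy i k (m ++ m'))⁻¹}

theorem finite_rels [Finite A] : (rels A).Finite := by
  have := finite_Gn (A := A)
  refine ((Set.finite_range fun p : Gn A × Gn A => ⁅FreeGroup.of p.1, FreeGroup.of p.2⁆).union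
    (Set.finite_range fun p : Gn A × Gn A × Gn A =>
      ⁅FreeGroup.of p.1, FreeGroup.of p.2.1⁆ * (FreeGroup.of p.2.2)⁻¹)).subset ?_
  rintro r (⟨i, j, k, l, m, m', a1, a2, -, -, a5, rfl⟩ | ⟨i, j, k, m, m', a1, a2, a3, a5, rfl⟩)
  · rw [yy_eq a1 (by omega), yy_eq a2 (by omega)]
    exact Or.inl ⟨(_, _), rfl⟩
  · rw [yy_eq a1 (by omega), yy_eq a2 (by omega), yy_eq a3 (by simpa using a5)]
    exact Or.inr ⟨(_, _, _), rfl⟩

/-- the short elements -/
def xx (i j : Fin 5) (m : List A) : PresentedGroup (rels A) :=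
  PresentedGroup.mk (rels A) (yy i j m)

theorem upto_two : Upto (fun i j (m : List A) => ex xx m i j) 2 := by
  constructor
  · intro i j k l a1 a2 a3 a4 m m' a5
    simp only
    rw [ex_short _ _ (by omega), ex_short _ _ (by omega), ← commutatorElement_eq_one_iff_commute,
      xx, xx, ← map_commutatorElement]
    exact PresentedGroup.one_of_mem (Or.inl ⟨i, j, k, l, m, m', a1, a2, a3, a4, a5, rfl⟩)
  · intro i j k a1 a2 a3 m m' a5
    simp only
    rw [ex_short _ _ (by omega), ex_short _ _ (by omega), ex_short _ _ (by simpa using a5),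
      xx, xx, xx, ← map_commutatorElement]
    exact PresentedGroup.mk_eq_mk_of_mul_inv_mem (Or.inr ⟨i, j, k, m, m', a1, a2, a3, a5, rfl⟩)

end Fpax

open Fpax in
theorem fpa_main (h : SpStep) : SpFpa := by
  intro A _
  have := finite_Gn (A := A)
  have : Finite (rels A) := (finite_rels (A := A)).to_subtype
  have hall := h A (PresentedGroup (rels A)) (fun i j m => ex xx m i j)
    (fun i j _ a m hm => ⟨th i j, (th_ne i j).1, (th_ne i j).2, by
      rw [ex, if_neg (by omega), ex_short xx [a] (by simp)]⟩) upto_two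
  obtain ⟨S, hS⟩ := exists_St _ hall
  refine ⟨PresentedGroup (rels A), inferInstance, S, inferInstance, ?_, ?_⟩
  · rw [St.Gen, eq_top_iff, ← PresentedGroup.closure_range_of]
    refine Subgroup.closure_mono ?_
    rintro _ ⟨⟨⟨i, j, m⟩, a1, a2⟩, rfl⟩
    refine ⟨i, j, wd m, a1, ?_⟩
    rw [hS i j m a1, ex_short _ _ a2, xx, yy_eq a1 a2]
    rfl
  · intro G' _ S'
    let f : Gn A → G' := fun p => S'.X p.1.1 p.1.2.1 (wd p.1.2.2)
    have hy : ∀ (i j : Fin 5) (m : List A), i ≠ j → m.length ≤ 2 →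
        FreeGroup.lift f (yy i j m) = S'.X i j (wd m) := by
      intro i j m a1 a2
      rw [yy_eq a1 a2, FreeGroup.lift_apply_of]
    have hr : ∀ r ∈ rels A, FreeGroup.lift f r = 1 := by
      rintro r (⟨i, j, k, l, m, m', a1, a2, a3, a4, a5, rfl⟩ |
        ⟨i, j, k, m, m', a1, a2, a3, a5, rfl⟩)
      · rw [map_commutatorElement, hy _ _ _ a1 (by omega), hy _ _ _ a2 (by omega),
          commutatorElement_eq_one_iff_commute]
        exact S'.comm i j k l a1 a2 a3 a4 _ _
      · rw [map_mul, map_inv, map_commutatorElement, hy _ _ _ a1 (by omega),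
          hy _ _ _ a2 (by omega), hy _ _ _ a3 (by simpa using a5), S'.mul i j k a1 a2 a3,
          wd_append, mul_inv_cancel]
    have hx : ∀ (i j : Fin 5) (m : List A), i ≠ j → m.length ≤ 2 →
        PresentedGroup.toGroup hr (xx i j m) = S'.X i j (wd m) := by
      intro i j m a1 a2
      rw [xx, yy_eq a1 a2]
      exact PresentedGroup.toGroup.of hr
    have hw : ∀ (m : List A) (i j : Fin 5), i ≠ j →
        PresentedGroup.toGroup hr (ex xx m i j) = S'.X i j (wd m) := by
      intro m
      induction m with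
      | nil => exact fun i j a1 => hx i j [] a1 (by simp)
      | cons a m ih =>
        intro i j a1
        rw [ex]
        split_ifs with hm
        · exact hx i j _ a1 (by simpa using hm)
        · rw [map_commutatorElement, hx _ _ _ (th_ne i j).1.symm (by simp),
            ih _ _ (th_ne i j).2, S'.mul _ _ _ (th_ne i j).1.symm (th_ne i j).2 a1, ← wd_append]
          rfl
    refine ⟨PresentedGroup.toGroup hr, fun i j r a1 => ?_⟩
    induction r using ind with
    | h0 => rw [zero_of_add (S.add i j a1), zero_of_add (S'.add i j a1), map_one]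
    | h1 m => rw [hS i j m a1, hw m i j a1]
    | h2 r ih => rw [neg_of_add (S.add i j a1), neg_of_add (S'.add i j a1), map_inv, ih]
    | h3 r s ih ih' => rw [S.add i j a1, S'.add i j a1, map_mul, ih, ih']

end Pool.Agent.MP_89edc2_al.K76
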