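import Pool.Agent.MP_89edc2_al.K76.Spec

/-! Steinberg groups over finitely presented rings are finitely presented. -/

namespace Pool.Agent.MP_89edc2_al.K76

open scoped commutatorElement

namespace Fpbx

variable {R G : Type} [Ring R] [Group G] (S : St (Fin 5) R G)

theorem x_zero {I : Type} (S : St I R G) {i j : I} (h : i ≠ j) : S.X i j 0 = 1 := by
  have e := S.add i j h 0 0
  rw [add_zero] at e
  exact (mul_eq_left.1 e.symm)

theorem third : ∀ i j : Fin 5, ∃ k, k ≠ i ∧ k ≠ j := by decide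

theorem mem_of_span (N : Subgroup G) [hN : N.Normal] {T : Set R}
    (hT : ∀ t ∈ T, ∀ i j, i ≠ j → S.X i j t ∈ N) {x : R} (hx : x ∈ TwoSidedIdeal.span T) :
    ∀ i j, i ≠ j → S.X i j x ∈ N := by
  induction hx using TwoSidedIdeal.span_induction with
  | mem x h => exact hT x h
  | zero => intro i j h; rw [x_zero S h]; exact N.one_mem
  | add x y _ _ hx hy => intro i j h; rw [S.add i j h]; exact N.mul_mem (hx i j h) (hy i j h)
  | neg x _ hx =>
    intro i j h
    have e : S.X i j (-x) = (S.X i j x)⁻¹ :=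
      eq_inv_of_mul_eq_one_left (by rw [← S.add i j h, neg_add_cancel, x_zero S h])
    rw [e]; exact N.inv_mem (hx i j h)
  | left_absorb a x _ hx =>
    intro i j h
    obtain ⟨k, h1, h2⟩ := third i j
    rw [← S.mul i k j h1.symm h2 h, commutatorElement_def]
    exact N.mul_mem (hN.conj_mem _ (hx k j h2) _) (N.inv_mem (hx k j h2))
  | right_absorb b x _ hx =>
    intro i j h
    obtain ⟨k, h1, h2⟩ := third i j
    rw [← S.mul i k j h1.symm h2 h, commutatorElement_def, mul_assoc, mul_assoc, ← mul_assoc (S.X k j b)]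
    exact N.mul_mem (hx i k h1.symm) (hN.conj_mem _ (N.inv_mem (hx i k h1.symm)) _)

end Fpbx

theorem fpb_main (h : SpFpa) : SpFpb := by
  intro R _ ⟨A, _, ev, T, hev, hker⟩
  obtain ⟨Γ, _, S, hfp, hgen, huniv⟩ := h A
  let Rel : Set Γ := (fun q : (Fin 5 × Fin 5) × FreeRing A => S.X q.1.1 q.1.2 q.2) ''
    ({q | q.1 ≠ q.2} ×ˢ (T : Set (FreeRing A)))
  have hfin : Rel.Finite := ((Set.toFinite _).prod T.finite_toSet).image _
  let N := Subgroup.normalClosure Rel
  have hN : ∀ i j, i ≠ j → ∀ x, ev x = 0 → S.X i j x ∈ N := fun i j hij x hx =>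
    Fpbx.mem_of_span S N (fun t ht i j hij =>
      Subgroup.subset_normalClosure ⟨((i, j), t), ⟨hij, ht⟩, rfl⟩) ((hker x).1 hx) i j hij
  let q : Γ →* Γ ⧸ N := QuotientGroup.mk' N
  have hq : ∀ i j, i ≠ j → ∀ x y, ev x = ev y → q (S.X i j x) = q (S.X i j y) := by
    intro i j hij x y e
    have e1 : q (S.X i j (x - y)) = 1 :=
      (QuotientGroup.eq_one_iff _).2 (hN i j hij _ (by rw [map_sub, e, sub_self]))
    rw [← sub_add_cancel x y, S.add i j hij, map_mul, e1, one_mul]
  have hs : ∀ r, ev (Function.surjInv hev r) = r := Function.surjInv_eq hev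
  let S₁ : St (Fin 5) R (Γ ⧸ N) :=
    { X := fun i j r => q (S.X i j (Function.surjInv hev r))
      add := fun i j hij r s => by
        rw [← map_mul, ← S.add i j hij]
        exact hq i j hij _ _ (by rw [map_add, hs, hs, hs])
      comm := fun i j k l h1 h2 h3 h4 r s => (S.comm i j k l h1 h2 h3 h4 _ _).map q
      mul := fun i j k h1 h2 h3 r s => by
        rw [← map_commutatorElement, S.mul i j k h1 h2 h3]
        exact hq i k h3 _ _ (by rw [map_mul, hs, hs, hs]) }
  have hX : ∀ i j, i ≠ j → ∀ x, q (S.X i j x) = S₁.X i j (ev x) := fun i j hij x =>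
    hq i j hij _ _ (hs _).symm
  refine ⟨Γ ⧸ N, inferInstance, S₁, Group.IsFinitelyPresented.quotient N ⟨Rel, hfin, rfl⟩, ?_, ?_⟩
  · have e := congrArg (Subgroup.map q) hgen
    rw [MonoidHom.map_closure, Subgroup.map_top_of_surjective q (QuotientGroup.mk'_surjective N)] at e
    refine top_le_iff.1 (e.ge.trans (Subgroup.closure_mono ?_))
    rintro _ ⟨_, ⟨i, j, x, hij, rfl⟩, rfl⟩
    exact ⟨i, j, ev x, hij, hX i j hij x⟩
  · intro G' _ S'
    obtain ⟨φ, hφ⟩ := huniv G'
      { X := fun i j x => S'.X i j (ev x)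
        add := fun i j hij r s => by rw [map_add, S'.add i j hij]
        comm := fun i j k l h1 h2 h3 h4 r s => S'.comm i j k l h1 h2 h3 h4 _ _
        mul := fun i j k h1 h2 h3 r s => by rw [map_mul, S'.mul i j k h1 h2 h3] }
    have hle : N ≤ φ.ker := Subgroup.normalClosure_le_normal (by
      rintro _ ⟨⟨⟨i, j⟩, t⟩, ⟨hij, ht⟩, rfl⟩
      have e : ev t = 0 := (hker t).2 (TwoSidedIdeal.subset_span ht)
      have e2 := hφ i j t hij
      simp only [e, Fpbx.x_zero S' hij] at e2
      exact e2)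
    refine ⟨QuotientGroup.lift N φ hle, fun i j r hij => ?_⟩
    have e := hφ i j (Function.surjInv hev r) hij
    simp only [hs] at e
    exact e

end Pool.Agent.MP_89edc2_al.K76
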