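import Pool.Agent.MP_89edc2_al.K76.Spec

/-!
# The small generating set generates
-/

namespace Pool.Agent.MP_89edc2_al.K76

open scoped commutatorElement

namespace Genx

section

variable {I R G : Type} [DecidableEq I] [Ring R] [Group G] {S : St I R G} {C : Subgroup G}

theorem conj1 (hW : S.W) {a b c d : I} (hab : a ≠ b) (hcd : c ≠ d) (h1 : S.T a b ∈ C)
    (h2 : S.T c d ∈ C) : S.T (Equiv.swap a b c) (Equiv.swap a b d) ∈ C := by
  rw [← hW.conjT a b c d hab hcd]
  exact mul_mem (mul_mem h1 h2) h1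

theorem conj2 (hW : S.W) {a b a' b' c d : I} (hab : a ≠ b) (hab' : a' ≠ b') (hcd : c ≠ d)
    (h1 : S.T a b * S.T a' b' ∈ C) (h2 : S.T c d ∈ C) :
    S.T (Equiv.swap a b (Equiv.swap a' b' c)) (Equiv.swap a b (Equiv.swap a' b' d)) ∈ C := by
  rw [← hW.conjT a b _ _ hab ((Equiv.swap a' b').injective.ne hcd), ← hW.conjT a' b' c d hab' hcd]
  have h3 := mul_mem (mul_mem h1 h2) (inv_mem h1)
  rw [mul_inv_rev, inv_eq_of_mul_eq_one_right (hW.invol a b hab),
    inv_eq_of_mul_eq_one_right (hW.invol a' b' hab')] at h3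
  simpa only [mul_assoc] using h3

/-- The transposition lies in `C`. -/
def Rl (S : St I R G) (C : Subgroup G) (c d : I) : Prop := c ≠ d → S.T c d ∈ C

theorem Rl.symm (hW : S.W) {c d : I} (h : Rl S C c d) : Rl S C d c := fun hn => by
  rw [hW.symm d c hn]
  exact h hn.symm

theorem Rl.trans (hW : S.W) {c d e : I} (h : Rl S C c d) (h' : Rl S C d e) : Rl S C c e :=
  fun hn => by
    by_cases h1 : c = d
    · subst h1
      exact h' hn
    by_cases h2 : d = e
    · subst h2
      exact h hn
    have := conj1 hW h2 h1 (h' h2) (h h1)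
    rwa [Equiv.swap_apply_of_ne_of_ne h1 hn, Equiv.swap_apply_left] at this

theorem move (hW : S.W) (hT : ∀ c d, Rl S C c d) {e f : I} (hef : e ≠ f) {r : R}
    (h : S.X e f r ∈ C) (c d : I) (hcd : c ≠ d) : S.X c d r ∈ C := by
  have k : ∀ {a b e f : I}, a ≠ b → e ≠ f → S.X e f r ∈ C →
      S.X (Equiv.swap a b e) (Equiv.swap a b f) r ∈ C := fun {a b e f} hab hef h => by
    rw [← hW.conjX a b e f hab hef]
    exact mul_mem (mul_mem (hT a b hab) h) (hT a b hab)
  have m2 : ∀ {f : I}, c ≠ f → S.X c f r ∈ C → S.X c d r ∈ C := fun {f} hf h => by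
    by_cases h1 : f = d
    · exact h1 ▸ h
    have := k h1 hf h
    rwa [Equiv.swap_apply_of_ne_of_ne hf hcd, Equiv.swap_apply_left] at this
  by_cases h1 : c = f
  · subst h1
    have := k hef hef h
    rw [Equiv.swap_apply_left, Equiv.swap_apply_right] at this
    exact m2 hef.symm this
  by_cases h2 : e = c
  · subst h2
    exact m2 hef h
  have := k h2 hef h
  rw [Equiv.swap_apply_left, Equiv.swap_apply_of_ne_of_ne hef.symm (Ne.symm h1)] at this
  exact m2 h1 this

end

variable {N : ℕ} {R G : Type} [Ring R] [Group G] {S : St (Fin N × Bool) R G} {ρ : Finset R}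

theorem fin : (S.gens ρ).Finite := by
  refine (((Set.finite_range fun x : Fin N × Fin N =>
    S.T (x.1, false) (x.2, false) * S.T (x.1, true) (x.2, true)).union
    (Set.finite_range fun x : (Fin N × Bool) × (Fin N × Bool) => S.T x.1 x.2)).union
    (Set.finite_range fun x : Fin N × ρ => S.X (x.1, false) (x.1, true) x.2)).subset ?_
  rintro g (⟨i, j, -, rfl⟩ | ⟨i, -, rfl⟩ | ⟨i, j, -, -, rfl⟩ | ⟨i, -, r, hr, rfl⟩)
  · exact Or.inl (Or.inl ⟨(i, j), rfl⟩)
  · exact Or.inl (Or.inr ⟨(_, _), rfl⟩)
  · exact Or.inl (Or.inr ⟨(_, _), rfl⟩)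
  · exact Or.inr ⟨(i, ⟨r, hr⟩), rfl⟩

theorem blk {i j : Fin N} (h : j.val = i.val + 1) :
    S.T (i, false) (j, false) * S.T (i, true) (j, true) ∈ Subgroup.closure (S.gens ρ) :=
  Subgroup.subset_closure (Or.inl ⟨i, j, h, rfl⟩)

theorem vert (hW : S.W) (n : ℕ) : ∀ i : Fin N, i.val = n →
    S.T (i, false) (i, true) ∈ Subgroup.closure (S.gens ρ) := by
  induction n with
  | zero => exact fun i hi => Subgroup.subset_closure (Or.inr (Or.inl ⟨i, hi, rfl⟩))
  | succ n ih =>
    intro j hj
    let i : Fin N := ⟨n, by omega⟩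
    have hij : i ≠ j := fun h => by have : n = j.val := congrArg Fin.val h; omega
    have := conj2 hW (by simp [hij]) (by simp [hij]) (by simp) (blk (ρ := ρ) (i := i) hj) (ih i rfl)
    rwa [Equiv.swap_apply_left, Equiv.swap_apply_of_ne_of_ne (x := (i, false)) (by simp) (by simp),
      Equiv.swap_apply_left,
      Equiv.swap_apply_of_ne_of_ne (x := (j, true)) (by simp) (by simp)] at this

theorem horiz (hW : S.W) (n : ℕ) : ∀ i j : Fin N, i.val = n → j.val = n + 1 →
    S.T (i, false) (j, false) ∈ Subgroup.closure (S.gens ρ) := by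
  induction n with
  | zero => exact fun i j hi hj => Subgroup.subset_closure (Or.inr (Or.inr (Or.inl ⟨i, j, hi, hj, rfl⟩)))
  | succ n ih =>
    intro j k hj hk
    let i : Fin N := ⟨n, by omega⟩
    have hij : i ≠ j := fun h => by have : n = j.val := congrArg Fin.val h; omega
    have hik : i ≠ k := fun h => by have : n = k.val := congrArg Fin.val h; omega
    have hjk : j ≠ k := fun h => by have : j.val = k.val := congrArg Fin.val h; omega
    have h0 := ih i j rfl hj
    have := conj2 hW (by simp [hjk]) (by simp [hjk]) (by simp [hij])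
      (blk (ρ := ρ) (i := j) (j := k) (by omega)) h0
    rw [Equiv.swap_apply_of_ne_of_ne (x := (i, false)) (by simp) (by simp),
      Equiv.swap_apply_of_ne_of_ne (x := (i, false)) (by simp [hij]) (by simp [hik]),
      Equiv.swap_apply_of_ne_of_ne (x := (j, false)) (a := (j, true)) (by simp) (by simp),
      Equiv.swap_apply_left] at this
    exact Rl.trans hW (Rl.symm hW fun _ => h0) (fun _ => this) (by simp [hjk])

theorem base (hW : S.W) (z : Fin N) (hz : z.val = 0) (n : ℕ) : ∀ i : Fin N, i.val = n →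
    Rl S (Subgroup.closure (S.gens ρ)) (z, false) (i, false) := by
  induction n with
  | zero => exact fun i hi h => absurd (by rw [Fin.ext (hz.trans hi.symm)]) h
  | succ n ih =>
    intro j hj
    exact Rl.trans hW (ih ⟨n, by omega⟩ rfl) fun _ => horiz hW n _ j rfl hj

theorem allT (hW : S.W) (c d : Fin N × Bool) : Rl S (Subgroup.closure (S.gens ρ)) c d := by
  let z : Fin N := ⟨0, c.1.pos⟩
  have k : ∀ c : Fin N × Bool, Rl S (Subgroup.closure (S.gens ρ)) (z, false) c := by
    rintro ⟨i, _ | _⟩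
    · exact base hW z rfl _ i rfl
    · exact Rl.trans hW (base hW z rfl _ i rfl) fun _ => vert hW _ i rfl
  exact Rl.trans hW (Rl.symm hW (k c)) (k d)

end Genx

open Genx in
theorem gen_main : SpGen := by
  intro N R G _ _ S ρ hN h2 hW hG h1 hρ
  refine ⟨fin, ?_⟩
  have hr : ∀ r ∈ ρ, ∀ c d, c ≠ d → S.X c d r ∈ Subgroup.closure (S.gens ρ) := fun r hr =>
    move hW (allT hW) (e := (⟨N - 1, by omega⟩, false)) (f := (⟨N - 1, by omega⟩, true)) (by simp)
      (Subgroup.subset_closure (Or.inr (Or.inr (Or.inr ⟨_, by simp only; omega, r, hr, rfl⟩))))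
  let A : Subring R :=
    { carrier := {r | ∀ c d, c ≠ d → S.X c d r ∈ Subgroup.closure (S.gens ρ)}
      mul_mem' := fun {r s} ha hb c d hcd => by
        obtain ⟨k, -, hk⟩ := Finset.exists_mem_notMem_of_card_lt_card
          (s := ({c, d} : Finset (Fin N × Bool))) (t := Finset.univ)
          (Finset.card_le_two.trans_lt (by simp; omega))
        simp only [Finset.mem_insert, Finset.mem_singleton, not_or] at hk
        rw [← S.mul c k d (Ne.symm hk.1) hk.2 hcd, commutatorElement_def]
        have h3 := ha c k (Ne.symm hk.1)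
        have h4 := hb k d hk.2
        exact mul_mem (mul_mem (mul_mem h3 h4) (inv_mem h3)) (inv_mem h4)
      one_mem' := hr 1 h1
      add_mem' := fun {r s} ha hb c d hcd => by
        rw [S.add c d hcd]
        exact mul_mem (ha c d hcd) (hb c d hcd)
      zero_mem' := fun c d hcd => by
        rw [hW.zero c d hcd]
        exact one_mem _
      neg_mem' := fun {r} ha => by
        rw [neg_eq_of_add_eq_zero_left (h2 r)]
        exact ha }
  have hA : (⊤ : Subring R) ≤ A := hρ ▸ Subring.closure_le.2 hr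
  rw [eq_top_iff, ← hG, Subgroup.closure_le]
  rintro _ ⟨i, j, r, hij, rfl⟩
  exact hA (Subring.mem_top r) i j hij

end Pool.Agent.MP_89edc2_al.K76
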