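import Pool.Agent.MP_89edc2_al.K76.Spec

namespace Pool.Agent.MP_89edc2_al.K76

open scoped commutatorElement Pointwise

namespace Invx

variable {N : ℕ} {R G : Type} [Ring R] [Group G] (S : St (Fin N × Bool) R G) (ρ : Finset R)

/-- The local transvection. -/
def Y (x : Fin N) (r : R) : G := S.X (x, false) (x, true) r

/-- The abelian group of local transvections at the labels of `J`. -/
def A (J : Set (Fin N)) : Subgroup G :=
  Subgroup.closure {g | ∃ x ∈ J, ∃ r ∈ ρ, g = Y S x r}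

open Classical in
/-- The local group at one label. -/
noncomputable def Ex (x : Fin N) : Finset G := ρ.powerset.image fun σ => Y S x (∑ r ∈ σ, r)

open Classical in
/-- Transpositions and the identity. -/
noncomputable def TT : Finset G :=
  insert 1 (Finset.univ.image fun p : (Fin N × Bool) × (Fin N × Bool) => S.T p.1 p.2)

open Classical in
/-- The set of committed letters. -/
noncomputable def EE : Finset G := TT S * TT S * Finset.univ.biUnion (Ex S ρ)

variable {S ρ}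

theorem ne01 (x y : Fin N) : ((x, false) : Fin N × Bool) ≠ (y, true) := by simp

theorem Y_comm (x y : Fin N) (r r' : R) : Commute (Y S x r) (Y S y r') :=
  S.comm _ _ _ _ (ne01 _ _) (ne01 _ _) (ne01 _ _).symm (ne01 _ _) r r'

theorem Y_add (x : Fin N) (r r' : R) : Y S x (r + r') = Y S x r * Y S x r' :=
  S.add _ _ (ne01 _ _) r r'

theorem one_Ex (w : S.W) (x : Fin N) : (1 : G) ∈ Ex S ρ x := by
  classical
  refine Finset.mem_image.2 ⟨∅, by simp, ?_⟩
  rw [Finset.sum_empty]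
  exact w.zero _ _ (ne01 _ _)

theorem mul_Ex (w : S.W) {x : Fin N} {e : G} (he : e ∈ Ex S ρ x) {r : R} (hr : r ∈ ρ) :
    e * Y S x r ∈ Ex S ρ x := by
  classical
  obtain ⟨σ, hσ, rfl⟩ := Finset.mem_image.1 he
  rw [Finset.mem_powerset] at hσ
  by_cases h : r ∈ σ
  · refine Finset.mem_image.2 ⟨σ.erase r,
      Finset.mem_powerset.2 ((Finset.erase_subset _ _).trans hσ), ?_⟩
    rw [← Finset.sum_erase_add σ _ h, Y_add, mul_assoc]
    have : Y S x r * Y S x r = 1 := w.sq _ _ (ne01 _ _) r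
    rw [this, mul_one]
  · refine Finset.mem_image.2 ⟨insert r σ,
      Finset.mem_powerset.2 (Finset.insert_subset hr hσ), ?_⟩
    rw [Finset.sum_insert h, add_comm, Y_add]

theorem A_mono {J J' : Set (Fin N)} (h : J ⊆ J') : A S ρ J ≤ A S ρ J' :=
  Subgroup.closure_mono fun _ ⟨x, hx, r⟩ => ⟨x, h hx, r⟩

theorem K_mono {J J' : Set (Fin N × Bool)} (h : J ⊆ J') : S.K J ≤ S.K J' :=
  Subgroup.closure_mono fun _ ⟨c, hc, d, hd, r⟩ => ⟨c, h hc, d, h hd, r⟩

theorem A_remove (w : S.W) (J : Set (Fin N)) (x : Fin N) {a : G} (ha : a ∈ A S ρ J) :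
    ∃ a' ∈ A S ρ (J \ {x}), ∃ e ∈ Ex S ρ x, a = a' * e := by
  classical
  have step : ∀ g y, y ∈ {g | ∃ x ∈ J, ∃ r ∈ ρ, g = Y S x r} →
      (∃ a' ∈ A S ρ (J \ {x}), ∃ e ∈ Ex S ρ x, g = a' * e) →
      ∃ a' ∈ A S ρ (J \ {x}), ∃ e ∈ Ex S ρ x, g * y = a' * e := by
    rintro _ _ ⟨y, hy, r, hr, rfl⟩ ⟨a', ha', e, he, rfl⟩
    by_cases h : y = x
    · subst h
      exact ⟨a', ha', _, mul_Ex w he hr, mul_assoc _ _ _⟩
    · refine ⟨a' * Y S y r, mul_mem ha' (Subgroup.subset_closure ⟨y, ⟨hy, h⟩, r, hr, rfl⟩), e, he, ?_⟩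
      obtain ⟨σ, -, rfl⟩ := Finset.mem_image.1 he
      rw [mul_assoc, (Y_comm _ _ _ _).eq, mul_assoc]
  induction ha using Subgroup.closure_induction_right with
  | one => exact ⟨1, one_mem _, 1, one_Ex w x, (one_mul _).symm⟩
  | mul_right g _ y hy ih => exact step g y hy ih
  | mul_inv_cancel g _ y hy ih =>
    have : y⁻¹ = y := by
      obtain ⟨z, -, r, -, rfl⟩ := hy
      exact inv_eq_of_mul_eq_one_right (w.sq _ _ (ne01 _ _) r)
    rw [this]
    exact step g y hy ih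

theorem A_fin (w : S.W) (J : Finset (Fin N)) : (A S ρ (J : Set (Fin N)) : Set G).Finite := by
  classical
  induction J using Finset.induction_on with
  | empty =>
    refine (Set.finite_singleton (1 : G)).subset fun g hg => ?_
    simpa [A] using hg
  | insert x J _ ih =>
    refine (ih.mul (Ex S ρ x).finite_toSet).subset fun g hg => ?_
    obtain ⟨a', ha', e, he, rfl⟩ := A_remove w _ x hg
    refine Set.mul_mem_mul (A_mono ?_ ha') he
    rintro y ⟨h1, h2⟩
    simp only [Finset.coe_insert, Set.mem_insert_iff, Set.mem_singleton_iff] at h1 h2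
    exact h1.resolve_left h2

theorem T_comm_Y (w : S.W) {c d : Fin N × Bool} (h : c ≠ d) {x : Fin N} (h1 : c.1 ≠ x)
    (h2 : d.1 ≠ x) (r : R) : Commute (S.T c d) (Y S x r) := by
  have e := w.conjX c d (x, false) (x, true) h (ne01 _ _) r
  rw [Equiv.swap_apply_of_ne_of_ne (fun e => h1 (by rw [← e])) (fun e => h2 (by rw [← e])),
    Equiv.swap_apply_of_ne_of_ne (fun e => h1 (by rw [← e])) (fun e => h2 (by rw [← e]))] at e
  have := congrArg (· * S.T c d) e
  simp only [mul_assoc, w.invol c d h, mul_one] at this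
  exact this

theorem K_comm_Y (w : S.W) {J : Set (Fin N × Bool)} {κ : G} (hκ : κ ∈ S.K J) {x : Fin N}
    (hx : ∀ c ∈ J, c.1 ≠ x) (r : R) : Commute κ (Y S x r) := by
  induction hκ using Subgroup.closure_induction with
  | mem g hg =>
    obtain ⟨c, hc, d, hd, h, rfl⟩ := hg
    exact T_comm_Y w h (hx c hc) (hx d hd) r
  | one => exact Commute.one_left _
  | mul _ _ _ _ h1 h2 => exact h1.mul_left h2
  | inv _ _ h => exact h.inv_left

theorem K_comm_A (w : S.W) {J : Finset (Fin N)} {κ a : G} (hκ : κ ∈ S.K {c | c.1 ∈ J})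
    (ha : a ∈ A S ρ {x | x ∉ J}) : Commute κ a := by
  induction ha using Subgroup.closure_induction with
  | mem g hg =>
    obtain ⟨x, hx, r, -, rfl⟩ := hg
    exact K_comm_Y w hκ (fun c (hc : c.1 ∈ J) e => hx (by rw [← e]; exact hc)) r
  | one => exact Commute.one_right _
  | mul _ _ _ _ h1 h2 => exact h1.mul_right h2
  | inv _ _ h => exact h.inv_right

theorem K_remove (w : S.W) (J : Set (Fin N × Bool)) (y : Fin N × Bool) {g : G} (hg : g ∈ S.K J) :
    ∃ g' ∈ S.K (J \ {y}), ∃ e ∈ TT S, g = g' * e := by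
  classical
  obtain ⟨g', h1, h2 | ⟨d, -, h2⟩⟩ := w.remove J y g hg
  · exact ⟨g', h1, 1, Finset.mem_insert_self _ _, by rw [h2, mul_one]⟩
  · exact ⟨g', h1, _, Finset.mem_insert_of_mem
      (Finset.mem_image.2 ⟨(y, d), Finset.mem_univ _, rfl⟩), h2⟩

theorem mem_EE {e1 e2 e3 : G} (h1 : e1 ∈ TT S) (h2 : e2 ∈ TT S) {x : Fin N}
    (h3 : e3 ∈ Ex S ρ x) : e1 * e2 * e3 ∈ EE S ρ := by
  classical
  exact Finset.mul_mem_mul (Finset.mul_mem_mul h1 h2)
    (Finset.mem_biUnion.2 ⟨x, Finset.mem_univ _, h3⟩)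

theorem one_TT : (1 : G) ∈ TT S := by
  classical
  exact Finset.mem_insert_self _ _

theorem card_EE : (EE S ρ).card ≤ (4 * N ^ 2 + 1) ^ 2 * (N * 2 ^ ρ.card) := by
  classical
  have h1 : (TT S).card ≤ 4 * N ^ 2 + 1 := by
    refine (Finset.card_insert_le _ _).trans (Nat.add_le_add_right ?_ 1)
    refine Finset.card_image_le.trans (le_of_eq ?_)
    simp only [Finset.card_univ, Fintype.card_prod, Fintype.card_fin, Fintype.card_bool]
    ring
  have h2 : (Finset.univ.biUnion (Ex S ρ)).card ≤ N * 2 ^ ρ.card := by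
    refine Finset.card_biUnion_le.trans ?_
    refine (Finset.sum_le_card_nsmul _ _ (2 ^ ρ.card) fun x _ => ?_).trans (by simp)
    exact Finset.card_image_le.trans (Finset.card_powerset _).le
  refine Finset.card_mul_le.trans (Nat.mul_le_mul (Finset.card_mul_le.trans ?_) h2)
  rw [sq]
  exact Nat.mul_le_mul h1 h1

/-- The potential. -/
def pot (π : Equiv.Perm (Fin N)) (J : Finset (Fin N)) : ℕ :=
  ∑ x, if x ∈ J then (π x).val else N - 1 - (π x).val

theorem pot_le (π : Equiv.Perm (Fin N)) (J : Finset (Fin N)) : pot π J ≤ N ^ 2 := by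
  refine (Finset.sum_le_card_nsmul _ _ N fun x _ => ?_).trans (by simp [sq])
  have := (π x).isLt
  split_ifs <;> omega

theorem pot_insert (π : Equiv.Perm (Fin N)) {J : Finset (Fin N)} {x : Fin N} (hx : x ∉ J) :
    pot π (insert x J) + (N - 1 - (π x).val) = pot π J + (π x).val := by
  unfold pot
  rw [← Finset.add_sum_erase _ _ (Finset.mem_univ x), ← Finset.add_sum_erase _ _ (Finset.mem_univ x),
    if_pos (Finset.mem_insert_self _ _), if_neg hx]
  have : ∑ y ∈ Finset.univ.erase x, (if y ∈ insert x J then (π y).val else N - 1 - (π y).val) =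
      ∑ y ∈ Finset.univ.erase x, (if y ∈ J then (π y).val else N - 1 - (π y).val) :=
    Finset.sum_congr rfl fun y hy => by
      simp only [Finset.mem_insert, Finset.ne_of_mem_erase hy, false_or]
  rw [this]
  omega

theorem pot_swap (π : Equiv.Perm (Fin N)) (J : Finset (Fin N)) {i j : Fin N}
    (h : j.val = i.val + 1) : pot (Equiv.swap i j * π) J ≤ pot π J + 2 := by
  have e : ∀ i : Fin N, ∑ x, (if π x = i then 1 else 0) = 1 := fun i => by
    rw [Equiv.sum_comp π fun y => if y = i then 1 else 0]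
    simp
  have : pot π J + 2 = ∑ x, ((if x ∈ J then (π x).val else N - 1 - (π x).val) +
      ((if π x = i then 1 else 0) + if π x = j then 1 else 0)) := by
    rw [Finset.sum_add_distrib, Finset.sum_add_distrib, e, e, pot]
  rw [this]
  refine Finset.sum_le_sum fun x _ => ?_
  rw [Equiv.Perm.mul_apply]
  have := j.isLt
  by_cases h1 : π x = i
  · rw [h1, Equiv.swap_apply_left]
    split_ifs <;> omega
  by_cases h2 : π x = j
  · rw [h2, Equiv.swap_apply_right]
    split_ifs <;> omega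
  · rw [Equiv.swap_apply_of_ne_of_ne h1 h2]
    omega

variable (S) in
/-- `β` acts on the system through the permutation `π` of the labels. -/
def Tr (β : G) (π : Equiv.Perm (Fin N)) : Prop :=
  β ∈ S.K Set.univ ∧ ∀ c d, c ≠ d → ∀ r,
    β * S.X c d r = S.X (π c.1, c.2) (π d.1, d.2) r * β

theorem Tr.T {β : G} {π : Equiv.Perm (Fin N)} (h : Tr S β π) {c d : Fin N × Bool} (hcd : c ≠ d) :
    β * S.T c d = S.T (π c.1, c.2) (π d.1, d.2) * β := by
  unfold St.T
  rw [← mul_assoc, ← mul_assoc, h.2 c d hcd, mul_assoc _ β, h.2 d c hcd.symm, ← mul_assoc,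
    mul_assoc _ β, h.2 c d hcd, ← mul_assoc]

variable (S ρ) in
/-- The state of the reading of a word. -/
def Sta (β : G) (π : Equiv.Perm (Fin N)) (J : Finset (Fin N)) (B : ℕ) (g : G) : Prop :=
  ∃ κ ∈ S.K {c | c.1 ∈ J}, ∃ a ∈ A S ρ {x | x ∉ J}, ∃ l : List G, (∀ x ∈ l, x ∈ EE S ρ) ∧
    g = β * κ * a * l.prod ∧ pot π J + (N - 3) * l.length ≤ B

variable {β g : G} {π : Equiv.Perm (Fin N)} {J : Finset (Fin N)} {B : ℕ}

theorem Sta.mono (h : Sta S ρ β π J B g) {B' : ℕ} (hB : B ≤ B') : Sta S ρ β π J B' g := by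
  obtain ⟨κ, h1, a, h2, l, h3, h4, h5⟩ := h
  exact ⟨κ, h1, a, h2, l, h3, h4, h5.trans hB⟩

theorem Sta.moveIn (hN : 4 ≤ N) (w : S.W) (h : Sta S ρ β π J B g) {x : Fin N} (hx : (π x).val ≤ 1) :
    Sta S ρ β π (insert x J) B g := by
  by_cases hJ : x ∈ J
  · rwa [Finset.insert_eq_of_mem hJ]
  obtain ⟨κ, h1, a, h2, l, h3, h4, h5⟩ := h
  obtain ⟨a', ha', e, he, rfl⟩ := A_remove w _ x h2
  have s1 : {c : Fin N × Bool | c.1 ∈ J} ⊆ {c | c.1 ∈ insert x J} := fun c hc =>
    Finset.mem_insert_of_mem (s := J) hc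
  have s2 : {y | y ∉ J} \ {x} ⊆ {y | y ∉ insert x J} := by
    rintro y ⟨y1, y2⟩ y3
    exact (Finset.mem_insert.1 y3).elim y2 y1
  have s3 : ∀ z ∈ e :: l, z ∈ EE S ρ := by
    intro z hz
    rcases List.mem_cons.1 hz with rfl | hz
    · have := mem_EE (S := S) one_TT one_TT he
      rwa [one_mul, one_mul] at this
    · exact h3 z hz
  have s4 : g = β * κ * a' * (e :: l).prod := by
    rw [h4, List.prod_cons]
    simp only [mul_assoc]
  have s5 : pot π (insert x J) + (N - 3) * (e :: l).length ≤ B := by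
    have := pot_insert π hJ
    rw [List.length_cons, mul_add]
    generalize (N - 3) * l.length = M at *
    generalize pot π (insert x J) = P at *
    generalize pot π J = P' at *
    omega
  exact ⟨κ, K_mono s1 h1, a', A_mono s2 ha', e :: l, s3, s4, s5⟩

theorem Sta.moveOut (w : S.W) (h : Sta S ρ β π J B g) {x : Fin N} (hx : (π x).val + 1 = N) :
    Sta S ρ β π (J.erase x) B g := by
  by_cases hJ : x ∈ J
  swap
  · rwa [Finset.erase_eq_of_notMem hJ]
  obtain ⟨κ, h1, a, h2, l, h3, h4, h5⟩ := h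
  obtain ⟨κ1, k1, e1, he1, rfl⟩ := K_remove w _ (x, false) h1
  obtain ⟨κ2, k2, e2, he2, rfl⟩ := K_remove w _ (x, true) k1
  have s0 : ({c : Fin N × Bool | c.1 ∈ J} \ {(x, false)}) \ {(x, true)} ⊆
      {c | c.1 ∈ J.erase x} := by
    rintro ⟨y, b⟩ ⟨⟨y1, y2⟩, y3⟩
    refine Finset.mem_erase.2 ⟨?_, y1⟩
    rintro rfl
    cases b
    · exact y2 rfl
    · exact y3 rfl
  have s1 : {c : Fin N × Bool | c.1 ∈ J.erase x} ⊆ {c | c.1 ∈ J} := fun c hc =>
    Finset.mem_of_mem_erase (s := J) hc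
  have s2 : {y | y ∉ J} ⊆ {y | y ∉ J.erase x} := fun y hy hy' => hy (Finset.mem_of_mem_erase hy')
  have k3 : κ2 ∈ S.K {c | c.1 ∈ J.erase x} := K_mono s0 k2
  have k4 : e2 * e1 ∈ S.K {c | c.1 ∈ J} := by
    have := mul_mem (inv_mem (K_mono s1 k3)) h1
    rwa [mul_assoc, inv_mul_cancel_left] at this
  have s3 : ∀ z ∈ (e2 * e1) :: l, z ∈ EE S ρ := by
    intro z hz
    rcases List.mem_cons.1 hz with rfl | hz
    · have := mem_EE (ρ := ρ) he2 he1 (one_Ex w x)
      rwa [mul_one] at this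
    · exact h3 z hz
  have s4 : g = β * κ2 * a * ((e2 * e1) :: l).prod := by
    rw [h4, List.prod_cons, ← mul_assoc _ (e2 * e1), mul_assoc (β * κ2) a,
      ← (K_comm_A w k4 h2).eq]
    simp only [mul_assoc]
  have s5 : pot π (J.erase x) + (N - 3) * ((e2 * e1) :: l).length ≤ B := by
    have := pot_insert π (Finset.notMem_erase x J)
    rw [Finset.insert_erase hJ] at this
    rw [List.length_cons, mul_add]
    generalize (N - 3) * l.length = M at *
    generalize pot π (J.erase x) = P at *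
    generalize pot π J = P' at *
    omega
  exact ⟨κ2, k3, a, A_mono s2 h2, (e2 * e1) :: l, s3, s4, s5⟩

theorem Sta.mulT (t : Tr S β π) (h : Sta S ρ β π J B g) {c d : Fin N × Bool} (hcd : c ≠ d)
    (hc : c.1 ∈ J) (hd : d.1 ∈ J) :
    Sta S ρ β π J B (S.T (π c.1, c.2) (π d.1, d.2) * g) := by
  obtain ⟨κ, h1, a, h2, l, h3, h4, h5⟩ := h
  refine ⟨S.T c d * κ, mul_mem (Subgroup.subset_closure ⟨c, hc, d, hd, hcd, rfl⟩) h1, a, h2, l, h3,
    ?_, h5⟩
  rw [h4, ← mul_assoc β, t.T hcd]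
  simp only [mul_assoc]

theorem Sta.mulY (w : S.W) (t : Tr S β π) (h : Sta S ρ β π J B g) {x : Fin N} (hx : x ∉ J) {r : R}
    (hr : r ∈ ρ) : Sta S ρ β π J B (Y S (π x) r * g) := by
  obtain ⟨κ, h1, a, h2, l, h3, h4, h5⟩ := h
  refine ⟨κ, h1, Y S x r * a, mul_mem (Subgroup.subset_closure ⟨x, hx, r, hr, rfl⟩) h2, l, h3,
    ?_, h5⟩
  have e1 : β * Y S x r = Y S (π x) r * β := t.2 _ _ (ne01 x x) r
  have e2 := (K_comm_Y w h1 (x := x) (fun c (hc : c.1 ∈ J) e => hx (by rw [← e]; exact hc)) r).eq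
  rw [h4, ← mul_assoc _ (Y S x r), mul_assoc β κ (Y S x r), e2, ← mul_assoc β, e1]
  simp only [mul_assoc]

theorem swap2 {i j : Fin N} (c : Fin N × Bool) :
    Equiv.swap (i, false) (j, false) (Equiv.swap (i, true) (j, true) c) =
      (Equiv.swap i j c.1, c.2) := by
  obtain ⟨x, b⟩ := c
  cases b <;> simp only [Equiv.swap_apply_def, Prod.mk.injEq] <;> split_ifs <;> simp_all

theorem T_X (w : S.W) {c d e f : Fin N × Bool} (h : c ≠ d) (h' : e ≠ f) (r : R) :
    S.T c d * S.X e f r = S.X (Equiv.swap c d e) (Equiv.swap c d f) r * S.T c d := by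
  rw [← w.conjX c d e f h h', mul_assoc, w.invol c d h, mul_one]

theorem Tr.mulB (w : S.W) (t : Tr S β π) {i j : Fin N} (h : i ≠ j) :
    Tr S (S.T (i, false) (j, false) * S.T (i, true) (j, true) * β) (Equiv.swap i j * π) := by
  have n0 : ((i, false) : Fin N × Bool) ≠ (j, false) := by simpa using h
  have n1 : ((i, true) : Fin N × Bool) ≠ (j, true) := by simpa using h
  refine ⟨mul_mem (mul_mem (Subgroup.subset_closure ⟨_, trivial, _, trivial, n0, rfl⟩)
    (Subgroup.subset_closure ⟨_, trivial, _, trivial, n1, rfl⟩)) t.1, fun c d hcd r => ?_⟩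
  have m : ((π c.1, c.2) : Fin N × Bool) ≠ (π d.1, d.2) := fun e => hcd (by
    rw [Prod.mk.injEq] at e
    exact Prod.ext (π.injective e.1) e.2)
  rw [mul_assoc, t.2 c d hcd, ← mul_assoc, mul_assoc (S.T _ _), T_X w n1 m, ← mul_assoc,
    T_X w n0 ((Equiv.injective _).ne m), swap2, swap2]
  simp only [mul_assoc, Equiv.Perm.mul_apply]

theorem Sta.mulB (h : Sta S ρ β π J B g) {i j : Fin N} (hij : j.val = i.val + 1) (b : G) :
    Sta S ρ (b * β) (Equiv.swap i j * π) J (B + 2) (b * g) := by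
  obtain ⟨κ, h1, a, h2, l, h3, h4, h5⟩ := h
  refine ⟨κ, h1, a, h2, l, h3, by rw [h4]; simp only [mul_assoc], ?_⟩
  have := pot_swap π J hij
  omega

theorem step (hN : 4 ≤ N) (w : S.W) (t : Tr S β π) (h : Sta S ρ β π J B g) {s : G} (hs : s ∈ S.gens ρ) :
    ∃ β' π' J', Tr S β' π' ∧ Sta S ρ β' π' J' (B + 2) (s * g) := by
  rcases hs with ⟨i, j, hij, rfl⟩ | ⟨i, hi, rfl⟩ | ⟨i, j, hi, hj, rfl⟩ | ⟨i, hi, r, hr, rfl⟩
  · exact ⟨_, _, J, t.mulB w (fun e => by rw [e] at hij; omega), h.mulB hij _⟩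
  · obtain ⟨x, rfl⟩ := π.surjective i
    exact ⟨β, π, _, t, ((h.moveIn hN w (x := x) (by omega)).mulT t (ne01 x x)
      (Finset.mem_insert_self _ _) (Finset.mem_insert_self _ _)).mono (by omega)⟩
  · obtain ⟨x, rfl⟩ := π.surjective i
    obtain ⟨y, rfl⟩ := π.surjective j
    have n : ((x, false) : Fin N × Bool) ≠ (y, false) := fun e => by
      rw [(Prod.mk.inj e).1] at hi
      omega
    exact ⟨β, π, _, t, (((h.moveIn hN w (x := x) (by omega)).moveIn hN w (x := y) (by omega)).mulT t n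
      (Finset.mem_insert_of_mem (Finset.mem_insert_self _ _))
      (Finset.mem_insert_self _ _)).mono (by omega)⟩
  · obtain ⟨x, rfl⟩ := π.surjective i
    exact ⟨β, π, _, t, ((h.moveOut w hi).mulY w t (Finset.notMem_erase x J) hr).mono (by omega)⟩

theorem gens_inv (w : S.W) {s : G} (hs : s ∈ S.gens ρ) : s⁻¹ = s := by
  refine inv_eq_of_mul_eq_one_right ?_
  rcases hs with ⟨i, j, hij, rfl⟩ | ⟨i, hi, rfl⟩ | ⟨i, j, hi, hj, rfl⟩ | ⟨i, hi, r, hr, rfl⟩
  · have h : i ≠ j := fun e => by rw [e] at hij; omega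
    have n0 : ((i, false) : Fin N × Bool) ≠ (j, false) := by simpa using h
    have n1 : ((i, true) : Fin N × Bool) ≠ (j, true) := by simpa using h
    have e := w.conjT _ _ _ _ n0 n1
    rw [Equiv.swap_apply_of_ne_of_ne (ne01 _ _).symm (ne01 _ _).symm,
      Equiv.swap_apply_of_ne_of_ne (ne01 _ _).symm (ne01 _ _).symm] at e
    rw [← mul_assoc, e, w.invol _ _ n1]
  · exact w.invol _ _ (ne01 _ _)
  · refine w.invol _ _ fun e => ?_
    rw [(Prod.mk.inj e).1] at hi
    omega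
  · exact w.sq _ _ (ne01 _ _) r

theorem word (hN : 4 ≤ N) (w : S.W) (l : List G) (hl : ∀ x ∈ l, x ∈ S.gens ρ) :
    ∃ β π J, Tr S β π ∧ Sta S ρ β π J (2 * l.length + N ^ 2) l.prod := by
  induction l with
  | nil =>
    refine ⟨1, 1, ∅, ⟨one_mem _, fun c d _ r => by simp⟩, 1, one_mem _, 1, one_mem _, [],
      by simp, by simp, ?_⟩
    simpa using pot_le 1 ∅
  | cons s l ih =>
    obtain ⟨β, π, J, t, h⟩ := ih fun x hx => hl x (List.mem_cons_of_mem _ hx)
    obtain ⟨β', π', J', t', h'⟩ := step hN w t h (hl s List.mem_cons_self)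
    exact ⟨β', π', J', t', by
      rw [List.prod_cons]
      exact h'.mono (by rw [List.length_cons]; omega)⟩

end Invx

open Invx in
theorem inv_main : SpInv := by
  intro N R G _ _ S ρ Q hN w hQ
  have hF := (w.fin.mul w.fin).mul (A_fin (ρ := ρ) w Finset.univ)
  refine ⟨hF.toFinset, EE S ρ, ?_, card_EE, ?_⟩
  · have := mem_EE (ρ := ρ) one_TT one_TT (one_Ex w ⟨0, by omega⟩)
    rwa [one_mul, one_mul] at this
  rintro k _ ⟨l, hk, hl, rfl⟩
  have hl' : ∀ x ∈ l, x ∈ S.gens ρ := fun x hx => by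
    rcases hl x hx with h | h
    · rw [← hQ]; exact h
    · have h' : x⁻¹ ∈ S.gens ρ := by rw [← hQ]; exact h
      rwa [← gens_inv w h', inv_inv] at h'
  obtain ⟨β, π, J, t, κ, h1, a, h2, l', h3, h4, h5⟩ := word hN w l hl'
  refine ⟨β * κ * a, hF.mem_toFinset.2 (Set.mul_mem_mul (Set.mul_mem_mul t.1
    (K_mono (Set.subset_univ _) h1)) (A_mono (by simp) h2)), l', h3, by omega, h4⟩

end Pool.Agent.MP_89edc2_al.K76
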