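import Pool.Agent.MP_89edc2_al.K76.Spec

/-!
# The matrix representation
-/

namespace Pool.Agent.MP_89edc2_al.K76

open scoped commutatorElement

namespace Matx

open Matrix

variable {R : Type} [Ring R]

/-- Square matrices of size five. -/
abbrev Mt (R : Type) : Type := Matrix (Fin 5) (Fin 5) R

theorem em {i j : Fin 5} (h : i ≠ j) (r s : R) :
    (1 + single i j r : Mt R) * (1 + single i j s) = 1 + single i j (r + s) := by
  rw [mul_add, add_mul, add_mul, single_mul_single_of_ne _ _ _ _ h.symm, single_add]
  simp only [one_mul, mul_one, add_zero, add_assoc]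

/-- Elementary matrices. -/
def el (i j : Fin 5) (r : R) : (Mt R)ˣ :=
  if h : i ≠ j then ⟨1 + single i j r, 1 + single i j (-r), by simp [em h], by simp [em h]⟩ else 1

theorem el_val {i j : Fin 5} (h : i ≠ j) (r : R) : (el i j r : Mt R) = 1 + single i j r := by
  rw [el, dif_pos h]

/-- The elementary group. -/
def EG (R : Type) [Ring R] : Subgroup (Mt R)ˣ :=
  Subgroup.closure {g | ∃ i j r, i ≠ j ∧ g = el i j r}

theorem el_mem (i j : Fin 5) (r : R) : el i j r ∈ EG R := by
  by_cases h : i ≠ j
  · exact Subgroup.subset_closure ⟨i, j, r, h, rfl⟩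
  · rw [el, dif_neg h]
    exact one_mem _

/-- The Steinberg system of elementary matrices. -/
def st (R : Type) [Ring R] : St (Fin 5) R (EG R) where
  X i j r := ⟨el i j r, el_mem i j r⟩
  add i j h r s := Subtype.ext (Units.ext (by
    simp only [Subgroup.coe_mul, Units.val_mul, el_val h, em h]))
  comm i j k l h h' a b r s := Subtype.ext (Units.ext (by
    simp only [Subgroup.coe_mul, Units.val_mul, el_val h, el_val h', mul_add, add_mul, one_mul,
      mul_one, single_mul_single_of_ne _ _ _ _ a, single_mul_single_of_ne _ _ _ _ b.symm]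
    abel))
  mul i j k h h' a r s := by
    rw [commutatorElement_def, mul_inv_eq_iff_eq_mul, mul_inv_eq_iff_eq_mul]
    refine Subtype.ext (Units.ext ?_)
    simp only [Subgroup.coe_mul, Units.val_mul, el_val h, el_val h', el_val a, mul_add, add_mul,
      one_mul, mul_one, single_mul_single_same, single_mul_single_of_ne _ _ _ _ a.symm,
      single_mul_single_of_ne _ _ _ _ h'.symm, zero_mul]
    abel

theorem gen : (st R).Gen := by
  refine Eq.trans (congrArg _ ?_) Subgroup.closure_closure_coe_preimage
  ext g
  exact exists₃_congr fun i j r => and_congr_right fun _ => Subtype.ext_iff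

/-- A block of size two. -/
def B (a b c d : R) : Mt R :=
  !![a, b, 0, 0, 0; c, d, 0, 0, 0; 0, 0, 1, 0, 0; 0, 0, 0, 1, 0; 0, 0, 0, 0, 1]

theorem B_mul (a b c d a' b' c' d' : R) : B a b c d * B a' b' c' d' =
    B (a * a' + b * c') (a * b' + b * d') (c * a' + d * c') (c * b' + d * d') := by
  ext i j
  fin_cases i <;> fin_cases j <;> simp [B, mul_apply, Fin.sum_univ_five]

theorem B_one : B 1 0 0 1 = (1 : Mt R) := by
  ext i j
  fin_cases i <;> fin_cases j <;> simp [B]

theorem B_up (r : R) : (el 0 1 r : Mt R) = B 1 r 0 1 := by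
  rw [el_val (by decide)]
  ext i j
  fin_cases i <;> fin_cases j <;> simp [B]

theorem B_dn (r : R) : (el 1 0 r : Mt R) = B 1 0 r 1 := by
  rw [el_val (by decide)]
  ext i j
  fin_cases i <;> fin_cases j <;> simp [B]

theorem B_inj {a b c d a' b' c' d' : R} (h : B a b c d = B a' b' c' d') : a = a' :=
  congrFun (congrFun h 0) 0

/-- The Weyl element. -/
def w (a b : R) : (Mt R)ˣ := el 0 1 a * el 1 0 b * el 0 1 a

theorem w_mem (a b : R) : w a b ∈ EG R :=
  mul_mem (mul_mem (el_mem _ _ _) (el_mem _ _ _)) (el_mem _ _ _)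

theorem w_val (h2 : ∀ r : R, r + r = 0) {a b : R} (h : b * a = 1) :
    (w a b : Mt R) = B (1 + a * b) a b 0 := by
  simp [w, B_up, B_dn, B_mul, mul_assoc, h, h2]

end Matx

open Matx

theorem mat_main : SpMat := by
  rintro H R _ _ _ s t η h2 ⟨h, h1⟩ hη hc
  have ts : ∀ e, t e * s e = 1 := fun e => by simp [h]
  have t0 : t false * s true = 0 := by simp [h]
  have t1 : t true * s false = 0 := by simp [h]
  have ts' : ∀ e x, t e * (s e * x) = x := fun e x => by rw [← mul_assoc, ts, one_mul]
  have t0' : ∀ x, t false * (s true * x) = 0 := fun x => by rw [← mul_assoc, t0, zero_mul]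
  have t1' : ∀ x, t true * (s false * x) = 0 := fun x => by rw [← mul_assoc, t1, zero_mul]
  have h3 : 1 + s true * t true = s false * t false := by rw [← h1, add_assoc, h2, add_zero]
  let d₀ : H →* Mt R :=
    { toFun := fun a => B (s false * (η a * t false) + s true * t true) 0 0 1
      map_one' := by simp [h1, B_one]
      map_mul' := fun a b => by
        simp [B_mul, add_mul, mul_add, mul_assoc, ts', t0', t1'] }
  have mem : ∀ a, d₀.toHomUnits a ∈ EG R := fun a => by
    have e : d₀.toHomUnits a *
        (w (s true * η a) (↑(η a)⁻¹ * t true) * w (s true) (t true)) =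
        w (η a : R) ↑(η a)⁻¹ * w 1 1 := by
      refine Units.ext ?_
      have e1 : s true * η a * (↑(η a)⁻¹ * t true) = s true * t true := by simp [mul_assoc]
      have e2 : s false * (η a * t false) + s true * (η a * t true) = η a := by
        rw [← mul_assoc, ← mul_assoc, ← (hc a _).1, ← (hc a _).1, mul_assoc, mul_assoc, ← mul_add,
          h1, mul_one]
      rw [Units.val_mul, Units.val_mul, Units.val_mul, w_val h2 (by simp [mul_assoc, ts']),
        w_val h2 (ts true), w_val h2 (η a).inv_mul, w_val h2 (mul_one 1), e1, h3]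
      simp [d₀, B_mul, add_mul, mul_add, mul_assoc, ts, t0, ts', t0', t1', h2, e2]
    rw [eq_mul_inv_of_mul_eq e]
    exact mul_mem (mul_mem (w_mem _ _) (w_mem _ _)) (inv_mem (mul_mem (w_mem _ _) (w_mem _ _)))
  let g : Bool → EG R := fun e =>
    (st R).X 1 0 1 * (st R).X 0 1 1 * ((st R).X 0 1 (t e) * (st R).X 1 0 (s e))
  have gv : ∀ e, ((g e : (Mt R)ˣ) : Mt R) = B (s e) (t e + 1) 0 (t e) := fun e => by
    simp [g, st, B_up, B_dn, B_mul, ts, h2]
  have gl : ∀ l : List Bool, ∃ b d, (((l.map g).prod : (Mt R)ˣ) : Mt R) =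
      B (l.map s).prod b 0 d := fun l => by
    induction l with
    | nil => exact ⟨0, 1, B_one.symm⟩
    | cons e l ih =>
      obtain ⟨b, d, k⟩ := ih
      refine ⟨s e * b + (t e + 1) * d, t e * d, ?_⟩
      rw [List.map_cons, List.prod_cons, Subgroup.coe_mul, Units.val_mul, gv, k, B_mul]
      simp
  have ne : ∀ l : List Bool, (l.map s).prod ≠ 0 := fun l => by
    induction l with
    | nil => simp
    | cons e l ih =>
      intro k
      rw [List.map_cons, List.prod_cons] at k
      exact ih (by rw [← ts' e (l.map s).prod, k, mul_zero])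
  have inj : ∀ l l' : List Bool, l.length = l'.length → (l.map s).prod = (l'.map s).prod →
      l = l' := fun l => by
    induction l with
    | nil => exact fun l' k _ => (List.length_eq_zero_iff.1 k.symm).symm
    | cons e l ih =>
      rintro (_ | ⟨e', l'⟩) k k'
      · simp at k
      · have k2 := congrArg (t e * ·) k'
        simp only [List.map_cons, List.prod_cons, ← mul_assoc, h, if_true, one_mul] at k2
        split_ifs at k2 with c
        · rw [c, ih l' (by simpa using k) (by simpa using k2)]
        · exact absurd (by simpa using k2) (ne l)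
  refine ⟨EG R, inferInstance, st R, d₀.toHomUnits.codRestrict _ mem, g, gen, fun a b k => ?_,
    fun l l' k k' => inj l l' k ?_⟩
  · have e := congrArg (fun x => t false * (x * s false))
      (B_inj (congrArg (fun x : EG R => ((x : (Mt R)ˣ) : Mt R)) k))
    exact hη (Units.ext (by simpa [add_mul, mul_add, mul_assoc, ts, ts', t1] using e))
  · obtain ⟨b, d, e⟩ := gl l
    obtain ⟨b', d', e'⟩ := gl l'
    exact B_inj (by rw [← e, ← e', k'])

end Pool.Agent.MP_89edc2_al.K76
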