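import Pool.Agent.MP_89edc2_al.K76.Spec

/-!
# Row RING: the finitely presented ring with Leavitt elements and a commuting copy of the group
-/

namespace Pool.Agent.MP_89edc2_al.K76

open scoped commutatorElement

namespace Rngx

/-- The letters. -/
abbrev Le (F : Type) (n : ℕ) : Type := F ⊕ (Bool × Bool) ⊕ (Fin n × Bool)

/-- The indices of the relations. -/
abbrev Ix (F : Type) (n : ℕ) (S : Set (FreeGroup (Fin n))) : Type :=
  (F × F) ⊕ (F × F) ⊕ Unit ⊕ (F × Le F n) ⊕ (Bool × Bool) ⊕ Unit ⊕ (Fin n × Bool) ⊕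
    ((Fin n × Bool) × (Bool × Bool)) ⊕ S

variable {F : Type} [Field F] {n : ℕ}

/-- The value of a group word. -/
noncomputable def word {R : Type} [Ring R] (v : Le F n → R) (w : FreeGroup (Fin n)) : R :=
  (w.toWord.map fun q => v (.inr (.inr q))).prod

/-- The relations. -/
noncomputable def rel {R : Type} [Ring R] (S : Set (FreeGroup (Fin n))) (v : Le F n → R) :
    Ix F n S → R
  | .inl q => v (.inl (q.1 + q.2)) - (v (.inl q.1) + v (.inl q.2))
  | .inr (.inl q) => v (.inl (q.1 * q.2)) - v (.inl q.1) * v (.inl q.2)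
  | .inr (.inr (.inl _)) => v (.inl 1) - 1
  | .inr (.inr (.inr (.inl q))) => v (.inl q.1) * v q.2 - v q.2 * v (.inl q.1)
  | .inr (.inr (.inr (.inr (.inl q)))) =>
      v (.inr (.inl (true, q.1))) * v (.inr (.inl (false, q.2))) - if q.1 = q.2 then 1 else 0
  | .inr (.inr (.inr (.inr (.inr (.inl _))))) =>
      v (.inr (.inl (false, false))) * v (.inr (.inl (true, false))) +
        v (.inr (.inl (false, true))) * v (.inr (.inl (true, true))) - 1
  | .inr (.inr (.inr (.inr (.inr (.inr (.inl q)))))) =>
      v (.inr (.inr (q.1, q.2))) * v (.inr (.inr (q.1, !q.2))) - 1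
  | .inr (.inr (.inr (.inr (.inr (.inr (.inr (.inl q))))))) =>
      v (.inr (.inr q.1)) * v (.inr (.inl q.2)) - v (.inr (.inl q.2)) * v (.inr (.inr q.1))
  | .inr (.inr (.inr (.inr (.inr (.inr (.inr (.inr w))))))) => word v w.1 - 1

omit [Field F] in
theorem map_word {R R' : Type} [Ring R] [Ring R'] (f : R →+* R') (v : Le F n → R)
    (w : FreeGroup (Fin n)) : f (word v w) = word (fun a => f (v a)) w := by
  rw [word, map_list_prod, List.map_map]
  rfl

theorem map_rel {R R' : Type} [Ring R] [Ring R'] (f : R →+* R') (S : Set (FreeGroup (Fin n)))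
    (v : Le F n → R) (j : Ix F n S) : f (rel S v j) = rel S (fun a => f (v a)) j := by
  rcases j with q | q | q | q | q | q | q | q | q <;>
    simp only [rel, map_sub, map_add, map_mul, map_one, map_word, apply_ite f, map_zero]

theorem mk_eq (L : List (Fin n × Bool)) : FreeGroup.mk L =
    (L.map fun q => cond q.2 (FreeGroup.of q.1) (FreeGroup.of q.1)⁻¹).prod := by
  induction L with
  | nil => rfl
  | cons q L ih =>
    rw [List.map_cons, List.prod_cons, ← ih]
    obtain ⟨i, _ | _⟩ := q <;> rfl

omit [Field F] in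
theorem word_eq {R : Type} [Ring R] (v : Le F n → R) (χ : FreeGroup (Fin n) →* R)
    (h : ∀ q : Fin n × Bool,
      v (.inr (.inr q)) = χ (cond q.2 (FreeGroup.of q.1) (FreeGroup.of q.1)⁻¹))
    (w : FreeGroup (Fin n)) : word v w = χ w := by
  conv_rhs => rw [← FreeGroup.mk_toWord (x := w), mk_eq, map_list_prod, List.map_map]
  rw [word]
  exact congrArg List.prod (List.map_congr_left fun q _ => h q)

section Model

variable (F) (H : Type) [Group H]

/-- The model ring. -/
abbrev Md : Type := Module.End F (Stream' Bool × H → F)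

/-- The action of the group. -/
def rho : H →* Md F H where
  toFun h := LinearMap.funLeft F F fun z => (z.1, h⁻¹ * z.2)
  map_one' := by
    ext f z
    simp [LinearMap.funLeft_apply]
  map_mul' h h' := by
    ext f z
    simp [LinearMap.funLeft_apply, mul_assoc]

theorem rho_apply (h : H) (f : Stream' Bool × H → F) (z : Stream' Bool × H) :
    rho F H h f z = f (z.1, h⁻¹ * z.2) := rfl

theorem rho_injective : Function.Injective (rho F H) := by
  classical
  intro h h' e
  have h1 := congrArg (fun m : Md F H => m (fun z => if z.2 = 1 then 1 else 0) (default, h)) e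
  simp only [rho_apply, inv_mul_cancel, if_true] at h1
  by_contra hne
  rw [if_neg fun h2 => hne (inv_mul_eq_one.1 h2).symm] at h1
  exact one_ne_zero h1

/-- The element `s`. -/
def sM (e : Bool) : Md F H where
  toFun f z := if z.1.head = e then f (z.1.tail, z.2) else 0
  map_add' f g := by
    funext z
    simp only [Pi.add_apply]
    split_ifs <;> simp
  map_smul' c f := by
    funext z
    simp only [Pi.smul_apply, RingHom.id_apply]
    split_ifs <;> simp

/-- The element `t`. -/
def tM (e : Bool) : Md F H := LinearMap.funLeft F F fun z => (Stream'.cons e z.1, z.2)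

omit [Group H] in
theorem sM_apply (e : Bool) (f : Stream' Bool × H → F) (z : Stream' Bool × H) :
    sM F H e f z = if z.1.head = e then f (z.1.tail, z.2) else 0 := rfl

omit [Group H] in
theorem tM_apply (e : Bool) (f : Stream' Bool × H → F) (z : Stream' Bool × H) :
    tM F H e f z = f (Stream'.cons e z.1, z.2) := rfl

omit [Group H] in
theorem lea_model : Lea (sM F H) (tM F H) := by
  refine ⟨fun e d => ?_, ?_⟩
  · refine LinearMap.ext fun f => funext fun z => ?_
    rw [Module.End.mul_apply, tM_apply, sM_apply]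
    by_cases h : e = d <;> simp [h]
  · refine LinearMap.ext fun f => funext fun z => ?_
    obtain ⟨w, g⟩ := z
    simp only [LinearMap.add_apply, Module.End.mul_apply, Pi.add_apply, sM_apply, tM_apply,
      Module.End.one_apply]
    have h := Stream'.eta w
    cases hw : w.head <;> rw [hw] at h <;> simp [h]

variable {H}

/-- The values of the letters in the model. -/
noncomputable def vM (φ : FreeGroup (Fin n) →* H) : Le F n → Md F H
  | .inl x => algebraMap F _ x
  | .inr (.inl q) => cond q.1 (tM F H q.2) (sM F H q.2)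
  | .inr (.inr q) => rho F H (φ (cond q.2 (FreeGroup.of q.1) (FreeGroup.of q.1)⁻¹))

theorem word_vM (φ : FreeGroup (Fin n) →* H) (w : FreeGroup (Fin n)) :
    word (vM F φ) w = rho F H (φ w) :=
  word_eq (vM F φ) ((rho F H).comp φ) (fun _ => rfl) w

theorem rel_vM (φ : FreeGroup (Fin n) →* H) (S : Set (FreeGroup (Fin n)))
    (hS : ∀ w ∈ S, φ w = 1) (j : Ix F n S) : rel S (vM F φ) j = 0 := by
  rcases j with q | q | q | q | q | q | q | q | q <;> simp only [rel, sub_eq_zero]
  · exact map_add (algebraMap F (Md F H)) _ _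
  · exact map_mul (algebraMap F (Md F H)) _ _
  · exact map_one (algebraMap F (Md F H))
  · exact Algebra.commutes _ _
  · exact (lea_model F H).1 q.1 q.2
  · exact (lea_model F H).2
  · obtain ⟨i, _ | _⟩ := q <;> simp [vM, ← map_mul]
  · obtain ⟨q, _ | _, e⟩ := q
    · exact LinearMap.ext fun f => funext fun z => rfl
    · exact LinearMap.ext fun f => funext fun z => rfl
  · rw [word_vM, hS _ q.2, map_one]

end Model

end Rngx

open Rngx

theorem ring_main : SpRing := by
  intro H _ hH F _ _ _
  classical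
  obtain ⟨n, φ, hφ, S, hSfin, hS⟩ := hH.out
  have : Finite S := hSfin
  have hS1 : ∀ w ∈ S, φ w = 1 := fun w hw => by
    have : w ∈ φ.ker := hS ▸ Subgroup.subset_normalClosure hw
    exact this
  have hTfin : (Set.range (rel S (FreeRing.of : Le F n → FreeRing (Le F n)))).Finite :=
    Set.finite_range _
  set I := TwoSidedIdeal.span (Set.range (rel S (FreeRing.of : Le F n → FreeRing (Le F n))))
    with hI
  let ev := I.ringCon.mk'
  have hev : ∀ x, ev x = 0 ↔ x ∈ I := fun x => by
    rw [← TwoSidedIdeal.mem_ker, TwoSidedIdeal.ker_ringCon_mk']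
  let v : Le F n → I.ringCon.Quotient := fun a => ev (FreeRing.of a)
  have hv : ∀ j, rel S v j = 0 := fun j => by
    rw [← Rngx.map_rel, hev]
    exact TwoSidedIdeal.subset_span ⟨j, rfl⟩
  have hle : I.ringCon ≤ RingCon.ker (FreeRing.lift (vM F φ)) := by
    have h1 : I ≤ TwoSidedIdeal.ker (FreeRing.lift (vM F φ)) := by
      rw [hI, TwoSidedIdeal.span_le]
      rintro _ ⟨j, rfl⟩
      rw [SetLike.mem_coe, TwoSidedIdeal.mem_ker, Rngx.map_rel]
      simp only [FreeRing.lift_of]
      exact rel_vM F φ S hS1 j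
    exact fun x y h => (TwoSidedIdeal.ringCon_le_iff.1 h1) h
  let Φ := I.ringCon.lift (FreeRing.lift (vM F φ)) hle
  have hΦ : ∀ a, Φ (v a) = vM F φ a := fun a => by
    simp only [Φ, v, ev, RingCon.lift_mk', FreeRing.lift_of]
  have hadd : ∀ x y, v (.inl (x + y)) = v (.inl x) + v (.inl y) := fun x y =>
    sub_eq_zero.1 (hv (.inl (x, y)))
  let ι : F →+* I.ringCon.Quotient :=
    { toFun := fun x => v (.inl x)
      map_one' := sub_eq_zero.1 (hv (.inr (.inr (.inl ()))))
      map_mul' := fun x y => sub_eq_zero.1 (hv (.inr (.inl (x, y))))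
      map_zero' := by simpa using hadd 0 0
      map_add' := hadd }
  have hinv : ∀ i b, v (.inr (.inr (i, b))) * v (.inr (.inr (i, !b))) = 1 := fun i b =>
    sub_eq_zero.1 (hv (.inr (.inr (.inr (.inr (.inr (.inr (.inl (i, b)))))))))
  let u : Fin n → (I.ringCon.Quotient)ˣ := fun i =>
    ⟨v (.inr (.inr (i, true))), v (.inr (.inr (i, false))), hinv i true, hinv i false⟩
  let ψ : FreeGroup (Fin n) →* (I.ringCon.Quotient)ˣ := FreeGroup.lift u
  have hψ : ∀ w, word v w = (ψ w : I.ringCon.Quotient) := by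
    refine word_eq v ((Units.coeHom _).comp ψ) ?_
    rintro ⟨i, _ | _⟩ <;> simp [ψ, u]
  have hker : φ.ker ≤ ψ.ker := by
    rw [← hS]
    refine Subgroup.normalClosure_le_normal fun w hw => ?_
    rw [SetLike.mem_coe, MonoidHom.mem_ker, ← Units.val_eq_one, ← hψ]
    exact sub_eq_zero.1 (hv (.inr (.inr (.inr (.inr (.inr (.inr (.inr (.inr ⟨w, hw⟩)))))))))
  let η : H →* (I.ringCon.Quotient)ˣ :=
    φ.liftOfRightInverse (Function.surjInv hφ) (Function.rightInverse_surjInv hφ) ⟨ψ, hker⟩
  have hη : ∀ w, η (φ w) = ψ w := fun w => MonoidHom.liftOfRightInverse_comp_apply _ _ _ _ _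
  have hΦη : ∀ h, Φ (η h) = rho F H h := fun h => by
    obtain ⟨w, rfl⟩ := hφ h
    rw [hη, ← hψ, map_word, ← word_vM]
    simp only [hΦ]
  have hcomm : ∀ h q, Commute (η h : I.ringCon.Quotient) (v (.inr (.inl q))) := fun h q => by
    obtain ⟨w, rfl⟩ := hφ h
    rw [hη, ← hψ, word]
    refine Commute.list_prod_left _ _ fun x hx => ?_
    obtain ⟨q', -, rfl⟩ := List.mem_map.1 hx
    exact sub_eq_zero.1 (hv (.inr (.inr (.inr (.inr (.inr (.inr (.inr (.inl (q', q))))))))))
  refine ⟨I.ringCon.Quotient, inferInstance, ι, fun e => v (.inr (.inl (false, e))),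
    fun e => v (.inr (.inl (true, e))), η, ⟨Le F n, inferInstance, ev, hTfin.toFinset,
      I.ringCon.mk'_surjective, fun x => by rw [hev, Set.Finite.coe_toFinset]⟩,
    Φ.domain_nontrivial, fun x r => ?_, ⟨fun e d => ?_, ?_⟩, fun h h' e => ?_,
    fun h e => ⟨hcomm h _, hcomm h _⟩⟩
  · obtain ⟨y, rfl⟩ := I.ringCon.mk'_surjective r
    induction y using FreeRing.induction_on with
    | hn1 => simp
    | hb a => exact sub_eq_zero.1 (hv (.inr (.inr (.inr (.inl (x, a))))))
    | ha a b ha hb => rw [map_add, mul_add, add_mul, ha, hb]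
    | hm a b ha hb => rw [map_mul, ← mul_assoc, ha, mul_assoc, hb, mul_assoc]
  · exact sub_eq_zero.1 (hv (.inr (.inr (.inr (.inr (.inl (e, d)))))))
  · exact sub_eq_zero.1 (hv (.inr (.inr (.inr (.inr (.inr (.inl ())))))))
  · exact rho_injective F H (by rw [← hΦη, ← hΦη, e])

end Pool.Agent.MP_89edc2_al.K76
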