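import Mathlib

/-!
# Finitely presented Kazhdan groups of non-uniform exponential growth: statements of the steps
-/

universe u

namespace Pool.Agent.MP_89edc2_al.K76

open scoped commutatorElement

/-- A Steinberg system over the ring `R` with index set `I` in the group `G`. -/
structure St (I R G : Type) [Ring R] [Group G] where
  X : I → I → R → G
  add : ∀ i j, i ≠ j → ∀ r s, X i j (r + s) = X i j r * X i j s
  comm : ∀ i j k l, i ≠ j → k ≠ l → j ≠ k → i ≠ l → ∀ r s, Commute (X i j r) (X k l s)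
  mul : ∀ i j k, i ≠ j → j ≠ k → i ≠ k → ∀ r s, ⁅X i j r, X j k s⁆ = X i k (r * s)

section
variable {I R G : Type} [Ring R] [Group G]

/-- The system generates the group. -/
def St.Gen (S : St I R G) : Prop :=
  Subgroup.closure {g | ∃ i j r, i ≠ j ∧ g = S.X i j r} = ⊤

/-- The system is universal. -/
def St.Univ (S : St I R G) : Prop :=
  ∀ (G' : Type) [Group G'] (S' : St I R G'),
    ∃ φ : G →* G', ∀ i j r, i ≠ j → φ (S.X i j r) = S'.X i j r

/-- The transposition element. -/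
def St.T (S : St I R G) (c d : I) : G := S.X c d 1 * S.X d c 1 * S.X c d 1

/-- The group generated by the transpositions inside `J`. -/
def St.K (S : St I R G) (J : Set I) : Subgroup G :=
  Subgroup.closure {g | ∃ c ∈ J, ∃ d ∈ J, c ≠ d ∧ g = S.T c d}

/-- The facts on transpositions. -/
structure St.W [DecidableEq I] (S : St I R G) : Prop where
  zero : ∀ c d, c ≠ d → S.X c d 0 = 1
  sq : ∀ c d, c ≠ d → ∀ r, S.X c d r * S.X c d r = 1
  invol : ∀ c d, c ≠ d → S.T c d * S.T c d = 1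
  symm : ∀ c d, c ≠ d → S.T c d = S.T d c
  conjX : ∀ c d e f, c ≠ d → e ≠ f → ∀ r,
    S.T c d * S.X e f r * S.T c d = S.X (Equiv.swap c d e) (Equiv.swap c d f) r
  conjT : ∀ c d e f, c ≠ d → e ≠ f →
    S.T c d * S.T e f * S.T c d = S.T (Equiv.swap c d e) (Equiv.swap c d f)
  remove : ∀ (J : Set I) (y : I), ∀ g ∈ S.K J, ∃ g' ∈ S.K (J \ {y}),
    g = g' ∨ ∃ d, d ≠ y ∧ g = g' * S.T y d
  fin : (S.K Set.univ : Set G).Finite

/-- The generating set with small growth. -/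
def St.gens {N : ℕ} (S : St (Fin N × Bool) R G) (ρ : Finset R) : Set G :=
  {g | (∃ i j : Fin N, j.val = i.val + 1 ∧
        g = S.T (i, false) (j, false) * S.T (i, true) (j, true)) ∨
      (∃ i : Fin N, i.val = 0 ∧ g = S.T (i, false) (i, true)) ∨
      (∃ i j : Fin N, i.val = 0 ∧ j.val = 1 ∧ g = S.T (i, false) (j, false)) ∨
      ∃ i : Fin N, i.val + 1 = N ∧ ∃ r ∈ ρ, g = S.X (i, false) (i, true) r}

/-- The ball of radius `k`. -/
def ball (S : Finset G) (k : ℕ) : Set G :=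
  {g : G | ∃ l : List G, l.length ≤ k ∧ (∀ x ∈ l, x ∈ S ∨ x⁻¹ ∈ S) ∧ l.prod = g}

/-- Balls are covered by a finite set times short products from a small set. -/
def Slow (S : Finset G) (N m : ℕ) : Prop :=
  ∃ F E : Finset G, 1 ∈ E ∧ E.card ≤ (4 * N ^ 2 + 1) ^ 2 * (N * 2 ^ m) ∧
    ∀ k : ℕ, ∀ g ∈ ball S k, ∃ f ∈ F, ∃ l : List G, (∀ x ∈ l, x ∈ E) ∧
      (N - 3) * l.length ≤ 2 * k + N ^ 2 ∧ g = f * l.prod

/-- Leavitt elements. -/
def Lea (s t : Bool → R) : Prop :=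
  (∀ e d, t e * s d = if e = d then 1 else 0) ∧ s false * t false + s true * t true = 1

end

/-- Finitely presented rings. -/
def FPRing (R : Type) [Ring R] : Prop :=
  ∃ (A : Type) (_ : Finite A) (ev : FreeRing A →+* R) (T : Finset (FreeRing A)),
    Function.Surjective ev ∧ ∀ x, ev x = 0 ↔ x ∈ TwoSidedIdeal.span (T : Set (FreeRing A))

/-- Property (T). -/
def Kaz (G : Type) [Group G] : Prop :=
  ∃ (Q : Finset G) (ε : ℝ), 0 < ε ∧ ∀ (E : Type u) [NormedAddCommGroup E] [InnerProductSpace ℂ E]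
    [CompleteSpace E] (π : G →* (E ≃ₗᵢ[ℂ] E)) (v : E), ‖v‖ = 1 → (∀ g ∈ Q, ‖π g v - v‖ < ε) →
    ∃ w : E, w ≠ 0 ∧ ∀ g, π g w = w

/-- The average of a vector over a finite family of group elements. -/
noncomputable def avg {G W : Type} [Group G] [Fintype W] {E : Type u} [NormedAddCommGroup E]
    [InnerProductSpace ℂ E] (π : G →* (E ≃ₗᵢ[ℂ] E)) (f : W → G) (v : E) : E :=
  (Fintype.card W : ℂ)⁻¹ • ∑ w, π (f w) v

/-- The angle inequality for two finite families. -/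
def Ang {G U W : Type} [Group G] [Fintype U] [Fintype W] (a : U → G) (c : W → G) : Prop :=
  ∀ (E : Type u) [NormedAddCommGroup E] [InnerProductSpace ℂ E] (π : G →* (E ≃ₗᵢ[ℂ] E)) (v : E),
    -(1 / 9 * (‖v - avg π a v‖ ^ 2 + ‖v - avg π c v‖ ^ 2)) ≤
      (inner ℂ (v - avg π a v) (v - avg π c v)).re

/-- Relations between word elements up to total degree `D`. -/
def Upto {A G : Type} [Group G] (X : Fin 5 → Fin 5 → List A → G) (D : ℕ) : Prop :=
  (∀ i j k l, i ≠ j → k ≠ l → j ≠ k → i ≠ l → ∀ m m' : List A, m.length + m'.length ≤ D →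
    Commute (X i j m) (X k l m')) ∧
  ∀ i j k, i ≠ j → j ≠ k → i ≠ k → ∀ m m' : List A, m.length + m'.length ≤ D →
    ⁅X i j m, X j k m'⁆ = X i k (m ++ m')

/-- Row STEP. -/
def SpStep : Prop := ∀ (A G : Type) [Group G] (X : Fin 5 → Fin 5 → List A → G),
  (∀ i j, i ≠ j → ∀ (a : A) (m : List A), 2 ≤ m.length →
    ∃ k, k ≠ i ∧ k ≠ j ∧ X i j (a :: m) = ⁅X i k [a], X k j m⁆) →
  Upto X 2 → ∀ D, Upto X D

/-- Row FPA (from STEP). -/
def SpFpa : Prop := ∀ (A : Type) [Finite A], ∃ (Γ : Type) (_ : Group Γ)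
  (S : St (Fin 5) (FreeRing A) Γ), Group.IsFinitelyPresented Γ ∧ S.Gen ∧ S.Univ

/-- Row FPB (from FPA). -/
def SpFpb : Prop := ∀ (R : Type) [Ring R], FPRing R → ∃ (Γ : Type) (_ : Group Γ)
  (S : St (Fin 5) R Γ), Group.IsFinitelyPresented Γ ∧ S.Gen ∧ S.Univ

/-- Row DBL. -/
def SpDbl : Prop := ∀ (I R G : Type) [Fintype I] [Ring R] [Group G] (S : St I R G)
  (s t : Bool → R), 5 ≤ Fintype.card I → (∀ r : R, r + r = 0) → Lea s t → S.Gen →
  ∃ S' : St (I × Bool) R G, S'.Gen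

/-- Row W. -/
def SpW : Prop := ∀ (I R G : Type) [Fintype I] [DecidableEq I] [Ring R] [Group G] (S : St I R G),
  3 ≤ Fintype.card I → (∀ r : R, r + r = 0) → S.W

/-- Row GEN. -/
def SpGen : Prop := ∀ (N : ℕ) (R G : Type) [Ring R] [Group G] (S : St (Fin N × Bool) R G)
  (ρ : Finset R), 2 ≤ N → (∀ r : R, r + r = 0) → S.W → S.Gen → 1 ∈ ρ →
  Subring.closure (ρ : Set R) = ⊤ → (S.gens ρ).Finite ∧ Subgroup.closure (S.gens ρ) = ⊤

/-- Row INV. -/
def SpInv : Prop := ∀ (N : ℕ) (R G : Type) [Ring R] [Group G] (S : St (Fin N × Bool) R G)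
  (ρ : Finset R) (Q : Finset G), 4 ≤ N → S.W → (Q : Set G) = S.gens ρ → Slow Q N ρ.card

/-- Row CNT. -/
def SpCnt : Prop := ∀ (G : Type) [Group G] (m : ℕ),
  (∀ N₀ : ℕ, ∃ N, N₀ ≤ N ∧ ∃ Q : Finset G, Subgroup.closure (Q : Set G) = ⊤ ∧ Slow Q N m) →
  ∀ c : ℝ, 1 < c → ∃ Q : Finset G, Subgroup.closure (Q : Set G) = ⊤ ∧
    ∃ k : ℕ, ((ball Q k).ncard : ℝ) < c ^ k

/-- Row TA: the spectral gap from the angles. -/
def SpTa : Prop := ∀ (G V : Type) [Group G] [AddCommGroup V] [Fintype V] (f : Fin 5 → V → G),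
  (∀ i x y, f i (x + y) = f i x * f i y) → Subgroup.closure {g | ∃ i x, g = f i x} = ⊤ →
  (∀ i j, i ≠ j → Ang.{u} (f i) (f j)) → Kaz.{u} G

/-- Row TB: the angle for a Heisenberg pair. -/
def SpTb : Prop := ∀ (G F W : Type) [Group G] [AddCommGroup F] [Fintype F] [AddCommGroup W]
  [Fintype W] (a : F → G) (c z : W → G) (μ : F → W → W), 1024 ≤ Fintype.card F →
  (∀ x y, a (x + y) = a x * a y) → (∀ x y, c (x + y) = c x * c y) →
  (∀ x y, z (x + y) = z x * z y) → (∀ x w, Commute (a x) (z w)) → (∀ w w', Commute (c w) (z w')) →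
  (∀ x, x ≠ 0 → Function.Bijective (μ x)) → (∀ x w, a x * c w = c w * a x * z (μ x w)) →
  Ang.{u} a c

/-- Row TC (from TA, TB). -/
def SpTc : Prop := ∀ (R G F : Type) [Ring R] [Group G] [Field F] [Fintype F]
  (S : St (Fin 5) R G) (ι : F →+* R) (ρ : Finset R), 1024 ≤ Fintype.card F →
  (∀ r : R, r + r = 0) → (∀ x r, ι x * r = r * ι x) → 1 ∈ ρ →
  Subring.closure (ρ : Set R) = ⊤ → S.Gen → Kaz.{u} G

/-- Row RING. -/
def SpRing : Prop := ∀ (H : Type) [Group H], Group.IsFinitelyPresented H →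
  ∀ (F : Type) [Field F] [Fintype F], (∀ x : F, x + x = 0) →
  ∃ (R : Type) (_ : Ring R) (ι : F →+* R) (s t : Bool → R) (η : H →* Rˣ),
    FPRing R ∧ Nontrivial R ∧ (∀ x r, ι x * r = r * ι x) ∧ Lea s t ∧ Function.Injective η ∧
    ∀ h e, (η h : R) * s e = s e * η h ∧ (η h : R) * t e = t e * η h

/-- Row MAT. -/
def SpMat : Prop := ∀ (H R : Type) [Group H] [Ring R] [Nontrivial R] (s t : Bool → R)
  (η : H →* Rˣ), (∀ r : R, r + r = 0) → Lea s t → Function.Injective η →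
  (∀ h e, (η h : R) * s e = s e * η h ∧ (η h : R) * t e = t e * η h) →
  ∃ (M : Type) (_ : Group M) (S : St (Fin 5) R M) (d : H →* M) (g : Bool → M),
    S.Gen ∧ Function.Injective d ∧ ∀ l l' : List Bool, l.length = l'.length →
      (l.map g).prod = (l'.map g).prod → l = l'

/-- Row EMB. -/
def SpEmb : Prop := ∀ (Γ H M : Type) [Group Γ] [Group H] [Group M] (π : Γ →* M) (d : H →* M),
  Group.IsFinitelyPresented Γ → Group.IsFinitelyPresented H → Function.Surjective π →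
  Function.Injective d → ∃ (G : Type) (_ : Group G) (κ : Γ →* G) (π' : G →* M) (e : H →* G),
    Group.IsFinitelyPresented G ∧ Function.Surjective κ ∧ Function.Surjective π' ∧
    Function.Injective e

/-- Row EXP. -/
def SpExp : Prop := ∀ (G M : Type) [Group G] [Group M] (π : G →* M) (g : Bool → M),
  Group.IsFinitelyPresented G → Function.Surjective π →
  (∀ l l' : List Bool, l.length = l'.length → (l.map g).prod = (l'.map g).prod → l = l') →
  ∃ Q : Finset G, Subgroup.closure (Q : Set G) = ⊤ ∧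
    ∃ c : ℝ, 1 < c ∧ ∀ k : ℕ, c ^ k ≤ ((ball Q k).ncard : ℝ)

end Pool.Agent.MP_89edc2_al.K76
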