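import Pool.Agent.MP_89edc2_al.K76.Spec

/-!
The Steinberg relations between word elements follow from those of total degree at most two.
-/

namespace Pool.Agent.MP_89edc2_al.K76

open scoped commutatorElement

namespace Stepx

variable {A G : Type} [Group G] {X : Fin 5 → Fin 5 → List A → G} {D : ℕ}

theorem fifth : ∀ i j k l : Fin 5, ∃ h, h ≠ i ∧ h ≠ j ∧ h ≠ k ∧ h ≠ l := by decide

theorem cc {x a b : G} (h1 : Commute x a) (h2 : Commute x b) : Commute x ⁅a, b⁆ := by
  rw [commutatorElement_def]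
  exact ((h1.mul_right h2).mul_right h1.inv_right).mul_right h2.inv_right

theorem jac {a b c : G} (h1 : Commute a c) (h2 : Commute ⁅a, b⁆ b) :
    ⁅a, ⁅b, c⁆⁆ = b * ⁅⁅a, b⁆, c⁆ * b⁻¹ := by
  have e1 : a * b * a⁻¹ = b * ⁅a, b⁆ := by
    rw [← h2.eq, commutatorElement_def]; group
  have e2 : a * c * a⁻¹ = c := by rw [h1.eq]; group
  have e3 : ⁅a, ⁅b, c⁆⁆ = (a * b * a⁻¹) * (a * c * a⁻¹) * (a * b * a⁻¹)⁻¹ * (a * c * a⁻¹)⁻¹ *
      (c * b * c⁻¹ * b⁻¹) := by
    simp only [commutatorElement_def]; group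
  rw [e3, e1, e2, commutatorElement_def ⁅a, b⁆ c]
  generalize ⁅a, b⁆ = p
  group

theorem conj_eq {b y : G} (h : Commute b y) : b * y * b⁻¹ = y := by
  rw [h.eq]; group

theorem comm_aux (hP : Upto X D) {i j k l : Fin 5} (hij : i ≠ j) (hkl : k ≠ l) (hjk : j ≠ k)
    (hil : i ≠ l) {m m' : List A} (h2 : 2 ≤ m.length) (hm : m.length ≤ D)
    (ht : m.length + m'.length ≤ D + 1) : Commute (X i j m) (X k l m') := by
  obtain ⟨h, hi, hj, hk, hl⟩ := fifth i j k l
  obtain ⟨x, m2, rfl⟩ := List.exists_cons_of_length_pos (l := m) (by omega)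
  simp only [List.length_cons] at h2 hm ht
  have e := hP.2 i h j hi.symm hj hij [x] m2 (by simp only [List.length_singleton]; omega)
  rw [List.singleton_append] at e
  rw [← e]
  refine (cc (Commute.symm ?_) (Commute.symm ?_)).symm
  · exact hP.1 i h k l hi.symm hkl hk hil _ _ (by simp only [List.length_singleton]; omega)
  · exact hP.1 h j k l hj hkl hjk hl _ _ (by omega)

theorem comm1 (hP : Upto X D) (hD : 2 ≤ D) {i j k l : Fin 5} (hij : i ≠ j) (hkl : k ≠ l)
    (hjk : j ≠ k) (hil : i ≠ l) {m m' : List A} (hm : m.length ≤ D) (hm' : m'.length ≤ D)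
    (ht : m.length + m'.length ≤ D + 1) : Commute (X i j m) (X k l m') := by
  by_cases h : m.length + m'.length ≤ D
  · exact hP.1 i j k l hij hkl hjk hil m m' h
  by_cases h2 : 2 ≤ m.length
  · exact comm_aux hP hij hkl hjk hil h2 hm ht
  · exact (comm_aux hP hkl hij hil.symm hjk.symm (by omega) hm' (by omega)).symm

theorem conj_idx (hP : Upto X D) (hD : 2 ≤ D) {i j k l : Fin 5} (hij : i ≠ j) (hik : i ≠ k)
    (hil : i ≠ l) (hjk : j ≠ k) (hjl : j ≠ l) (hkl : k ≠ l) {m m' : List A} (hm : m.length ≤ D)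
    (hm' : m'.length ≤ D) (ht : m.length + m'.length ≤ D + 1) :
    ⁅X i k m, X k j m'⁆ = X k l [] * ⁅X i l m, X l j m'⁆ * (X k l [])⁻¹ := by
  have e1 := hP.2 i k l hik hkl hil m [] (by simpa using hm)
  have e2 := hP.2 k l j hkl hjl.symm hjk.symm [] m' (by simpa using hm')
  rw [List.append_nil] at e1
  rw [List.nil_append] at e2
  have h := jac (a := X i k m) (b := X k l []) (c := X l j m')
    (comm1 hP hD hik hjl.symm hkl hij hm hm' ht)
    (by rw [e1]; exact hP.1 i l k l hil hkl hkl.symm hil _ _ (by simpa using hm))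
  rwa [e1, e2] at h

theorem comm_third (hP : Upto X D) (hD : 2 ≤ D) {i j k l h : Fin 5} (hil : i ≠ l) (hjk : j ≠ k)
    (hkl : k ≠ l) (hi : h ≠ i) (hj : h ≠ j) (hk : h ≠ k) (hl : h ≠ l) {m m' w : List A}
    (hw : w.length ≤ 1) (hm : m.length ≤ D) (hm' : m'.length ≤ D) :
    Commute (X k l w) ⁅X i h m, X h j m'⁆ :=
  cc (comm1 hP hD hkl hi.symm hil.symm hk.symm (by omega) hm (by omega))
    (comm1 hP hD hkl hj hl.symm hjk.symm (by omega) hm' (by omega))

theorem idx_eq (hP : Upto X D) (hD : 2 ≤ D) {i j k l : Fin 5} (hij : i ≠ j) (hik : i ≠ k)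
    (hil : i ≠ l) (hjk : j ≠ k) (hjl : j ≠ l) {m m' : List A} (hm : m.length ≤ D)
    (hm' : m'.length ≤ D) (ht : m.length + m'.length ≤ D + 1) :
    ⁅X i k m, X k j m'⁆ = ⁅X i l m, X l j m'⁆ := by
  by_cases hkl : k = l
  · rw [hkl]
  obtain ⟨h, hi, hj, hk, hl⟩ := fifth i j k l
  have e1 := conj_idx hP hD hij hik hil hjk hjl hkl hm hm' ht
  have e2 := conj_idx hP hD hij hil hi.symm hjl hj.symm hl.symm hm hm' ht
  have c1 : Commute (X k l []) ⁅X i h m, X h j m'⁆ :=
    comm_third hP hD hil hjk hkl hi hj hk hl (by simp) hm hm'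
  have c2 : Commute (X k h []) ⁅X i l m, X l j m'⁆ :=
    comm_third hP hD hi.symm hjk hk.symm hil.symm hjl.symm (Ne.symm hkl) hl.symm (by simp) hm hm'
  have e3 := hP.2 k l h hkl hl.symm hk.symm [] [] (by simp)
  rw [List.append_nil, commutatorElement_def] at e3
  have e4 := conj_eq c2
  have e5 := conj_eq c1.inv_left
  rw [e1]
  generalize ⁅X i l m, X l j m'⁆ = u at *
  generalize ⁅X i h m, X h j m'⁆ = v at *
  generalize X k l [] = a at *
  generalize X l h [] = b at *
  generalize X k h [] = c at *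
  subst e3
  calc a * u * a⁻¹ = a * (b * (a⁻¹ * v * a⁻¹⁻¹) * b⁻¹) * a⁻¹ := by rw [e5, ← e2]
    _ = a * b * a⁻¹ * b⁻¹ * (b * v * b⁻¹) * (a * b * a⁻¹ * b⁻¹)⁻¹ := by group
    _ = u := by rw [← e2, e4]

theorem move (hP : Upto X D) (hD : 2 ≤ D) {i j k l : Fin 5} (hij : i ≠ j) (hik : i ≠ k)
    (hil : i ≠ l) (hjk : j ≠ k) (hjl : j ≠ l) (hkl : k ≠ l) {m m' : List A} (x : A)
    (hm : 1 ≤ m.length) (hm' : 1 ≤ m'.length) (ht : m.length + m'.length ≤ D) :
    ⁅X i k m, X k j (x :: m')⁆ = ⁅X i l (m ++ [x]), X l j m'⁆ := by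
  obtain ⟨h, hi, hj, hk, hl⟩ := fifth i j k l
  have l1 : (m ++ [x]).length = m.length + 1 := by simp
  have l2 : ([x] : List A).length = 1 := rfl
  have e1 := hP.2 i k l hik hkl hil m [x] (by omega)
  have e2 := hP.2 k l j hkl hjl.symm hjk.symm [x] m' (by omega)
  rw [List.singleton_append] at e2
  have e := jac (a := X i k m) (b := X k l [x]) (c := X l j m')
    (hP.1 i k l j hik hjl.symm hkl hij _ _ ht)
    (by rw [e1]; exact comm1 hP hD hil hkl (Ne.symm hkl) hil (by omega) (by omega) (by omega))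
  rw [e1, e2] at e
  rw [e, idx_eq hP hD hij hil hi.symm hjl hj.symm (by omega) (by omega) (by omega)]
  exact conj_eq (comm_third hP hD hil hjk hkl hi hj hk hl l2.le (by omega) (by omega))

theorem split (hX : ∀ i j, i ≠ j → ∀ (a : A) (m : List A), 2 ≤ m.length →
      ∃ k, k ≠ i ∧ k ≠ j ∧ X i j (a :: m) = ⁅X i k [a], X k j m⁆)
    (hP : Upto X D) (hD : 2 ≤ D) {i j : Fin 5} (hij : i ≠ j) (n : ℕ) :
    ∀ m m' : List A, m.length = n + 1 → 1 ≤ m'.length → m.length + m'.length = D + 1 →
      ∀ k, i ≠ k → j ≠ k → ⁅X i k m, X k j m'⁆ = X i j (m ++ m') := by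
  induction n with
  | zero =>
    intro m m' hm hm' ht k hik hjk
    obtain ⟨x, rfl⟩ := List.length_eq_one_iff.1 hm
    obtain ⟨l, hi, hj, e⟩ := hX i j hij x m' (by omega)
    rw [List.singleton_append, e]
    exact idx_eq hP hD hij hik hi.symm hjk hj.symm (by omega) (by omega) ht.le
  | succ n ih =>
    intro m m' hm hm' ht l hil hjl
    obtain ⟨m1, x, rfl⟩ : ∃ m1 x, m = m1 ++ [x] := by
      have hne : m ≠ [] := by rintro rfl; simp at hm
      exact ⟨_, _, (List.dropLast_append_getLast hne).symm⟩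
    have l1 : (m1 ++ [x]).length = m1.length + 1 := by simp
    have l2 : (x :: m').length = m'.length + 1 := rfl
    obtain ⟨k, hi, hj, hl, -⟩ := fifth i j l l
    rw [← move hP hD hij hi.symm hil hj.symm hjl hl x (by omega) hm' (by omega),
      ih m1 (x :: m') (by omega) (by omega) (by omega) k hi.symm hj.symm, List.append_assoc,
      List.singleton_append]

theorem step (hX : ∀ i j, i ≠ j → ∀ (a : A) (m : List A), 2 ≤ m.length →
      ∃ k, k ≠ i ∧ k ≠ j ∧ X i j (a :: m) = ⁅X i k [a], X k j m⁆)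
    (hP : Upto X D) (hD : 2 ≤ D) : Upto X (D + 1) := by
  have sp : ∀ {i j k : Fin 5}, i ≠ j → i ≠ k → j ≠ k → ∀ m m' : List A, 1 ≤ m.length →
      1 ≤ m'.length → m.length + m'.length = D + 1 → ⁅X i k m, X k j m'⁆ = X i j (m ++ m') :=
    fun hij hik hjk m m' hm hm' ht =>
      split hX hP hD hij (m.length - 1) m m' (by omega) hm' ht _ hik hjk
  have comm2 : ∀ {i j k l : Fin 5}, i ≠ j → k ≠ l → j ≠ k → i ≠ l → ∀ m w : List A,
      m.length = D + 1 → w.length ≤ 1 → Commute (X i j m) (X k l w) := by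
    intro i j k l hij hkl hjk hil m w hm hw
    obtain ⟨h, hi, hj, hk, hl⟩ := fifth i j k l
    obtain ⟨x, m2, rfl⟩ := List.exists_cons_of_length_pos (l := m) (by omega)
    have l1 : (x :: m2).length = m2.length + 1 := rfl
    have l2 : ([x] : List A).length = 1 := rfl
    have e := sp hij hi.symm hj.symm [x] m2 (by omega) (by omega) (by omega)
    rw [List.singleton_append] at e
    rw [← e]
    exact (comm_third hP hD hil hjk hkl hi hj hk hl hw (by omega) (by omega)).symm
  refine ⟨fun i j k l hij hkl hjk hil m m' ht => ?_, fun i j k hij hjk hik m m' ht => ?_⟩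
  · by_cases hm : m.length = D + 1
    · exact comm2 hij hkl hjk hil m m' hm (by omega)
    by_cases hm' : m'.length = D + 1
    · exact (comm2 hkl hij hil.symm hjk.symm m' m hm' (by omega)).symm
    exact comm1 hP hD hij hkl hjk hil (by omega) (by omega) ht
  by_cases hle : m.length + m'.length ≤ D
  · exact hP.2 i j k hij hjk hik m m' hle
  obtain ⟨l, hi, hj, hk, -⟩ := fifth i j k k
  by_cases hm' : m'.length = 0
  · obtain rfl := List.length_eq_zero_iff.1 hm'
    obtain ⟨m1, x, rfl⟩ : ∃ m1 x, m = m1 ++ [x] := by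
      have hne : m ≠ [] := by rintro rfl; simp at hle
      exact ⟨_, _, (List.dropLast_append_getLast hne).symm⟩
    have l1 : (m1 ++ [x]).length = m1.length + 1 := by simp
    have l2 : ([x] : List A).length = 1 := rfl
    have e1 := sp hij hi.symm hj.symm m1 [x] (by omega) (by omega) (by omega)
    have e2 := hP.2 l j k hj hjk hk [x] [] (by omega)
    rw [List.append_nil] at e2
    have e3 := sp hik hi.symm hk.symm m1 [x] (by omega) (by omega) (by omega)
    have e := jac (a := X i l m1) (b := X l j [x]) (c := X j k [])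
      (hP.1 i l j k hi.symm hjk hj hik _ _ (by omega))
      (by rw [e1]; exact comm2 hij hj hj.symm hij _ _ (by omega) l2.le)
    rw [e1, e2, e3] at e
    have c := conj_eq (comm2 hik hj hk.symm hij (m1 ++ [x]) [x] (by omega) l2.le).symm.inv_left
    rw [List.append_nil, ← c, e]
    group
  by_cases hm : m.length = 0
  · obtain rfl := List.length_eq_zero_iff.1 hm
    obtain ⟨x, m2, rfl⟩ := List.exists_cons_of_length_pos (l := m') (by omega)
    have l1 : (x :: m2).length = m2.length + 1 := rfl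
    have l2 : ([x] : List A).length = 1 := rfl
    have e1 := hP.2 i j l hij hj.symm hi.symm [] [x] (by omega)
    rw [List.nil_append] at e1
    have e2 := sp hjk hj.symm hk.symm [x] m2 (by omega) (by omega) (by omega)
    have e3 := sp hik hi.symm hk.symm [x] m2 (by omega) (by omega) (by omega)
    rw [List.singleton_append] at e2 e3
    have e := jac (a := X i j []) (b := X j l [x]) (c := X l k m2)
      (hP.1 i j l k hij hk hj.symm hik _ _ (by omega))
      (by rw [e1]; exact hP.1 i l j l hi.symm hj.symm hj hi.symm _ _ (by omega))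
    rw [e1, e2, e3] at e
    rw [List.nil_append, e]
    exact conj_eq (comm2 hik hj.symm hjk.symm hi.symm (x :: m2) [x] (by omega) l2.le).symm
  exact sp hik hij hjk.symm m m' (by omega) (by omega) (by omega)

end Stepx

theorem step_main : SpStep := by
  intro A G _ X hX h2 D
  induction D with
  | zero =>
    exact ⟨fun i j k l a b c d m m' h => h2.1 i j k l a b c d m m' (by omega),
      fun i j k a b c m m' h => h2.2 i j k a b c m m' (by omega)⟩
  | succ D ih =>
    by_cases hD : 2 ≤ D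
    · exact Stepx.step hX ih hD
    · exact ⟨fun i j k l a b c d m m' h => h2.1 i j k l a b c d m m' (by omega),
        fun i j k a b c m m' h => h2.2 i j k a b c m m' (by omega)⟩

end Pool.Agent.MP_89edc2_al.K76
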