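import Pool.Agent.MP_89edc2_al.K76.Spec

/-! The spectral gap from the angles. -/

universe u

namespace Pool.Agent.MP_89edc2_al.K76

open Finset Filter Topology
open scoped commutatorElement

namespace Tax

variable {E : Type u} [NormedAddCommGroup E] [InnerProductSpace ℂ E]

section
variable (Q : Fin 5 → E →ₗ[ℂ] E) (h1 : ∀ i v w, inner ℂ (Q i v) (Q i w) = inner ℂ (Q i v) w)
  (h2 : ∀ i j, i ≠ j → ∀ v,
    -(1 / 9 * (‖Q i v‖ ^ 2 + ‖Q j v‖ ^ 2)) ≤ (inner ℂ (Q i v) (Q j v)).re)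

include h1 in
theorem nrm_le (i : Fin 5) (v : E) : ‖Q i v‖ ≤ ‖v‖ := by
  have a : ‖Q i v‖ ^ 2 ≤ ‖Q i v‖ * ‖v‖ := by
    rw [← inner_self_eq_norm_sq (𝕜 := ℂ), h1]
    exact re_inner_le_norm (𝕜 := ℂ) _ _
  by_contra h
  nlinarith [norm_nonneg v]

include h2 in
theorem low (v : E) : (∑ i, ‖Q i v‖ ^ 2) / 9 ≤ ‖∑ i, Q i v‖ ^ 2 := by
  have e : ‖∑ i, Q i v‖ ^ 2 = ∑ i, ∑ j, (inner ℂ (Q i v) (Q j v)).re := by
    rw [← inner_self_eq_norm_sq (𝕜 := ℂ), sum_inner]
    simp only [inner_sum, map_sum, RCLike.re_to_complex]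
  have k : ∀ i j, -(1 / 9 * (‖Q i v‖ ^ 2 + ‖Q j v‖ ^ 2)) +
      (if i = j then 11 / 9 * ‖Q i v‖ ^ 2 else 0) ≤ (inner ℂ (Q i v) (Q j v)).re := by
    intro i j
    split_ifs with h
    · subst h
      have := inner_self_eq_norm_sq (𝕜 := ℂ) (Q i v)
      rw [RCLike.re_to_complex] at this
      linarith
    · linarith [h2 i j h v]
  rw [e]
  refine le_trans (le_of_eq ?_) (sum_le_sum fun i _ => sum_le_sum fun j _ => k i j)
  simp only [sum_add_distrib, sum_ite_eq, mem_univ, if_true]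
  simp only [Fin.sum_univ_five]
  ring

omit [InnerProductSpace ℂ E] in
theorem upp (x : Fin 5 → E) : ‖∑ i, x i‖ ^ 2 ≤ 5 * ∑ i, ‖x i‖ ^ 2 := by
  have a := sq_sum_le_card_mul_sum_sq (s := (univ : Finset (Fin 5))) (f := fun i => ‖x i‖)
  have b := pow_le_pow_left₀ (norm_nonneg _) (norm_sum_le univ x) 2
  simp only [card_univ, Fintype.card_fin, Nat.cast_ofNat] at a
  linarith

include h1 h2 in
theorem step (v : E) :
    ∑ i, ‖Q i (v - (5⁻¹ : ℂ) • ∑ j, Q j v)‖ ^ 2 ≤ (99 / 100) ^ 2 * ∑ i, ‖Q i v‖ ^ 2 := by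
  have a := low Q h2 v
  set y := (5⁻¹ : ℂ) • ∑ j, Q j v with hy
  have e : ∑ j, Q j v = (5 : ℂ) • y := by rw [hy, smul_smul]; simp
  have n : ‖∑ j, Q j v‖ ^ 2 = 25 * ‖y‖ ^ 2 := by rw [e, norm_smul]; simp; ring
  have s : ∑ i, (inner ℂ (Q i v) y).re = 5 * ‖y‖ ^ 2 := by
    have := inner_self_eq_norm_sq (𝕜 := ℂ) y
    rw [RCLike.re_to_complex] at this
    rw [← Complex.re_sum, ← sum_inner, e, inner_smul_left, ← this]
    simp
  have k : ∀ i, ‖Q i (v - y)‖ ^ 2 ≤ ‖Q i v‖ ^ 2 - 2 * (inner ℂ (Q i v) y).re + ‖y‖ ^ 2 := by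
    intro i
    rw [map_sub, norm_sub_sq (𝕜 := ℂ), h1, RCLike.re_to_complex]
    have := pow_le_pow_left₀ (norm_nonneg _) (nrm_le Q h1 i y) 2
    linarith
  have t := sum_le_sum fun i (_ : i ∈ (univ : Finset (Fin 5))) => k i
  rw [sum_add_distrib, sum_sub_distrib, ← mul_sum, s] at t
  simp only [sum_const, card_univ, Fintype.card_fin, nsmul_eq_mul, Nat.cast_ofNat] at t
  have p : 0 ≤ ∑ i, ‖Q i v‖ ^ 2 := by positivity
  linarith

include h1 h2 in
theorem fix [CompleteSpace E] (v : E) (δ : ℝ) (hδ : 0 ≤ δ) (hv : ∑ i, ‖Q i v‖ ^ 2 ≤ δ ^ 2) :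
    ∃ w, (∀ i, Q i w = 0) ∧ dist v w ≤ 100 * δ := by
  let M : E → E := fun v => v - (5⁻¹ : ℂ) • ∑ j, Q j v
  have a : ∀ n, ∑ i, ‖Q i (M^[n] v)‖ ^ 2 ≤ (δ * (99 / 100) ^ n) ^ 2 := fun n => by
    induction n with
    | zero => simpa using hv
    | succ n ih =>
      rw [Function.iterate_succ_apply']
      refine (step Q h1 h2 _).trans ((mul_le_mul_of_nonneg_left ih (by positivity)).trans_eq ?_)
      ring
  have b : ∀ n, dist (M^[n] v) (M^[n + 1] v) ≤ δ * (99 / 100) ^ n := fun n => by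
    rw [Function.iterate_succ_apply', dist_eq_norm, sub_sub_cancel, norm_smul]
    refine le_of_sq_le_sq ?_ (by positivity)
    have := upp fun j => Q j (M^[n] v)
    have p : 0 ≤ ‖∑ j, Q j (M^[n] v)‖ ^ 2 := by positivity
    have q : ‖(5⁻¹ : ℂ)‖ = 1 / 5 := by simp
    rw [q, mul_pow]
    linarith [a n]
  obtain ⟨w, hw⟩ := cauchySeq_tendsto_of_complete
    (cauchySeq_of_le_geometric (99 / 100) δ (by norm_num) b)
  refine ⟨w, fun i => ?_, ?_⟩
  · have c : ∀ n, ‖Q i w‖ ≤ ‖w - M^[n] v‖ + δ * (99 / 100) ^ n := fun n => by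
      have e : Q i w = Q i (w - M^[n] v) + Q i (M^[n] v) := by rw [← map_add, sub_add_cancel]
      rw [e]
      refine (norm_add_le _ _).trans (add_le_add (nrm_le Q h1 i _) ?_)
      refine le_of_sq_le_sq (le_trans ?_ (a n)) (by positivity)
      exact single_le_sum (f := fun i => ‖Q i (M^[n] v)‖ ^ 2) (fun _ _ => by positivity)
        (mem_univ i)
    have d : Tendsto (fun n => ‖w - M^[n] v‖ + δ * (99 / 100 : ℝ) ^ n) atTop
        (𝓝 (‖w - w‖ + δ * 0)) :=
      (tendsto_const_nhds.sub hw).norm.add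
        ((tendsto_pow_atTop_nhds_zero_of_lt_one (by norm_num) (by norm_num)).const_mul δ)
    have := ge_of_tendsto' d c
    simpa using this
  · have := dist_le_of_le_geometric_of_tendsto₀ (99 / 100) δ (by norm_num) b hw
    refine this.trans_eq ?_
    ring

end

variable {G V : Type} [Group G] [AddCommGroup V] [Fintype V] (π : G →* (E ≃ₗᵢ[ℂ] E)) (f : V → G)

theorem avg_fix (hf : ∀ x y, f (x + y) = f x * f y) (y : V) (v : E) :
    π (f y) (avg π f v) = avg π f v := by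
  rw [avg, map_smul, map_sum, ← Equiv.sum_comp (Equiv.addLeft y) fun x => π (f x) v]
  simp [hf]

theorem inner_avg (v w : E) (hw : ∀ x, π (f x) w = w) : inner ℂ (avg π f v) w = inner ℂ v w := by
  have k : ∀ x, inner ℂ (π (f x) v) w = inner ℂ v w := fun x => by
    conv_lhs => rw [← hw x]
    exact (π (f x)).inner_map_map v w
  rw [avg, inner_smul_left, sum_inner]
  simp [k]

theorem near (v : E) (ε : ℝ) (h : ∀ x, ‖π (f x) v - v‖ < ε) : ‖v - avg π f v‖ ≤ ε := by
  have c : (0 : ℝ) < Fintype.card V := by exact_mod_cast Fintype.card_pos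
  have e : avg π f v - v = (Fintype.card V : ℂ)⁻¹ • ∑ x, (π (f x) v - v) := by
    rw [sum_sub_distrib, smul_sub, sum_const, card_univ, ← Nat.cast_smul_eq_nsmul ℂ,
      inv_smul_smul₀ (by simp), avg]
  rw [norm_sub_rev, e, norm_smul, norm_inv, Complex.norm_natCast, inv_mul_le_iff₀ c]
  refine (norm_sum_le _ _).trans ((sum_le_sum fun x _ => (h x).le).trans_eq ?_)
  simp

/-- The complement of the average, as a linear map. -/
noncomputable def co : E →ₗ[ℂ] E :=
  LinearMap.id - (Fintype.card V : ℂ)⁻¹ • ∑ x, (π (f x)).toLinearEquiv.toLinearMap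

omit [AddCommGroup V] in
theorem co_apply (v : E) : co π f v = v - avg π f v := by
  simp [co, avg]

end Tax

open Tax in
theorem ta_main : SpTa.{u} := by
  classical
  intro G V _ _ _ f hf hgen hang
  refine ⟨univ.image fun p : Fin 5 × V => f p.1 p.2, 1 / 1000, by norm_num, ?_⟩
  intro E _ _ _ π v hv hQ
  obtain ⟨w, hw, hd⟩ := fix (fun i => co π (f i)) (fun i v w => by
      rw [co_apply π (f i) w, inner_sub_right, co_apply, inner_sub_left v _ (avg π (f i) w),
        inner_avg π (f i) v _ fun x => avg_fix π (f i) (hf i) x w, sub_self, sub_zero])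
    (fun i j hij v => by
      rw [co_apply, co_apply]
      exact hang i j hij E π v) v (1 / 200) (by norm_num) (by
      have k : ∀ i, ‖co π (f i) v‖ ^ 2 ≤ (1 / 1000) ^ 2 := fun i => by
        rw [co_apply]
        exact pow_le_pow_left₀ (norm_nonneg _)
          (near π (f i) v _ fun x => hQ _ (mem_image.2 ⟨(i, x), mem_univ _, rfl⟩)) 2
      refine (sum_le_sum fun i _ => k i).trans ?_
      norm_num)
  refine ⟨w, fun h => ?_, fun g => ?_⟩
  · rw [h, dist_zero_right, hv] at hd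
    norm_num at hd
  · have hg : g ∈ Subgroup.closure {g | ∃ i x, g = f i x} := hgen ▸ Subgroup.mem_top g
    induction hg using Subgroup.closure_induction with
    | mem g hg =>
      obtain ⟨i, x, rfl⟩ := hg
      have := hw i
      rw [co_apply, sub_eq_zero] at this
      rw [this, avg_fix π (f i) (hf i)]
    | one => simp
    | mul a b _ _ ha hb => simp [ha, hb]
    | inv a _ ha =>
      conv_lhs => rw [← ha]
      simp

end Pool.Agent.MP_89edc2_al.K76
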