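import Pool.Agent.MP_89edc2_al.K76.Spec

/-! The angle for a Heisenberg pair. -/

universe u

namespace Pool.Agent.MP_89edc2_al.K76

open scoped commutatorElement

namespace Tbx

variable {G W W' : Type} [Group G] [AddCommGroup W] [Fintype W] [AddCommGroup W'] [Fintype W']
  {E : Type u} [NormedAddCommGroup E] [InnerProductSpace ℂ E] (π : G →* (E ≃ₗᵢ[ℂ] E))

/-- The average as a linear map. -/
noncomputable def P (f : W → G) : E →ₗ[ℂ] E :=
  (Fintype.card W : ℂ)⁻¹ • ∑ w, (π (f w)).toLinearEquiv.toLinearMap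

omit [AddCommGroup W] in
theorem P_apply (f : W → G) (v : E) : P π f v = (Fintype.card W : ℂ)⁻¹ • ∑ w, π (f w) v := by
  simp [P, LinearMap.sum_apply]

theorem card_ne : (Fintype.card W : ℂ) ≠ 0 := by exact_mod_cast Fintype.card_ne_zero

theorem pi_mul (g h : G) (v : E) : π (g * h) v = π g (π h v) := by rw [map_mul]; rfl

theorem P_fix {f : W → G} {v : E} (h : ∀ w, π (f w) v = v) : P π f v = v := by
  rw [P_apply]
  simp only [h, Finset.sum_const, Finset.card_univ]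
  rw [← Nat.cast_smul_eq_nsmul ℂ, smul_smul, inv_mul_cancel₀ card_ne, one_smul]

theorem pi_P {f : W → G} (hf : ∀ x y, f (x + y) = f x * f y) (w : W) (v : E) :
    π (f w) (P π f v) = P π f v := by
  rw [P_apply, map_smul, map_sum, ← Equiv.sum_comp (Equiv.addLeft w) fun x => π (f x) v]
  simp only [Equiv.coe_addLeft, hf, pi_mul]

theorem P_P {f : W → G} (hf : ∀ x y, f (x + y) = f x * f y) (v : E) : P π f (P π f v) = P π f v :=
  P_fix π fun w => pi_P π hf w v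

omit [Fintype W] in
theorem f_zero {f : W → G} (hf : ∀ x y, f (x + y) = f x * f y) : f 0 = 1 := by
  have := hf 0 0
  rw [add_zero] at this
  exact left_eq_mul.1 this

theorem P_symm {f : W → G} (hf : ∀ x y, f (x + y) = f x * f y) (u v : E) :
    inner ℂ (P π f u) v = inner ℂ u (P π f v) := by
  rw [P_apply, P_apply, inner_smul_left, inner_smul_right, sum_inner, inner_sum,
    ← Equiv.sum_comp (Equiv.neg W) fun x => inner ℂ u (π (f x) v)]
  simp only [map_inv₀, map_natCast, Equiv.neg_apply]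
  congr 1
  refine Finset.sum_congr rfl fun w _ => ?_
  rw [← (π (f (-w))).inner_map_map, ← pi_mul, ← hf, neg_add_cancel, f_zero hf, map_one]
  rfl

omit [AddCommGroup W] [AddCommGroup W'] in
theorem P_comm {f : W → G} {f' : W' → G} {v : E}
    (h : ∀ w w', π (f w) (π (f' w') v) = π (f' w') (π (f w) v)) :
    P π f (P π f' v) = P π f' (P π f v) := by
  simp only [P_apply, map_smul, map_sum, h, ← Finset.smul_sum]
  rw [smul_comm, Finset.sum_comm]

theorem final {A C Z : E →ₗ[ℂ] E} (sA : ∀ u v, inner ℂ (A u) v = inner ℂ u (A v))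
    (sC : ∀ u v, inner ℂ (C u) v = inner ℂ u (C v))
    (sZ : ∀ u v, inner ℂ (Z u) v = inner ℂ u (Z v)) (AA : ∀ v, A (A v) = A v)
    (CC : ∀ v, C (C v) = C v) (ZZ : ∀ v, Z (Z v) = Z v) (AZ : ∀ v, A (Z v) = Z (A v))
    (CZ : ∀ v, C (Z v) = Z (C v)) (H0 : ∀ v, A (C (Z v)) = C (A (Z v)))
    (H1 : ∀ u, C u = u → Z u = 0 → ‖A u‖ ≤ ‖u‖ / 32) (v : E) :
    -(1 / 9 * (‖v - A v‖ ^ 2 + ‖v - C v‖ ^ 2)) ≤ (inner ℂ (v - A v) (v - C v)).re := by
  obtain ⟨s, hs⟩ : ∃ s, s = Z v := ⟨_, rfl⟩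
  obtain ⟨t, ht⟩ : ∃ t, t = v - Z v := ⟨_, rfl⟩
  have Zs : Z s = s := by rw [hs, ZZ]
  have Zt : Z t = 0 := by rw [ht, map_sub, ZZ, sub_self]
  have orth : ∀ x y, Z x = x → Z y = 0 → inner ℂ x y = 0 := fun x y hx hy => by
    rw [← hx, sZ, hy, inner_zero_right]
  have orth' : ∀ x y, Z x = x → Z y = 0 → inner ℂ y x = 0 := fun x y hx hy => by
    rw [← hx, ← sZ, hy, inner_zero_left]
  have a0 : Z (s - A s) = s - A s := by rw [map_sub, ← AZ, Zs]
  have c0 : Z (s - C s) = s - C s := by rw [map_sub, ← CZ, Zs]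
  have a1 : Z (t - A t) = 0 := by rw [map_sub, ← AZ, Zt, map_zero, sub_self]
  have c1 : Z (t - C t) = 0 := by rw [map_sub, ← CZ, Zt, map_zero, sub_self]
  have hv : v = s + t := by rw [hs, ht, add_sub_cancel]
  have ea : v - A v = (s - A s) + (t - A t) := by rw [hv, map_add]; abel
  have ec : v - C v = (s - C s) + (t - C t) := by rw [hv, map_add]; abel
  have n1 : ∀ x y : E, inner ℂ x y = 0 → ‖y‖ ^ 2 ≤ ‖x + y‖ ^ 2 := fun x y h => by
    rw [@norm_add_sq ℂ, h, map_zero]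
    nlinarith [sq_nonneg ‖x‖]
  have k0 : 0 ≤ (inner ℂ (s - A s) (s - C s)).re := by
    obtain ⟨q, hq⟩ : ∃ q, q = s - A s := ⟨_, rfl⟩
    have h1 : A q = 0 := by rw [hq, map_sub, AA, sub_self]
    have h2 : s - C s = (q - C q) + A (s - C s) := by
      have := H0 s
      rw [Zs] at this
      rw [hq, map_sub, map_sub, this]
      abel
    have h3 : inner ℂ (C q) (q - C q) = 0 := by rw [sC, map_sub, CC, sub_self, inner_zero_right]
    have h4 : inner ℂ q (q - C q) = inner ℂ (q - C q) (q - C q) := by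
      rw [inner_sub_left, h3, sub_zero]
    rw [← hq, h2, inner_add_right, ← sA, h1, inner_zero_left, add_zero, h4]
    exact inner_self_nonneg (𝕜 := ℂ)
  have px : ∀ {B : E →ₗ[ℂ] E}, (∀ u v, inner ℂ (B u) v = inner ℂ u (B v)) → (∀ v, B (B v) = B v) →
      (inner ℂ t (B t)).re = ‖B t‖ ^ 2 := fun {B} sB BB => by
    rw [← BB, ← sB, BB]
    exact inner_self_eq_norm_sq (𝕜 := ℂ) _
  have p1 := px sA AA
  have p2 := px sC CC
  have p3 : (inner ℂ (A t) (C t)).re ≤ ‖A t‖ * (‖C t‖ / 32) := by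
    rw [← AA, sA, AA]
    refine (re_inner_le_norm (𝕜 := ℂ) _ _).trans (mul_le_mul_of_nonneg_left ?_ (norm_nonneg _))
    exact H1 _ (CC t) (by rw [← CZ, Zt, map_zero])
  have p4 : ‖t - A t‖ ^ 2 = ‖t‖ ^ 2 - ‖A t‖ ^ 2 := by
    rw [@norm_sub_sq ℂ, RCLike.re_to_complex, p1]; ring
  have p5 : ‖t - C t‖ ^ 2 = ‖t‖ ^ 2 - ‖C t‖ ^ 2 := by
    rw [@norm_sub_sq ℂ, RCLike.re_to_complex, p2]; ring
  have p6 : (inner ℂ (t - A t) (t - C t)).re =
      ‖t‖ ^ 2 - ‖A t‖ ^ 2 - ‖C t‖ ^ 2 + (inner ℂ (A t) (C t)).re := by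
    have h1 : (inner ℂ t t).re = ‖t‖ ^ 2 := inner_self_eq_norm_sq (𝕜 := ℂ) t
    simp only [inner_sub_left, inner_sub_right, Complex.sub_re, h1, p2]
    rw [sA t t, p1]
    ring
  have p7 : 0 ≤ ‖t‖ ^ 2 - ‖A t‖ ^ 2 - ‖C t‖ ^ 2 + 2 * (inner ℂ (A t) (C t)).re := by
    have h1 := sq_nonneg ‖(t - A t) - C t‖
    have h2 : (inner ℂ (t - A t) (C t)).re = ‖C t‖ ^ 2 - (inner ℂ (A t) (C t)).re := by
      rw [inner_sub_left, Complex.sub_re, p2]
    rw [@norm_sub_sq ℂ _ _ _ _ (t - A t), RCLike.re_to_complex, h2, p4] at h1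
    linarith
  have q1 := n1 _ _ (orth _ _ a0 a1)
  have q2 := n1 _ _ (orth _ _ c0 c1)
  rw [ea, ec, inner_add_left, inner_add_right, inner_add_right, orth _ _ a0 c1, orth' _ _ c0 a1,
    add_zero, zero_add, Complex.add_re, p6]
  nlinarith [sq_nonneg (‖A t‖ - ‖C t‖), sq_nonneg ‖A t‖, sq_nonneg ‖C t‖]

end Tbx

open Tbx in
theorem tb_main : SpTb.{u} := by
  intro G F W _ _ _ _ _ a c z μ hF ha hc hz haz hcz hμ hrel E _ _ π v
  simp only [avg, ← P_apply]
  refine final (P_symm π ha) (P_symm π hc) (P_symm π hz) (P_P π ha) (P_P π hc) (P_P π hz)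
    (fun v => P_comm π fun x w => by rw [← pi_mul, ← pi_mul, (haz x w).eq])
    (fun v => P_comm π fun x w => by rw [← pi_mul, ← pi_mul, (hcz x w).eq])
    (fun v => P_comm π fun x w => by rw [← pi_mul, hrel, pi_mul, pi_mul, pi_P π hz]) ?_ v
  intro y hy hy'
  have h1 : ∀ w, π (c w) y = y := fun w => by rw [← hy, pi_P π hc]
  have h2 : ∀ x, x ≠ 0 → inner ℂ y (π (a x) y) = 0 := fun x hx => by
    have h3 : ∀ w, inner ℂ y (π (a x) y) = inner ℂ y (π (a x) (π (z (μ x w)) y)) := fun w => by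
      have h7 : π (a x) y = π (c w) (π (a x) (π (z (μ x w)) y)) := by
        rw [← pi_mul, ← pi_mul, ← hrel, pi_mul, h1]
      rw [← (π (c w)).inner_map_map y (π (a x) (π (z (μ x w)) y)), ← h7, h1]
    have h4 : ∑ w, π (z (μ x w)) y = 0 := by
      rw [(hμ x hx).sum_comp fun w => π (z w) y]
      rw [P_apply] at hy'
      exact (smul_eq_zero.1 hy').resolve_left (inv_ne_zero card_ne)
    have h5 : ∑ _w : W, inner ℂ y (π (a x) y) = 0 := by
      rw [Finset.sum_congr rfl fun w _ => h3 w, ← inner_sum, ← map_sum, h4, map_zero,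
        inner_zero_right]
    simpa using h5
  have h6 : ‖P π a y‖ ^ 2 = (Fintype.card F : ℝ)⁻¹ * ‖y‖ ^ 2 := by
    have h7 : inner ℂ (P π a y) (P π a y) = (Fintype.card F : ℂ)⁻¹ * inner ℂ y y := by
      rw [P_symm π ha, P_P π ha, P_apply, inner_smul_right, inner_sum, Finset.sum_eq_single 0,
        f_zero ha, map_one]
      · rfl
      · exact fun x _ hx => h2 x hx
      · simp
    rw [inner_self_eq_norm_sq_to_K, inner_self_eq_norm_sq_to_K] at h7
    refine Complex.ofReal_injective ?_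
    push_cast
    exact h7
  have h8 : (Fintype.card F : ℝ)⁻¹ ≤ 1024⁻¹ :=
    inv_anti₀ (by norm_num) (by exact_mod_cast hF)
  refine (abs_le_of_sq_le_sq' ?_ (by positivity)).2
  nlinarith [sq_nonneg ‖y‖]

end Pool.Agent.MP_89edc2_al.K76
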