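import Pool.Agent.MP_89edc2_al.K76.Spec

/-!
# Row TC: property (T) for groups generated by a Steinberg system
-/

universe u

namespace Pool.Agent.MP_89edc2_al.K76

open scoped commutatorElement

namespace Tcx

lemma ang_symm {G U W : Type} [Group G] [Fintype U] [Fintype W] {a : U → G} {c : W → G}
    (h : Ang.{u} a c) : Ang.{u} c a := by
  intro E _ _ π v
  have h1 := h E π v
  have h2 := inner_re_symm (𝕜 := ℂ) (v - avg π a v) (v - avg π c v)
  simp only [RCLike.re_to_complex] at h2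
  rw [← h2, add_comm]
  exact h1

lemma avg_fst {G U W : Type} [Group G] [Fintype U] [Fintype W] [Nonempty W] {E : Type u}
    [NormedAddCommGroup E] [InnerProductSpace ℂ E] (π : G →* (E ≃ₗᵢ[ℂ] E)) (a : U → G) (v : E) :
    avg π (fun p : U × W => a p.1) v = avg π a v := by
  unfold avg
  have hW : (Fintype.card W : ℂ) ≠ 0 := Nat.cast_ne_zero.2 Fintype.card_ne_zero
  rw [Fintype.sum_prod_type, Fintype.card_prod]
  simp only [Finset.sum_const, Finset.card_univ]
  rw [← Finset.smul_sum, ← Nat.cast_smul_eq_nsmul ℂ, smul_smul]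
  congr 1
  push_cast
  rw [mul_inv, mul_assoc, inv_mul_cancel₀ hW, mul_one]

lemma ang_fst {G U W V : Type} [Group G] [Fintype U] [Fintype W] [Nonempty W] [Fintype V]
    {a : U → G} {c : V → G} (h : Ang.{u} a c) : Ang.{u} (fun p : U × W => a p.1) c := by
  intro E _ _ π v
  rw [avg_fst]
  exact h E π v

variable {I R G : Type} [Ring R] [Group G] (S : St I R G)

lemma X_zero {i j : I} (h : i ≠ j) : S.X i j 0 = 1 := by
  have h1 := S.add i j h 0 0
  rw [add_zero] at h1
  exact mul_eq_left.1 h1.symm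

lemma swap_left {p q r : I} (h1 : p ≠ q) (h2 : q ≠ r) (h3 : p ≠ r) (x y : R) :
    S.X p q x * S.X q r y = S.X q r y * S.X p q x * S.X p r (x * y) := by
  have e := S.mul p q r h1 h2 h3 x y
  have c1 : Commute (S.X p r (x * y)) (S.X p q x) := S.comm p r p q h3 h1 h3.symm h1 _ _
  have c2 : Commute (S.X p r (x * y)) (S.X q r y) := S.comm p r q r h3 h2 h2.symm h3 _ _
  rw [← (c2.mul_right c1).eq, ← e, commutatorElement_def]
  group

lemma swap_right (hc : ∀ r : R, r + r = 0) {p q r : I} (h1 : p ≠ q) (h2 : q ≠ r) (h3 : p ≠ r)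
    (x y : R) : S.X q r y * S.X p q x = S.X p q x * S.X q r y * S.X p r (x * y) := by
  rw [swap_left S h1 h2 h3, mul_assoc, ← S.add p r h3, hc, X_zero S h3, mul_one]

/-- Generation from the cycle. -/
lemma gen (S : St (Fin 5) R G) (ρ : Finset R) (H : Subgroup G) (hc : ∀ r : R, r + r = 0)
    (hρ : Subring.closure (ρ : Set R) = ⊤) (h1 : ∀ i, S.X i (i + 1) 1 ∈ H)
    (h2 : ∀ r ∈ ρ, S.X 4 0 r ∈ H) (r : R) : ∀ i j, i ≠ j → S.X i j r ∈ H := by
  have hm : ∀ i k j : Fin 5, i ≠ k → k ≠ j → i ≠ j → ∀ x y, S.X i k x ∈ H → S.X k j y ∈ H →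
      S.X i j (x * y) ∈ H := by
    intro i k j a b c x y hx hy
    rw [← S.mul i k j a b c, commutatorElement_def]
    exact H.mul_mem (H.mul_mem (H.mul_mem hx hy) (H.inv_mem hx)) (H.inv_mem hy)
  have hm1 : ∀ i k : Fin 5, i ≠ k → i ≠ k + 1 → S.X i k 1 ∈ H → S.X i (k + 1) 1 ∈ H := by
    intro i k a b h
    have e : ∀ k : Fin 5, k ≠ k + 1 := by decide
    simpa using hm i k (k + 1) a (e k) b 1 1 h (h1 k)
  have one : ∀ i j : Fin 5, i ≠ j → S.X i j 1 ∈ H := by
    intro i j hij
    have e1 : ∀ i : Fin 5, i ≠ i + 1 ∧ i ≠ i + 1 + 1 ∧ i ≠ i + 1 + 1 + 1 ∧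
        i ≠ i + 1 + 1 + 1 + 1 := by decide
    have e2 : ∀ i j : Fin 5, i ≠ j → j = i + 1 ∨ j = i + 1 + 1 ∨ j = i + 1 + 1 + 1 ∨
        j = i + 1 + 1 + 1 + 1 := by decide
    obtain ⟨a, b, c, d⟩ := e1 i
    have p2 := hm1 i _ a b (h1 i)
    have p3 := hm1 i _ b c p2
    have p4 := hm1 i _ c d p3
    rcases e2 i j hij with rfl | rfl | rfl | rfl
    exacts [h1 i, p2, p3, p4]
  have mvl : ∀ (i j k : Fin 5) (x : R), i ≠ j → k ≠ j → S.X i j x ∈ H → S.X k j x ∈ H := by
    intro i j k x a b h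
    by_cases e : k = i
    · rwa [e]
    · simpa using hm k i j e a b 1 x (one k i e) h
  have mvr : ∀ (i j k : Fin 5) (x : R), i ≠ j → i ≠ k → S.X i j x ∈ H → S.X i k x ∈ H := by
    intro i j k x a b h
    by_cases e : j = k
    · rwa [← e]
    · simpa using hm i j k a e b x 1 h (one j k e)
  have hr : r ∈ Subring.closure (ρ : Set R) := hρ ▸ Subring.mem_top r
  induction hr using Subring.closure_induction with
  | mem x hx =>
    intro i j hij
    by_cases e : i = 0
    · subst e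
      exact mvr 0 1 j x (by decide) hij (mvl 4 1 0 x (by decide) (by decide)
        (mvr 4 0 1 x (by decide) (by decide) (h2 x hx)))
    · exact mvr i 0 j x e hij (mvl 4 0 i x (by decide) e (h2 x hx))
  | zero => intro i j hij; rw [X_zero S hij]; exact H.one_mem
  | one => exact one
  | add x y _ _ hx hy =>
    intro i j hij
    rw [S.add i j hij]
    exact H.mul_mem (hx i j hij) (hy i j hij)
  | neg x _ hx => rwa [neg_eq_of_add_eq_zero_left (hc x)]
  | mul x y _ _ hx hy =>
    intro i j hij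
    have e : ∀ i j : Fin 5, ∃ k, i ≠ k ∧ k ≠ j := by decide
    obtain ⟨k, a, b⟩ := e i j
    exact hm i k j a b hij x y (hx i k a) (hy k j b)

end Tcx

open Tcx in
theorem tc_main (hA : SpTa.{u}) (hB : SpTb.{u}) : SpTc.{u} := by
  intro R G F _ _ _ _ S ι ρ hF hc hι h1 hρ hS
  classical
  let g : Fin 5 → F × (ρ → F) → R := fun i v =>
    if i = 4 then ∑ r : ρ, ι (v.2 r) * (r : R) else ι v.1
  have gadd : ∀ i v w, g i (v + w) = g i v + g i w := by
    intro i v w
    by_cases e : i = 4 <;> simp [g, e, add_mul, Finset.sum_add_distrib]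
  have gsmul : ∀ i (x : F) v, g i (x • v) = ι x * g i v := by
    intro i x v
    by_cases e : i = 4 <;> simp [g, e, Finset.mul_sum, mul_assoc]
  have e1 : ∀ i : Fin 5, i ≠ i + 1 ∧ i ≠ i + 1 + 1 := by decide
  have fadd : ∀ p q : Fin 5, p ≠ q → ∀ i v w, S.X p q (g i (v + w)) =
      S.X p q (g i v) * S.X p q (g i w) := fun p q h i v w => by rw [gadd, S.add p q h]
  have hbij : ∀ x : F, x ≠ 0 → Function.Bijective fun v : F × (ρ → F) => x • v :=
    fun x hx => (MulAction.bijective (Units.mk0 x hx) : _)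
  have key : ∀ i j : Fin 5, i ≠ j → i ≠ 4 → Ang.{u} (fun v => S.X i (i + 1) (g i v))
      (fun v => S.X j (j + 1) (g j v)) := by
    intro i j hij hi
    have e : (fun v => S.X i (i + 1) (g i v)) =
        fun v : F × (ρ → F) => (fun x => S.X i (i + 1) (ι x)) v.1 := by
      funext v; simp [g, hi]
    rw [e]
    refine ang_fst (a := fun x : F => S.X i (i + 1) (ι x)) (W := ρ → F) ?_
    have aadd : ∀ x y : F, S.X i (i + 1) (ι (x + y)) =
        S.X i (i + 1) (ι x) * S.X i (i + 1) (ι y) := fun x y => by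
      rw [map_add, S.add _ _ (e1 i).1]
    by_cases ha : j = i + 1
    · subst ha
      refine hB G F _ _ _ (fun v => S.X i (i + 1 + 1) (g (i + 1) v)) (fun x v => x • v) hF aadd
        (fadd _ _ (e1 _).1 _) (fadd _ _ (e1 _).2 _) ?_ ?_ hbij ?_
      · exact fun x w => S.comm _ _ _ _ (e1 i).1 (e1 i).2 (e1 i).1.symm (e1 i).2 _ _
      · exact fun w w' => S.comm _ _ _ _ (e1 _).1 (e1 i).2 (e1 i).2.symm (e1 _).1 _ _
      · intro x w
        simp only [gsmul]
        exact swap_left S (e1 i).1 (e1 _).1 (e1 i).2 _ _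
    by_cases hb : i = j + 1
    · subst hb
      refine hB G F _ _ _ (fun v => S.X j (j + 1 + 1) (g j v)) (fun x v => x • v) hF aadd
        (fadd _ _ (e1 _).1 _) (fadd _ _ (e1 _).2 _) ?_ ?_ hbij ?_
      · exact fun x w => S.comm _ _ _ _ (e1 _).1 (e1 j).2 (e1 j).2.symm (e1 _).1 _ _
      · exact fun w w' => S.comm _ _ _ _ (e1 j).1 (e1 j).2 (e1 j).1.symm (e1 j).2 _ _
      · intro x w
        simp only [gsmul]
        rw [hι]
        exact swap_right S hc (e1 j).1 (e1 _).1 (e1 j).2 _ _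
    · refine hB G F _ _ _ (fun _ => 1) (fun _ v => v) hF aadd (fadd _ _ (e1 _).1 _)
        (fun _ _ => (mul_one _).symm) (fun _ _ => Commute.one_right _)
        (fun _ _ => Commute.one_right _) (fun _ _ => Function.bijective_id) ?_
      intro x w
      rw [mul_one]
      exact (S.comm _ _ _ _ (e1 i).1 (e1 j).1 (fun h => ha h.symm) hb _ _).eq
  refine hA G (F × (ρ → F)) (fun i v => S.X i (i + 1) (g i v))
    (fun i => fadd _ _ (e1 i).1 i) ?_ ?_
  · have g4 : ∀ r (hr : r ∈ ρ), g 4 (0, Pi.single ⟨r, hr⟩ 1) = r := by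
      intro r hr
      simp only [g, if_true]
      rw [Finset.sum_eq_single ⟨r, hr⟩]
      · simp
      · intro b _ hb
        simp [Pi.single_eq_of_ne hb]
      · simp
    refine top_unique ?_
    rw [← (hS : _ = ⊤), Subgroup.closure_le]
    rintro _ ⟨i, j, r, hij, rfl⟩
    refine gen S ρ _ hc hρ ?_ ?_ r i j hij
    · intro i
      by_cases e : i = 4
      · subst e
        exact Subgroup.subset_closure ⟨4, (0, Pi.single ⟨1, h1⟩ 1), by simp only [g4]⟩
      · exact Subgroup.subset_closure ⟨i, (1, 0), by simp [g, e]⟩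
    · intro r hr
      exact Subgroup.subset_closure ⟨4, (0, Pi.single ⟨r, hr⟩ 1), by simp only [g4]; rfl⟩
  · intro i j hij
    by_cases e : i = 4
    · exact ang_symm (key j i hij.symm fun h => hij (e.trans h.symm))
    · exact key i j hij e

end Pool.Agent.MP_89edc2_al.K76
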