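import Pool.Agent.MP_89edc2_al.K76.Spec

namespace Pool.Agent.MP_89edc2_al.K76

open scoped commutatorElement

namespace Wtx

variable {I R G : Type} [Ring R] [Group G] (S : St I R G)

theorem zero {c d : I} (h : c ≠ d) : S.X c d 0 = 1 := by
  have := S.add c d h 0 0
  rw [add_zero] at this
  exact left_eq_mul.1 this

variable (h2 : ∀ r : R, r + r = 0)
include h2

theorem sq {c d : I} (h : c ≠ d) (r : R) : S.X c d r * S.X c d r = 1 := by
  rw [← S.add c d h, h2, zero S h]

theorem inv {c d : I} (h : c ≠ d) (r : R) : (S.X c d r)⁻¹ = S.X c d r :=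
  inv_eq_of_mul_eq_one_right (sq S h2 h r)

theorem invol {c d : I} (h : c ≠ d) : S.T c d * S.T c d = 1 := by
  have a := sq S h2 h 1
  have b := sq S h2 h.symm 1
  unfold St.T
  calc _ = S.X c d 1 * (S.X d c 1 * (S.X c d 1 * S.X c d 1) * S.X d c 1) * S.X c d 1 := by
        simp only [mul_assoc]
    _ = 1 := by rw [a, mul_one, b, mul_one, a]

theorem tinv {c d : I} (h : c ≠ d) : (S.T c d)⁻¹ = S.T c d :=
  inv_eq_of_mul_eq_one_right (invol S h2 h)

theorem cj1 {i j k : I} (hij : i ≠ j) (hjk : j ≠ k) (hik : i ≠ k) (r : R) :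
    MulAut.conj (S.X i j 1) (S.X j k r) = S.X i k r * S.X j k r := by
  have := S.mul i j k hij hjk hik 1 r
  rw [one_mul, commutatorElement_def, mul_inv_eq_iff_eq_mul] at this
  exact this

theorem cj2 {i j k : I} (hij : i ≠ j) (hjk : j ≠ k) (hik : i ≠ k) (r : R) :
    MulAut.conj (S.X j k 1) (S.X i j r) = S.X i j r * S.X i k r := by
  have := S.mul i j k hij hjk hik r 1
  rw [mul_one, commutatorElement_def, inv S h2 hij] at this
  rw [← this, MulAut.conj_apply]
  simp only [← mul_assoc, sq S h2 hij, one_mul]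

omit h2 in
theorem cj0 {i j k l : I} (hij : i ≠ j) (hkl : k ≠ l) (hjk : j ≠ k) (hil : i ≠ l) (r s : R) :
    MulAut.conj (S.X i j r) (S.X k l s) = S.X k l s := by
  rw [MulAut.conj_apply, (S.comm i j k l hij hkl hjk hil r s).eq, mul_inv_cancel_right]

omit h2 in
theorem cjT (c d : I) (x : G) : MulAut.conj (S.T c d) x =
    MulAut.conj (S.X c d 1) (MulAut.conj (S.X d c 1) (MulAut.conj (S.X c d 1) x)) := by
  simp only [St.T, map_mul, MulAut.mul_apply]

theorem flip {c d : I} (h : c ≠ d) {x y : G} (e : MulAut.conj (S.T c d) x = y) :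
    MulAut.conj (S.T c d) y = x := by
  rw [← e, ← MulAut.mul_apply, ← map_mul, invol S h2 h, map_one, MulAut.one_apply]

theorem tdk {c d k : I} (h : c ≠ d) (hc : k ≠ c) (hd : k ≠ d) (r : R) :
    MulAut.conj (S.T c d) (S.X d k r) = S.X c k r := by
  rw [cjT, cj1 S h2 h hd.symm hc.symm, map_mul, cj1 S h2 h.symm hc.symm hd.symm,
    cj0 S h.symm hd.symm h hd.symm, (S.comm d k c k hd.symm hc.symm hc hd.symm r r).eq, mul_assoc,
    sq S h2 hd.symm, mul_one, cj0 S h hc.symm h.symm hc.symm]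

theorem tkc {c d k : I} (h : c ≠ d) (hc : k ≠ c) (hd : k ≠ d) (r : R) :
    MulAut.conj (S.T c d) (S.X k c r) = S.X k d r := by
  rw [cjT, cj2 S h2 hc h hd, map_mul, cj2 S h2 hd h.symm hc, cj0 S h.symm hc hc.symm h.symm,
    ← (S.comm k c k d hc hd hc.symm hd r r).eq, ← mul_assoc, sq S h2 hc, one_mul,
    cj0 S h hd hd.symm h]

theorem tcd {c d k : I} (h : c ≠ d) (hc : k ≠ c) (hd : k ≠ d) (r : R) :
    MulAut.conj (S.T c d) (S.X c d r) = S.X d c r := by
  have e1 := S.mul c k d hc.symm hd h r 1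
  have e2 := S.mul d k c hd.symm hc h.symm r 1
  rw [mul_one] at e1 e2
  rw [← e1, ← e2, map_commutatorElement, flip S h2 h (tdk S h2 h hc hd r),
    flip S h2 h (tkc S h2 h hc hd 1)]

variable [Fintype I] [DecidableEq I]

omit h2 in
theorem third (h3 : 3 ≤ Fintype.card I) (c d : I) : ∃ k, k ≠ c ∧ k ≠ d := by
  by_contra hn
  have : (Finset.univ : Finset I) ⊆ {c, d} := fun k _ => by
    by_contra hk
    simp only [Finset.mem_insert, Finset.mem_singleton, not_or] at hk
    exact hn ⟨k, hk⟩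
  have h1 := Finset.card_le_card this
  have h2 := Finset.card_le_two (a := c) (b := d)
  rw [Finset.card_univ] at h1
  omega

variable (h3 : 3 ≤ Fintype.card I)
include h3

theorem cjX {c d e f : I} (h : c ≠ d) (hef : e ≠ f) (r : R) :
    MulAut.conj (S.T c d) (S.X e f r) = S.X (Equiv.swap c d e) (Equiv.swap c d f) r := by
  obtain ⟨k, hc, hd⟩ := third h3 c d
  by_cases ec : e = c
  · subst ec
    rw [Equiv.swap_apply_left]
    by_cases fd : f = d
    · subst fd
      rw [Equiv.swap_apply_right]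
      exact tcd S h2 h hc hd r
    · rw [Equiv.swap_apply_of_ne_of_ne hef.symm fd]
      exact flip S h2 h (tdk S h2 h hef.symm fd r)
  by_cases ed : e = d
  · subst ed
    rw [Equiv.swap_apply_right]
    by_cases fc : f = c
    · subst fc
      rw [Equiv.swap_apply_left]
      exact flip S h2 h (tcd S h2 h hc hd r)
    · rw [Equiv.swap_apply_of_ne_of_ne fc hef.symm]
      exact tdk S h2 h fc hef.symm r
  rw [Equiv.swap_apply_of_ne_of_ne ec ed]
  by_cases fc : f = c
  · subst fc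
    rw [Equiv.swap_apply_left]
    exact tkc S h2 h ec ed r
  by_cases fd : f = d
  · subst fd
    rw [Equiv.swap_apply_right]
    exact flip S h2 h (tkc S h2 h ec ed r)
  rw [Equiv.swap_apply_of_ne_of_ne fc fd, cjT, cj0 S h hef (Ne.symm ed) (Ne.symm fc),
    cj0 S h.symm hef (Ne.symm ec) (Ne.symm fd), cj0 S h hef (Ne.symm ed) (Ne.symm fc)]

theorem conjX {c d e f : I} (h : c ≠ d) (hef : e ≠ f) (r : R) :
    S.T c d * S.X e f r * S.T c d = S.X (Equiv.swap c d e) (Equiv.swap c d f) r := by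
  rw [← cjX S h2 h3 h hef, MulAut.conj_apply, tinv S h2 h]

theorem conjT {c d e f : I} (h : c ≠ d) (hef : e ≠ f) :
    S.T c d * S.T e f * S.T c d = S.T (Equiv.swap c d e) (Equiv.swap c d f) := by
  have : MulAut.conj (S.T c d) (S.T e f) = S.T (Equiv.swap c d e) (Equiv.swap c d f) := by
    rw [St.T.eq_1 S e f, map_mul, map_mul, cjX S h2 h3 h hef, cjX S h2 h3 h hef.symm]
    rfl
  rw [← this, MulAut.conj_apply, tinv S h2 h]

theorem symm {c d : I} (h : c ≠ d) : S.T c d = S.T d c := by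
  have := conjT S h2 h3 h h
  rwa [invol S h2 h, one_mul, Equiv.swap_apply_left, Equiv.swap_apply_right] at this

theorem remove (J : Set I) (y : I) (g : G) (hg : g ∈ S.K J) : ∃ g' ∈ S.K (J \ {y}),
    g = g' ∨ ∃ d ∈ J, d ≠ y ∧ g = g' * S.T y d := by
  have mem : ∀ {k l : I}, k ∈ J → l ∈ J → k ≠ y → l ≠ y → k ≠ l → S.T k l ∈ S.K (J \ {y}) :=
    fun hk hl ky ly kl => Subgroup.subset_closure ⟨_, ⟨hk, ky⟩, _, ⟨hl, ly⟩, kl, rfl⟩
  have s1 : ∀ x : G, (∃ g' ∈ S.K (J \ {y}), x = g' ∨ ∃ d ∈ J, d ≠ y ∧ x = g' * S.T y d) →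
      ∀ l ∈ J, l ≠ y → ∃ g' ∈ S.K (J \ {y}), x * S.T y l = g' ∨
        ∃ d ∈ J, d ≠ y ∧ x * S.T y l = g' * S.T y d := by
    rintro x ⟨g', hg', rfl | ⟨d, dJ, dy, rfl⟩⟩ l hl ly
    · exact ⟨x, hg', Or.inr ⟨l, hl, ly, rfl⟩⟩
    · by_cases e : l = d
      · subst e
        exact ⟨g', hg', Or.inl (by rw [mul_assoc, invol S h2 ly.symm, mul_one])⟩
      · refine ⟨g' * S.T d l, mul_mem hg' (mem dJ hl dy ly (Ne.symm e)), Or.inr ⟨d, dJ, dy, ?_⟩⟩
        have := conjT S h2 h3 dy.symm ly.symm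
        rw [Equiv.swap_apply_left, Equiv.swap_apply_of_ne_of_ne ly e] at this
        rw [← this]
        simp only [mul_assoc, invol S h2 dy.symm, mul_one]
  have step : ∀ x : G, (∃ g' ∈ S.K (J \ {y}), x = g' ∨ ∃ d ∈ J, d ≠ y ∧ x = g' * S.T y d) →
      ∀ k ∈ J, ∀ l ∈ J, k ≠ l → ∃ g' ∈ S.K (J \ {y}), x * S.T k l = g' ∨
        ∃ d ∈ J, d ≠ y ∧ x * S.T k l = g' * S.T y d := by
    intro x hx k hk l hl kl
    by_cases ky : k = y
    · subst ky
      exact s1 x hx l hl kl.symm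
    by_cases ly : l = y
    · subst ly
      rw [symm S h2 h3 kl]
      exact s1 x hx k hk kl
    obtain ⟨g', hg', rfl | ⟨d, dJ, dy, rfl⟩⟩ := hx
    · exact ⟨_, mul_mem hg' (mem hk hl ky ly kl), Or.inl rfl⟩
    · have e := Equiv.swap_apply_of_ne_of_ne (Ne.symm ky) (Ne.symm ly)
      refine ⟨g' * S.T k l, mul_mem hg' (mem hk hl ky ly kl), Or.inr ⟨Equiv.swap k l d, ?_,
        fun h => dy ((Equiv.swap k l).injective (h.trans e.symm)), ?_⟩⟩
      · rw [Equiv.swap_apply_def]
        split_ifs <;> assumption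
      · have := conjT S h2 h3 kl dy.symm
        rw [e] at this
        rw [← this]
        simp only [← mul_assoc]
        rw [mul_assoc g' (S.T k l), invol S h2 kl, mul_one]
  unfold St.K at hg
  induction hg using Subgroup.closure_induction_right with
  | one => exact ⟨1, one_mem _, Or.inl rfl⟩
  | mul_right x _ z hz ih =>
    obtain ⟨k, hk, l, hl, kl, rfl⟩ := hz
    exact step x ih k hk l hl kl
  | mul_inv_cancel x _ z hz ih =>
    obtain ⟨k, hk, l, hl, kl, rfl⟩ := hz
    rw [tinv S h2 kl]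
    exact step x ih k hk l hl kl

theorem fin (J : Finset I) : (S.K (J : Set I) : Set G).Finite := by
  induction J using Finset.induction_on with
  | empty =>
    have : S.K ((∅ : Finset I) : Set I) = ⊥ := by simp [St.K]
    rw [this]
    exact Set.finite_singleton _
  | insert y J hy ih =>
    have e : ((insert y J : Finset I) : Set I) \ {y} = J := by
      rw [Finset.coe_insert, Set.insert_diff_self_of_notMem (by simpa using hy)]
    refine (ih.union (Set.finite_iUnion fun d : I => ih.image fun g => g * S.T y d)).subset ?_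
    intro g hg
    obtain ⟨g', hg', h⟩ := remove S h2 h3 _ y g hg
    rw [e] at hg'
    rcases h with rfl | ⟨d, -, -, rfl⟩
    · exact Or.inl hg'
    · exact Or.inr (Set.mem_iUnion.2 ⟨d, g', hg', rfl⟩)

end Wtx

theorem w_main : SpW := by
  intro I R G _ _ _ _ S h3 h2
  refine ⟨fun _ _ h => Wtx.zero S h, fun _ _ h => Wtx.sq S h2 h, fun _ _ h => Wtx.invol S h2 h,
    fun _ _ h => Wtx.symm S h2 h3 h, fun _ _ _ _ h h' => Wtx.conjX S h2 h3 h h',
    fun _ _ _ _ h h' => Wtx.conjT S h2 h3 h h', fun J y g hg => ?_, ?_⟩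
  · obtain ⟨g', hg', h⟩ := Wtx.remove S h2 h3 J y g hg
    exact ⟨g', hg', h.imp id fun ⟨d, _, a, b⟩ => ⟨d, a, b⟩⟩
  · have := Wtx.fin S h2 h3 Finset.univ
    rwa [Finset.coe_univ] at this

end Pool.Agent.MP_89edc2_al.K76
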